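import Pool.Agent.QL.Defs

/-!
# BEX part D: powers of the row operator as sums over runs.
-/

namespace Pool.Agent.QL

open Pool.Agent.Hhelper14.SAW Pool.Agent.HHP Pool.Agent.BEX
open scoped ENNReal

theorem K_nonneg (L : ℕ) (σ τ : StL L) : 0 ≤ K L σ τ := by
  unfold K
  refine Finset.sum_nonneg fun q _ => Finset.sum_nonneg fun r _ => ?_
  split
  · exact le_rfl
  · split_ifs
    · exact pow_nonneg xc_pos.le _
    · exact le_rfl

section inv

variable {Λ : Type} [DecidableEq Λ]

theorem powcj_inv {a b : Λ} {f : Λ → Λ} (hf : ∀ z, f (f z) = z) (z : Λ) :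
    cj a b f (cj a b f z) = z := by
  unfold cj
  simp [hf]

theorem powar_inv {a b : Λ} {f : Λ → Λ} (hf : ∀ z, f (f z) = z) (ha : f a = a) (hb : f b = b) (z : Λ) :
    ar a b f (ar a b f z) = z :=
  St.jnf_inv a b ⟨f, hf⟩ ha hb z

theorem powct_inv {a b : Λ} {f : Λ → Λ} (hf : ∀ z, f (f z) = z) (ha : f a ≠ a) (hb : f b ≠ b) (z : Λ) :
    ct a b f (ct a b f z) = z :=
  St.cpf_inv a b ⟨f, hf⟩ ha hb z

theorem powhop_inv {r : Bool} {b j : Λ} {f : Λ → Λ} (hf : ∀ z, f (f z) = z) {g : (Λ → Λ) × ℕ}
    (hg : hop r b j f = some g) : ∀ z, g.1 (g.1 z) = z := by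
  unfold hop at hg
  by_cases h1 : r = false
  · rw [if_pos h1, Option.some.injEq] at hg
    subst hg
    exact powcj_inv hf
  · rw [if_neg h1] at hg
    by_cases h2 : f b = b
    · rw [if_pos h2] at hg
      by_cases h3 : f j = j
      · rw [if_pos h3, Option.some.injEq] at hg
        subst hg
        exact powar_inv hf h2 h3
      · rw [if_neg h3, Option.some.injEq] at hg
        subst hg
        exact hf
    · rw [if_neg h2] at hg
      by_cases h3 : f j = j
      · rw [if_pos h3, Option.some.injEq] at hg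
        subst hg
        exact hf
      · rw [if_neg h3] at hg
        by_cases h4 : f b = j
        · rw [if_pos h4] at hg
          simp at hg
        · rw [if_neg h4, Option.some.injEq] at hg
          subst hg
          exact powct_inv hf h2 h3

theorem powhops_inv {b : Λ} (l : List (Bool × Λ)) {f : Λ → Λ} (hf : ∀ z, f (f z) = z) {g : (Λ → Λ) × ℕ}
    (hg : hops b l f = some g) : ∀ z, g.1 (g.1 z) = z := by
  induction l generalizing f g with
  | nil =>
    simp only [hops, Option.some.injEq] at hg
    subst hg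
    exact hf
  | cons p l ih =>
    rcases h1 : hop p.1 b p.2 f with _ | g1
    · simp [hops, h1] at hg
    · rcases h2 : hops b l g1.1 with _ | g2
      · simp [hops, h1, h2] at hg
      · simp only [hops, h1, Option.bind_some, h2, Option.map_some, Option.some.injEq] at hg
        subst hg
        exact ih (g := g2) (powhop_inv hf h1) h2

theorem powcap_inv {a b : Λ} {f : Λ → Λ} (hf : ∀ z, f (f z) = z) {g : Λ → Λ}
    (hg : cap a b f = some g) : ∀ z, g (g z) = z := by
  unfold cap at hg
  by_cases h1 : f a = a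
  · rw [if_pos h1] at hg
    by_cases h2 : f b = b
    · rw [if_pos h2, Option.some.injEq] at hg
      subst hg
      exact hf
    · rw [if_neg h2] at hg
      simp at hg
  · rw [if_neg h1] at hg
    by_cases h2 : f b = b
    · rw [if_pos h2] at hg
      simp at hg
    · rw [if_neg h2] at hg
      by_cases h3 : f a = b
      · rw [if_pos h3] at hg
        simp at hg
      · rw [if_neg h3, Option.some.injEq] at hg
        subst hg
        exact powct_inv hf h1 h2

theorem rowG_inv {L : ℕ} (ln : Fin L → Λ) (c : Ch L) {f : Λ → Λ} (hf : ∀ z, f (f z) = z)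
    {g : (Λ → Λ) × ℕ} (hg : rowG ln c f = some g) : ∀ z, g.1 (g.1 z) = z := by
  unfold rowG at hg
  simp only [Option.bind_eq_some_iff, Option.map_eq_some_iff] at hg
  obtain ⟨g1, h1, g2, h2, rfl⟩ := hg
  have hf0 : ∀ z : Λ ⊕ Bool, Sum.map f id (Sum.map f id z) = z := by
    intro z
    rcases z with z | z
    · simp [hf]
    · simp
  have hf1 : ∀ z : Λ ⊕ Bool,
      (if c.1 = true then ar (Sum.inr false) (Sum.inr true) (Sum.map f id) else Sum.map f id)
        ((if c.1 = true then ar (Sum.inr false) (Sum.inr true) (Sum.map f id) else Sum.map f id) z) = z := by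
    split_ifs
    · exact powar_inv hf0 rfl rfl
    · exact hf0
  have h3 := powcap_inv (powhops_inv _ hf1 h1) h2
  intro z
  dsimp only
  rcases h4 : g2 (Sum.inl z) with y | y
  · have h5 : g2 (Sum.inl y) = Sum.inl z := by rw [← h4, h3]
    simp only [h5]
  · simp only [h4]

end inv

theorem wr_map {Λ : Type} [DecidableEq Λ] (t : Λ → Λ) (k : ℕ) (o : Option ((Λ → Λ) × ℕ)) :
    wr t (o.map fun h => (h.1, k + h.2)) = xE ^ k * wr t o := by
  rcases o with _ | g
  · simp [wr]
  · simp only [wr, Option.map_some]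
    split_ifs
    · rw [pow_add]
    · simp

theorem ofReal_K (L : ℕ) (σ τ : StL L) :
    ENNReal.ofReal (K L σ τ) = ∑ c : Ch L, wr τ.1 (rowG (id : Fin L → Fin L) c σ.1) := by
  have h1 : K L σ τ = ∑ c : Ch L, (wr τ.1 (rowG (id : Fin L → Fin L) c σ.1)).toReal := by
    unfold K
    rw [Fintype.sum_prod_type]
    refine Finset.sum_congr rfl fun q _ => Finset.sum_congr rfl fun r _ => ?_
    have h2 : row q r σ.1 = rowG (id : Fin L → Fin L) (q, r) σ.1 := by
      unfold row rowG
      dsimp only [id_eq]
      congr 1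
      funext g
      congr 1
      funext h
      congr 1
      funext j
      rcases h (Sum.inl j) with i | i <;> rfl
    rw [h2]
    rcases rowG (id : Fin L → Fin L) (q, r) σ.1 with _ | g
    · simp [wr]
    · simp only [wr]
      split_ifs
      · rw [ENNReal.toReal_pow]
        unfold xE
        rw [ENNReal.toReal_ofReal xc_pos.le]
      · simp
  rw [h1, ENNReal.ofReal_sum_of_nonneg fun c _ => ENNReal.toReal_nonneg]
  refine Finset.sum_congr rfl fun c _ => ?_
  rw [ENNReal.ofReal_toReal]
  rcases rowG (id : Fin L → Fin L) c σ.1 with _ | g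
  · simp [wr]
  · simp only [wr]
    split_ifs
    · exact ENNReal.pow_ne_top xE_ne.2
    · exact ENNReal.zero_ne_top

/-- lists of length `M + 1` -/
def consE (α : Type) (M : ℕ) : α × {l : List α // l.length = M} ≃ {l : List α // l.length = M + 1} where
  toFun p := ⟨p.1 :: p.2.1, by simp [p.2.2]⟩
  invFun l := (l.1.head (by intro h; have := l.2; rw [h] at this; simp at this), ⟨l.1.tail, by simp [l.2]⟩)
  left_inv p := by simp
  right_inv l := by simp

theorem rm_succ {Λ : Type} [DecidableEq Λ] {L : ℕ} (ln : Fin L → Λ) (M : ℕ) (f t : Λ → Λ) :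
    rm ln (M + 1) f t = ∑ c : Ch L, (match rowG ln c f with
      | none => 0
      | some g => xE ^ g.2 * rm ln M g.1 t) := by
  unfold rm
  rw [← (consE (Ch L) M).tsum_eq, ENNReal.tsum_prod', tsum_fintype]
  refine Finset.sum_congr rfl fun c _ => ?_
  have h1 : ∀ cs : {l : List (Ch L) // l.length = M}, run ln ((consE (Ch L) M) (c, cs)).1 f =
      (rowG ln c f).bind fun g => (run ln cs.1 g.1).map fun h => (h.1, g.2 + h.2) := fun _ => rfl
  simp only [h1]
  rcases rowG ln c f with _ | g
  · simp [wr]
  · simp only [Option.bind_some, wr_map]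
    rw [ENNReal.tsum_mul_left]

/-- `K^M σ τ` is the mass of the runs. (`pow_succ'`, the first factor is the first row; `rowG id c = row c.1 c.2`.) -/
theorem K_pow (L M : ℕ) (σ τ : StL L) : ENNReal.ofReal ((K L ^ M) σ τ) = rm (id : Fin L → Fin L) M σ.1 τ.1 := by
  have hpow : ∀ (n : ℕ) (σ τ : StL L), 0 ≤ (K L ^ n) σ τ := by
    intro n
    induction n with
    | zero =>
      intro σ τ
      rw [pow_zero, Matrix.one_apply]
      split_ifs
      · exact zero_le_one
      · exact le_rfl
    | succ n ih =>
      intro σ τ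
      rw [pow_succ', Matrix.mul_apply]
      exact Finset.sum_nonneg fun ρ _ => mul_nonneg (K_nonneg _ _ _) (ih _ _)
  induction M generalizing σ τ with
  | zero =>
    rw [pow_zero, Matrix.one_apply]
    unfold rm
    have h1 : ∀ cs : {cs : List (Ch L) // cs.length = 0}, wr τ.1 (run (id : Fin L → Fin L) cs.1 σ.1) =
        if σ = τ then 1 else 0 := by
      rintro ⟨cs, h⟩
      have h2 : cs = [] := List.length_eq_zero_iff.1 h
      subst h2
      simp only [run, wr, pow_zero]
      by_cases h3 : σ = τ
      · rw [if_pos h3, if_pos (by rw [h3])]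
      · rw [if_neg h3, if_neg fun h4 => h3 (Subtype.ext h4)]
    have : Unique {cs : List (Ch L) // cs.length = 0} :=
      ⟨⟨⟨[], rfl⟩⟩, fun cs => Subtype.ext (List.length_eq_zero_iff.1 cs.2)⟩
    rw [tsum_congr h1, tsum_fintype]
    split_ifs <;> simp
  | succ M ih =>
    rw [pow_succ', Matrix.mul_apply, ENNReal.ofReal_sum_of_nonneg fun ρ _ =>
      mul_nonneg (K_nonneg _ _ _) (hpow M _ _)]
    simp only [ENNReal.ofReal_mul (K_nonneg _ _ _), ih, ofReal_K, Finset.sum_mul]
    rw [Finset.sum_comm, rm_succ]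
    refine Finset.sum_congr rfl fun c _ => ?_
    rcases hg : rowG (id : Fin L → Fin L) c σ.1 with _ | g
    · simp [wr]
    · simp only [wr]
      have hi := rowG_inv (id : Fin L → Fin L) c σ.2 hg
      refine (Finset.sum_congr rfl fun ρ _ => (?_ : _ = if ρ = (⟨g.1, hi⟩ : StL L) then
        xE ^ g.2 * rm (id : Fin L → Fin L) M g.1 τ.1 else 0)).trans ?_
      · by_cases hρ : g.1 = ρ.1
        · have h1 : ρ = (⟨g.1, hi⟩ : StL L) := St.ext' fun i => (congrFun hρ i).symm
          subst h1
          simp
        · have h1 : ρ ≠ (⟨g.1, hi⟩ : StL L) := fun h => hρ (by rw [h])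
          simp [hρ, h1]
      · simp only [Finset.sum_ite_eq']
        exact if_pos (@Finset.mem_univ (StL L) St.instFintypeOfDecidableEq ⟨g.1, hi⟩)

end Pool.Agent.QL
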