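import Pool.Agent.QL.HLEnd

/-!
# BEX part D: history lemma, lower bound
-/

namespace Pool.Agent.QL.HL

open Pool.Agent.Hhelper14.SAW Pool.Agent.HHP Pool.Agent.BEX
open scoped ENNReal

variable {L M : ℕ} {i0 j0 : Fin L} {l l' : List (CV L)}

/-- The choices determine the used edges. -/
theorem used_eq (hL : 2 ≤ L) (hij : i0 ≠ j0) (hl : CP M ((0 : ℤ), i0, true) ((0 : ℤ), j0, true) l)
    (hl' : CP M ((0 : ℤ), i0, true) ((0 : ℤ), j0, true) l')
    (hau : ∀ n : ℕ, n < M → (auU hL l n 0 ↔ auU hL l' n 0))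
    (hru : ∀ n : ℕ, n < M → ∀ j, (ruU l n j ↔ ruU l' n j)) (m : ℕ) :
    ∀ n : ℕ, n + m = M → (∀ j, upU l i0 j0 n j ↔ upU l' i0 j0 n j) ∧
      (n < M → ∀ k, k ≤ L → (auU hL l n k ↔ auU hL l' n k)) := by
  have hM : 0 < M := by
    have h1 : ((0 : ℤ), i0, true) ∈ l := List.mem_of_head? hl.2.2.2.1
    have := (hl.2.2.1 _ h1).2
    simp only at this
    omega
  induction m with
  | zero =>
    intro n hn
    have hn' : n = M := by omega
    subst hn'
    refine ⟨fun j => ?_, fun h => absurd h (lt_irrefl _)⟩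
    have key : ∀ w : List (CV L), CP n ((0 : ℤ), i0, true) ((0 : ℤ), j0, true) w → ¬ upU w i0 j0 n j := by
      intro w hw
      unfold upU
      rw [if_neg (by omega)]
      intro h1
      have := (hw.2.2.1 _ h1.mem.1).2
      simp only at this
      omega
    exact ⟨fun h => absurd h (key l hl), fun h => absurd h (key l' hl')⟩
  | succ m ih =>
    intro n hn
    have hnM : n < M := by omega
    obtain ⟨hup, -⟩ := ih (n + 1) (by omega)
    have hup' : ∀ j, upU l i0 j0 ((n : ℤ) + 1) j ↔ upU l' i0 j0 ((n : ℤ) + 1) j := by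
      intro j
      have := hup j
      push_cast at this
      exact this
    have hak : ∀ k, k ≤ L → (auU hL l n k ↔ auU hL l' n k) := by
      intro k
      induction k with
      | zero => intro _; exact hau n hnM
      | succ k ihk =>
        intro hk
        have d := deg2 hL hl (n := (n : ℤ)) (by omega) k
        have d' := deg2 hL hl' (n := (n : ℤ)) (by omega) k
        have r := hru n hnM (ln hL k)
        have u := hup' (ln hL k)
        by_cases hr : ruU l n (ln hL k)
        · rw [d.1 hr, d'.1 (r.1 hr), u]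
        · rw [d.2 hr, d'.2 (fun h => hr (r.2 h)), u]
    refine ⟨fun j => ?_, fun _ => hak⟩
    have d := deg1 hL hij hl (n := (n : ℤ)) (by omega) (j : ℕ)
    have d' := deg1 hL hij hl' (n := (n : ℤ)) (by omega) (j : ℕ)
    rw [ln_val] at d d'
    have r := hru n hnM j
    have a := hak j j.2.le
    by_cases hr : ruU l n j
    · have e1 := d.1 hr
      have e2 := d'.1 (r.1 hr)
      exact ⟨fun h => by_contra fun h' => (e1.1 (a.2 (e2.2 h'))) h,
        fun h => by_contra fun h' => (e2.1 (a.1 (e1.2 h'))) h⟩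
    · rw [← d.2 hr, ← d'.2 (fun h => hr (r.2 h)), a]

theorem nb_imp (hL : 2 ≤ L) (hij : i0 ≠ j0) (hl : CP M ((0 : ℤ), i0, true) ((0 : ℤ), j0, true) l)
    (hl' : CP M ((0 : ℤ), i0, true) ((0 : ℤ), j0, true) l')
    (hau : ∀ n : ℕ, n < M → (auU hL l n 0 ↔ auU hL l' n 0))
    (hru : ∀ n : ℕ, n < M → ∀ j, (ruU l n j ↔ ruU l' n j)) {u v : CV L} (h : Nb l u v) : Nb l' u v := by
  have key : ∀ {u v : CV L}, ad1 u v → Nb l u v → Nb l' u v := by
    rintro ⟨a, b, c⟩ ⟨a', b', c'⟩ ⟨h1, h2, h3⟩ hn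
    simp only at h1 h2 h3
    subst h1 h2
    obtain ⟨m1, m2⟩ := hn.mem
    have r1 := hl.2.2.1 _ m1
    have r2 := hl.2.2.1 _ m2
    simp only at r1 r2
    obtain ⟨n, rfl⟩ : ∃ n : ℕ, a = n := ⟨a.toNat, by omega⟩
    have hnM : n < M := by omega
    obtain ⟨k1, k2⟩ := used_eq hL hij hl hl' hau hru (M - n) n (by omega)
    rcases h3 with ⟨h3, h4⟩ | ⟨h3, h4⟩ | ⟨h3, h4⟩
    · rw [h3, h4] at hn ⊢
      exact (hru n hnM b).1 hn
    · rw [h3] at hn ⊢
      have hb : b' = lp hL (b : ℕ) := md_inj hL (by rw [h4, md_lp, ln_val])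
      have h5 : auU hL l n (b : ℕ) := by
        unfold auU
        rw [ln_val, ← hb]
        exact hn.symm
      have h6 := (k2 hnM _ b.2.le).1 h5
      unfold auU at h6
      rw [ln_val, ← hb] at h6
      exact h6.symm
    · rw [h4, h3] at hn ⊢
      have hn0 : (n : ℤ) ≠ 0 := by omega
      have h5 : upU l i0 j0 n b := by
        unfold upU
        rw [if_neg hn0]
        exact hn
      have h6 := (k1 b).1 h5
      unfold upU at h6
      rw [if_neg hn0] at h6
      exact h6
  rcases nb_ad hl h with h1 | h1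
  · exact key h1 h
  · exact (key h1 h.symm).symm

theorem cho_of_csl (hL : 2 ≤ L) (M : ℕ) (h : csl hL l M = csl hL l' M) :
    ∀ n : ℕ, n < M → cho hL l n = cho hL l' n := by
  induction M with
  | zero => intro n hn; omega
  | succ M ih =>
    intro n hn
    rw [csl, csl, List.cons.injEq] at h
    rcases Nat.lt_or_ge n M with h1 | h1
    · exact ih h.2 n h1
    · have : n = M := by omega
      subst this
      exact h.1

theorem csl_inj (hL : 2 ≤ L) (hij : i0 ≠ j0) (hl : CP M ((0 : ℤ), i0, true) ((0 : ℤ), j0, true) l)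
    (hl' : CP M ((0 : ℤ), i0, true) ((0 : ℤ), j0, true) l') (h : csl hL l M = csl hL l' M) : l = l' := by
  have hc := cho_of_csl hL M h
  have hau : ∀ n : ℕ, n < M → (auU hL l n 0 ↔ auU hL l' n 0) := by
    intro n hn
    have := congrArg Prod.fst (hc n hn)
    simpa [cho] using this
  have hru : ∀ n : ℕ, n < M → ∀ j, (ruU l n j ↔ ruU l' n j) := by
    intro n hn j
    have := congrFun (congrArg Prod.snd (hc n hn)) j
    simpa [cho] using this
  refine eq_of_chain hl'.1 hl.1 ?_ (by rw [hl.2.2.2.1, hl'.2.2.2.1]) (by rw [hl.2.2.2.2, hl'.2.2.2.2])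
  rw [List.isChain_iff_getElem]
  intro i hi
  refine nb_imp hL hij hl hl' hau hru (Or.inl ?_)
  exact infix_pair_iff.2 ⟨i, hi, rfl, rfl⟩

end Pool.Agent.QL.HL

namespace Pool.Agent.QL

open Pool.Agent.Hhelper14.SAW Pool.Agent.HHP Pool.Agent.BEX
open scoped ENNReal
open HL

/-- Lower bound, arcs from the empty state. -/
theorem cm_le_rm {L : ℕ} (hL : 2 ≤ L) (M : ℕ) (i j : Fin L) (h : i ≠ j) :
    cm M (0, i, true) (0, j, true) ≤ rm (id : Fin L → Fin L) M id (ar i j id) := by
  unfold cm rm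
  let φ : {l : List (CV L) // CP M (0, i, true) (0, j, true) l} → {cs : List (Ch L) // cs.length = M} :=
    fun l => ⟨csl hL l.1 M, csl_length hL l.1 M⟩
  have hφ : Function.Injective φ := by
    intro l l' e
    have e' : csl hL l.1 M = csl hL l'.1 M := congrArg Subtype.val e
    exact Subtype.ext (csl_inj hL h l.2 l'.2 e')
  have hw : ∀ l, xE ^ l.1.length = wr (ar i j id) (run (id : Fin L → Fin L) (φ l).1 id) := by
    intro l
    show _ = wr (ar i j id) (run (id : Fin L → Fin L) (csl hL l.1 M) id)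
    rw [run_path hL h l.2]
    simp [wr]
  rw [tsum_congr hw]
  exact ENNReal.tsum_comp_le_tsum_of_injective hφ
    (fun cs : {cs : List (Ch L) // cs.length = M} => wr (ar i j id) (run (id : Fin L → Fin L) cs.1 id))

end Pool.Agent.QL
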