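import Pool.Agent.QL.HistUp
import Pool.Agent.QL.HistLow

/-!
# BEX part D: history lemma. Runs with a single strand in the end = self-avoiding paths of the cylinder.

`rm_le_cm` (upper bound): `HistUp.lean`. `cm_le_rm` (lower bound): `HistLow.lean`.
-/
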