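import Pool.Agent.QL.Defs
import Pool.Agent.HEP.GPLA

/-!
# BEX part D: an arc whose projection to the cylinder is self-avoiding has displacement `< L`.

`P` (the word) and its translate by `t = (-L, 2 L)` are disjoint (projection nodup). Displacement `e = ± L` is impossible
(first and last vertex have the same projection). If `e > L`: the end legs interleave `0 < L < e < L + e`, `P` joins
`0` and `e` in the half plane, `P + t` joins `L` and `L + e`: they must meet. For this: for `z` in the closed half plane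
`0 ≤ F0`, not on the barrier `B = P + t`, the number `J z = Th z B - sec (hb - z) + sec (ht - z)` (`hb`, `ht` the ends of
`B`, on the line `F0 = 0`) does not change along unit steps; on the line `F0 = 0` it is
`(al - sec) (hb - z) - (al - sec) (ht - z)`, which is `0` outside of the interval between the ends and `± 6` inside.
-/

namespace Pool.Agent.QL

open Pool.Agent.Hhelper14.SAW Pool.Agent.HHP Pool.Agent.BEX Pool.Agent.HEP
open scoped ENNReal

private lemma Cross_up {w : ℤ × ℤ} (n : NZ w) (h : 0 ≤ F0 w) : sec w ≤ 1 ∨ 4 ≤ sec w := by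
  obtain ⟨a, b⟩ := w
  simp only [NZ, F0] at n h
  unfold sec
  split_ifs <;> simp only at * <;> omega

private lemma Cross_dn {w : ℤ × ℤ} (n : NZ w) (h : F0 w ≤ 0) : 1 ≤ sec w ∧ sec w ≤ 4 := by
  obtain ⟨a, b⟩ := w
  simp only [NZ, F0] at n h
  unfold sec
  split_ifs <;> simp only at * <;> omega

private lemma Cross_dl0 {w w' : ℤ × ℤ} (n : NZ w) (n' : NZ w') (h : 0 ≤ F0 w) (h' : 0 ≤ F0 w') (hU : U (w' - w)) :
    dl w w' = al w' - al w := by
  have h1 := sec_step n n' hU
  have h2 := Cross_up n h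
  have h3 := Cross_up n' h'
  have h4 := sec_nonneg w
  have h5 := sec_nonneg w'
  have h6 := sec_lt w
  have h7 := sec_lt w'
  refine dl_eq_of n n' hU ?_ ?_ ?_ <;> unfold al <;> split_ifs <;> omega

private lemma Cross_dl1 {w w' : ℤ × ℤ} (n : NZ w) (n' : NZ w') (h : F0 w ≤ 0) (h' : F0 w' ≤ 0) (hU : U (w' - w)) :
    dl w w' = sec w' - sec w := by
  have h1 := sec_step n n' hU
  have h2 := Cross_dn n h
  have h3 := Cross_dn n' h'
  refine dl_eq_of n n' hU (by omega) ?_ ?_ <;> omega

private lemma Cross_Th (c : ℤ × ℤ) : ∀ (P : List (ℤ × ℤ)) (h : ℤ × ℤ), UChain (h :: P) → c ∉ h :: P →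
    (∀ x ∈ h :: P, F0 c ≤ F0 x) →
    Th c (h :: P) = al (h - c) - al ((h :: P).getLast (by simp) - c) := by
  intro P
  induction P with
  | nil => intro h _ _ _; simp
  | cons x r ih =>
    intro h hc hn hF
    have h1 := ih x hc.tail (fun hm => hn (List.mem_cons_of_mem _ hm)) (fun y hy => hF y (List.mem_cons_of_mem _ hy))
    have hU : U (h - x) := (List.isChain_cons_cons.1 hc).1
    have hx := hF x (by simp)
    have hh := hF h (by simp)
    have h2 : dl (x - c) (h - c) = al (h - c) - al (x - c) :=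
      Cross_dl0 (nz_of_ne (fun e => hn (by simp [e]))) (nz_of_ne (fun e => hn (by simp [e])))
        (by rw [F0_sub']; omega) (by rw [F0_sub']; omega) (by rw [sub_sub_sub']; exact hU)
    rw [Th_cons_cons, h1, h2, List.getLast_cons_cons]
    ring

/-- The invariant. -/
private def Cross_J (hb : ℤ × ℤ) (B : List (ℤ × ℤ)) (z : ℤ × ℤ) : ℤ :=
  Th z (hb :: B) - sec (hb - z) + sec ((hb :: B).getLast (by simp) - z)

private lemma Cross_step {B : List (ℤ × ℤ)} {hb p q : ℤ × ℤ} (hB : UChain (hb :: B)) (hpq : U (p - q))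
    (hp : p ∉ hb :: B) (hq : q ∉ hb :: B) (b1 : F0 hb = 0) (b2 : F0 ((hb :: B).getLast (by simp)) = 0)
    (p1 : 0 ≤ F0 p) (q1 : 0 ≤ F0 q) : Cross_J hb B p = Cross_J hb B q := by
  have h := Th_change hpq B hb hB hp hq
  have hl : (hb :: B).getLast (by simp) ∈ hb :: B := List.getLast_mem _
  have h1 : dl (hb - p) (hb - q) = sec (hb - q) - sec (hb - p) :=
    Cross_dl1 (nz_of_ne (fun e => hp (by simp [e]))) (nz_of_ne (fun e => hq (by simp [e])))
      (by rw [F0_sub']; omega) (by rw [F0_sub']; omega) (by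
      have : hb - q - (hb - p) = p - q := by ring
      rw [this]; exact hpq)
  have h2 : dl ((hb :: B).getLast (by simp) - p) ((hb :: B).getLast (by simp) - q) =
      sec ((hb :: B).getLast (by simp) - q) - sec ((hb :: B).getLast (by simp) - p) :=
    Cross_dl1 (nz_of_ne (fun e => hp (e ▸ hl))) (nz_of_ne (fun e => hq (e ▸ hl)))
      (by rw [F0_sub']; omega) (by rw [F0_sub']; omega) (by
      have : (hb :: B).getLast (by simp) - q - ((hb :: B).getLast (by simp) - p) = p - q := by ring
      rw [this]; exact hpq)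
  rw [h1, h2] at h
  unfold Cross_J
  omega

private lemma Cross_chain {B : List (ℤ × ℤ)} {hb : ℤ × ℤ} (hB : UChain (hb :: B)) (b1 : F0 hb = 0)
    (b2 : F0 ((hb :: B).getLast (by simp)) = 0) : ∀ (P : List (ℤ × ℤ)) (h : ℤ × ℤ), UChain (h :: P) →
    (∀ z ∈ h :: P, z ∉ hb :: B) → (∀ z ∈ h :: P, 0 ≤ F0 z) →
    Cross_J hb B ((h :: P).getLast (by simp)) = Cross_J hb B h := by
  intro P
  induction P with
  | nil => intro h _ _ _; simp
  | cons x r ih =>
    intro h hc hd h1
    have e1 := ih x hc.tail (fun y hy => hd y (List.mem_cons_of_mem _ hy)) (fun y hy => h1 y (List.mem_cons_of_mem _ hy))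
    have hU : U (h - x) := (List.isChain_cons_cons.1 hc).1
    rw [List.getLast_cons_cons, e1]
    exact (Cross_step hB hU (hd h (by simp)) (hd x (by simp)) b1 b2 (h1 h (by simp)) (h1 x (by simp))).symm

private lemma Cross_val {B : List (ℤ × ℤ)} {hb z : ℤ × ℤ} (hB : UChain (hb :: B)) (hz : z ∉ hb :: B) (hz0 : F0 z = 0)
    (h0 : ∀ x ∈ hb :: B, 0 ≤ F0 x) : Cross_J hb B z = (al (hb - z) - sec (hb - z)) -
      (al ((hb :: B).getLast (by simp) - z) - sec ((hb :: B).getLast (by simp) - z)) := by
  unfold Cross_J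
  rw [Cross_Th z B hb hB hz (fun x hx => by rw [hz0]; exact h0 x hx)]
  ring

private lemma Cross_as {w : ℤ × ℤ} (h : F0 w = 0) : al w - sec w = if 0 < w.2 then 0 else -6 := by
  obtain ⟨a, b⟩ := w
  simp only [F0] at h
  unfold al sec
  simp only
  split_ifs <;> omega

/-- A path in the half plane meets its translate if the ends interlace. -/
theorem Cross_meet {P : List (ℤ × ℤ)} {p q : ℤ × ℤ} {e L : ℤ} (hP : UChain P) (h0 : ∀ z ∈ P, 0 ≤ F0 z)
    (hh : P.head? = some p) (hl : P.getLast? = some q) (hp : F0 p = 0) (hq : F0 q = 0) (he : q.2 = p.2 + 2 * e)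
    (hL : 0 < L) (hLe : L < e) : ∃ z ∈ P, z + (-L, 2 * L) ∈ P := by
  by_contra hcon
  push Not at hcon
  obtain ⟨P', rfl⟩ : ∃ P', P = p :: P' := by
    cases P with
    | nil => simp at hh
    | cons a A =>
      simp only [List.head?_cons, Option.some.injEq] at hh
      exact ⟨A, by rw [hh]⟩
  have hql : (p :: P').getLast (by simp) = q := by
    rw [List.getLast?_eq_some_getLast (by simp)] at hl
    exact Option.some.inj hl
  set t : ℤ × ℤ := (-L, 2 * L) with ht
  have hB : UChain ((p + t) :: P'.map (· + t)) := by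
    have : UChain ((p :: P').map (· + t)) := by
      refine (List.isChain_map _).2 (hP.imp fun x y hxy => ?_)
      have e1 : x + t - (y + t) = x - y := by ring
      rw [e1]; exact hxy
    simpa using this
  have hmem : ∀ x ∈ (p + t) :: P'.map (· + t), ∃ y ∈ p :: P', x = y + t := by
    intro x hx
    have : x ∈ (p :: P').map (· + t) := by simpa using hx
    rw [List.mem_map] at this
    obtain ⟨y, hy, rfl⟩ := this
    exact ⟨y, hy, rfl⟩
  have hd : ∀ z ∈ p :: P', z ∉ (p + t) :: P'.map (· + t) := by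
    intro z hz hz'
    obtain ⟨y, hy, rfl⟩ := hmem z hz'
    exact hcon y hy hz
  have hF : F0 t = 0 := by rw [ht]; simp only [F0]; ring
  have h0' : ∀ x ∈ (p + t) :: P'.map (· + t), 0 ≤ F0 x := by
    intro x hx
    obtain ⟨y, hy, rfl⟩ := hmem x hx
    rw [F0_add, hF]
    have := h0 y hy
    omega
  have hlB : ((p + t) :: P'.map (· + t)).getLast (by simp) = q + t := by
    have : ((p :: P').map (· + t)).getLast (by simp) = q + t := by
      rw [List.getLast_map, hql]
    simpa using this
  have b1 : F0 (p + t) = 0 := by rw [F0_add, hF, hp]; rfl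
  have b2 : F0 (((p + t) :: P'.map (· + t)).getLast (by simp)) = 0 := by rw [hlB, F0_add, hF, hq]; rfl
  have key := Cross_chain hB b1 b2 P' p hP hd h0
  have hpm : p ∈ p :: P' := by simp
  have hqm : q ∈ p :: P' := by rw [← hql]; exact List.getLast_mem _
  rw [hql, Cross_val hB (hd q hqm) hq h0', Cross_val hB (hd p hpm) hp h0', hlB,
    Cross_as (by rw [F0_sub', b1, hq]; rfl), Cross_as (by rw [F0_sub', F0_add, hF, hq]; rfl),
    Cross_as (by rw [F0_sub', b1, hp]; rfl), Cross_as (by rw [F0_sub', F0_add, hF, hq, hp]; rfl)] at key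
  simp only [ht, Prod.snd_sub, Prod.snd_add] at key
  rw [if_neg (by omega), if_pos (by omega), if_pos (by omega), if_pos (by omega)] at key
  omega

private lemma Cross_pr {L : ℕ} (i : Fin L) (z : ℤ × ℤ) : pr i (z + (-(L : ℤ), 2 * (L : ℤ))) = pr i z := by
  have hF : F0 (z + (-(L : ℤ), 2 * (L : ℤ))) = F0 z := by
    simp only [F0, Prod.fst_add, Prod.snd_add]; ring
  unfold pr
  rw [hF]
  congr 2
  unfold md
  refine Fin.ext ?_
  simp only [Prod.fst_add]
  congr 1
  have : (i : ℤ) + (F0 z / 3 - (z.1 + -(L : ℤ))) = (i : ℤ) + (F0 z / 3 - z.1) + L := by ring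
  rw [this, Int.add_emod_right]

theorem disp_lt {L : ℕ} (i : Fin L) (W : List Bool) (h1 : ((V W).map (pr i)).Nodup) (h2 : ∀ z ∈ V W, 0 ≤ F0 z)
    (h3 : F0 (E W) = 0) (h4 : W ≠ []) : |(E W).2| < 2 * L := by
  have hL : (0 : ℤ) < L := by exact_mod_cast i.pos
  have hno : ∀ z ∈ V W, z + (-(L : ℤ), 2 * (L : ℤ)) ∉ V W := by
    intro z hz hz'
    have h5 := List.inj_on_of_nodup_map h1 hz' hz (Cross_pr i z)
    have h6 := congrArg Prod.fst h5
    simp only [Prod.fst_add] at h6
    omega
  have ho : F0 ((0, 0) : ℤ × ℤ) = 0 := rfl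
  have hE2 : (E W).2 = -2 * (E W).1 := by simp only [F0] at h3; omega
  by_contra hcon
  push Not at hcon
  have hc := uchain_V W
  have hh : (V W).head? = some (0, 0) := vs_head? _ _ _
  have hl : (V W).getLast? = some (E W) := vs_getLast? _ _ _
  rcases lt_trichotomy (-(E W).1) 0 with hs | hs | hs
  · -- negative displacement
    have habs : 2 * (L : ℤ) ≤ -(E W).2 := by
      rw [abs_of_neg (by omega)] at hcon; exact hcon
    rcases eq_or_lt_of_le habs with he | he
    · refine hno _ (E_mem W) ?_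
      have : E W + (-(L : ℤ), 2 * (L : ℤ)) = (0, 0) := by
        ext <;> simp only [Prod.fst_add, Prod.snd_add] <;> omega
      rw [this]; exact o_mem W
    · have hc' : UChain (V W).reverse := by
        refine List.isChain_reverse.2 (hc.imp fun x y hxy => hxy.symm)
      obtain ⟨z, hz, hz'⟩ := Cross_meet (P := (V W).reverse) (p := E W) (q := (0, 0)) (e := (E W).1) hc'
        (fun z hz => h2 z (List.mem_reverse.1 hz)) (by rw [List.head?_reverse]; exact hl)
        (by rw [List.getLast?_reverse]; exact hh) h3 ho (by simp only; omega) hL (by omega)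
      exact hno z (List.mem_reverse.1 hz) (List.mem_reverse.1 hz')
  · rw [abs_of_nonpos (by omega)] at hcon
    omega
  · have habs : 2 * (L : ℤ) ≤ (E W).2 := by
      rw [abs_of_pos (by omega)] at hcon; exact hcon
    rcases eq_or_lt_of_le habs with he | he
    · refine hno _ (o_mem W) ?_
      have : ((0, 0) : ℤ × ℤ) + (-(L : ℤ), 2 * (L : ℤ)) = E W := by
        ext <;> simp only [Prod.fst_add, Prod.snd_add] <;> omega
      rw [this]; exact E_mem W
    · obtain ⟨z, hz, hz'⟩ := Cross_meet (P := V W) (p := (0, 0)) (q := E W) (e := -(E W).1) hc h2 hh hl ho h3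
        (by simp only; omega) hL (by omega)
      exact hno z hz hz'

end Pool.Agent.QL
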