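import Pool.Agent.QL.Lift
import Pool.Agent.QL.Cross

/-!
# BEX part D: masses of paths of the cylinder against masses of words.
-/

namespace Pool.Agent.QL

open Pool.Agent.Hhelper14.SAW Pool.Agent.HHP Pool.Agent.BEX
open scoped ENNReal

/-- Arcs in the strip of the columns `0, ..., R`. -/
theorem arcs_strip_le (R : ℕ) : ms xE (fun W => In R W ∧ F0 (E W) = 0 ∧ W ≠ []) ≤ 3 := by
  have h2 := ms_le_of_count (P := fun W => In R W ∧ F0 (E W) = 0 ∧ W ≠ [])
    (fun n => (saw (Hhelper14.SAW.St R) n).filter (fun P => F0 P.headI = 0 ∧ 0 < n))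
    (by
      rintro W ⟨hW, hE, hne⟩
      rw [Finset.mem_filter, mem_saw (St_dom R), toL_headI]
      exact ⟨isSaw_toL (St_dom R) hW.1 (fun z hz => ⟨V_hon hz, hW.2 z hz⟩), hE,
        List.length_pos_of_ne_nil hne⟩)
    xc_pos.le (M := 3) (fun N => arc_mass R N)
  have h3 : ENNReal.ofReal 3 = 3 := by
    simp
  rw [h3] at h2
  exact h2

/-- What the lift of a path `top i - top j` is. -/
lemma lift_top {L : ℕ} {M : ℕ} {i j : Fin L} (h : i ≠ j) {l : List (CV L)}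
    (hl : CP M (0, i, true) (0, j, true) l) : ∃ W : List Bool, (V W).map (pr i) = l ∧ HA W ∧
      (∀ z ∈ V W, F0 z ≤ 3 * ((M - 1 : ℕ) : ℤ) + 1) ∧ md i (-(E W).1) = j ∧ ((V W).map (pr i)).Nodup := by
  obtain ⟨W, hW⟩ := lift_ex M i _ l hl
  obtain ⟨h1, h2, h3, h4, h5⟩ := hl
  have hn : ((V W).map (pr i)).Nodup := by rw [hW]; exact h1
  have h6 : pr i (E W) = (0, j, true) := by
    have := congrArg List.getLast? hW
    rw [h5, List.getLast?_map, V, vs_getLast?, Option.map_some, Option.some.injEq] at this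
    exact this
  have h7 : ∀ z ∈ V W, 0 ≤ F0 z / 3 ∧ F0 z / 3 < M := by
    intro z hz
    have := h3 (pr i z) (by rw [← hW]; exact List.mem_map_of_mem hz)
    exact this
  simp only [pr, Prod.mk.injEq, decide_eq_true_eq] at h6
  have h8 : F0 (E W) = 0 := by omega
  refine ⟨W, hW, ⟨List.Nodup.of_map _ hn, fun z hz => ?_, h8, ?_⟩, fun z hz => ?_, ?_, hn⟩
  · have := (h7 z hz).1; omega
  · rintro rfl
    have h9 := h6.2.1
    rw [E_nil] at h9
    simp only [F0] at h9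
    norm_num at h9
    rw [md_zero] at h9
    exact h h9
  · have h9 := h7 z hz
    have h10 := res_std hz
    have h11 : ((M - 1 : ℕ) : ℤ) = (M : ℤ) - 1 := by
      have : 1 ≤ M := by omega
      omega
    rw [h11]
    omega
  · rw [← h6.2.1, h6.1, zero_sub]

/-- Top - top: `lift_ex`, `disp_lt`. -/
theorem cm_top_le {L : ℕ} (M : ℕ) (i j : Fin L) (h : i ≠ j) :
    cm M (0, i, true) (0, j, true) ≤ ms xE (fun W => SA L W ∧ md i (-(E W).1) = j) := by
  unfold cm ms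
  refine tsum_rel _ _ (fun l W => (V W.1).map (pr i) = l.1) ?_ ?_
  · rintro ⟨l, hl⟩
    obtain ⟨W, h1, h2, -, h3, h4⟩ := lift_top h hl
    refine ⟨⟨W, ⟨h2, disp_lt i W h4 h2.2.1 h2.2.2.1 h2.2.2.2⟩, h3⟩, h1, ?_⟩
    have : l.length = W.length + 1 := by
      rw [← h1, List.length_map, V, vs_length]
    rw [this]
  · rintro ⟨l, hl⟩ ⟨l', hl'⟩ ⟨W, hW⟩ h1 h2
    exact Subtype.ext (h1.symm.trans h2)

/-- The arcs of the cylinder are bounded. -/
theorem cm_top_le_three {L : ℕ} (M : ℕ) (i j : Fin L) (h : i ≠ j) :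
    cm M (0, i, true) (0, j, true) ≤ 3 := by
  refine le_trans ?_ (arcs_strip_le (M - 1))
  unfold cm ms
  refine tsum_rel _ _ (fun l W => (V W.1).map (pr i) = l.1) ?_ ?_
  · rintro ⟨l, hl⟩
    obtain ⟨W, h1, h2, h3, -, -⟩ := lift_top h hl
    refine ⟨⟨W, ⟨h2.1, fun z hz => ⟨h2.2.1 z hz, h3 z hz⟩⟩, h2.2.2⟩, h1, ?_⟩
    have : l.length = W.length + 1 := by
      rw [← h1, List.length_map, V, vs_length]
    rw [this]
  · rintro ⟨l, hl⟩ ⟨l', hl'⟩ ⟨W, hW⟩ h1 h2
    exact Subtype.ext (h1.symm.trans h2)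

lemma E_ne {W : List Bool} (h : (V W).Nodup) (hW : W ≠ []) : E W ≠ (0, 0) := by
  intro hE
  cases W with
  | nil => exact hW rfl
  | cons b W =>
    have h1 : V (b :: W) = (0, 0) :: vs ((0, 0) + tn b (1, 0)) (tn b (1, 0)) W := rfl
    rw [h1, List.nodup_cons] at h
    apply h.1
    have h2 : E (b :: W) = ep ((0, 0) + tn b (1, 0)) (tn b (1, 0)) W := rfl
    rw [h2] at hE
    have h3 := ep_mem ((0, 0) + tn b (1, 0)) (tn b (1, 0)) W
    rw [hE] at h3
    exact h3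

/-- The projection is injective on the triangle. -/
lemma pr_TA {L : ℕ} {m : ℕ} (h : 2 * m + 1 ≤ L) (i : Fin L) {x y : ℤ × ℤ}
    (hx : F0 x % 3 = 0 ∨ F0 x % 3 = 1) (hy : F0 y % 3 = 0 ∨ F0 y % 3 = 1) (hx0 : 0 ≤ F0 x)
    (hx1 : x.1 + 2 * x.2 ≤ 3 * m) (hx2 : x.1 - x.2 ≤ 3 * m)
    (hy1 : y.1 + 2 * y.2 ≤ 3 * m) (hy2 : y.1 - y.2 ≤ 3 * m) (he : pr i x = pr i y) : x = y := by
  obtain ⟨a, b⟩ := x
  obtain ⟨c, d⟩ := y
  simp only [pr, Prod.mk.injEq, md_eq_same, decide_eq_decide] at he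
  obtain ⟨h1, ⟨q, hq⟩, h3⟩ := he
  simp only [F0] at *
  have hL : (2 * (m : ℤ) + 1) ≤ L := by exact_mod_cast h
  have e1 : 2 * a + b = 2 * c + d := by omega
  have e2 : c - a = (L : ℤ) * q := by omega
  have h4 : c - a < L := by omega
  have h5 : -(L : ℤ) < c - a := by omega
  have hL0 : (0 : ℤ) < L := by omega
  have h6 : q = 0 := by
    rw [e2] at h4 h5
    have h7 : q < 1 := by
      by_contra hc
      push Not at hc
      nlinarith
    have h8 : -1 < q := by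
      by_contra hc
      push Not at hc
      nlinarith
    omega
  subst h6
  ext <;> simp <;> omega

/-- Triangle: `2 m + 1 ≤ L`, the projection is injective on the triangle. -/
theorem TA_le {L : ℕ} (hL : 2 ≤ L) (m : ℕ) (h : 2 * m + 1 ≤ L) (i : Fin L) :
    ms xE (TA m) ≤ ∑ j : Fin L, if i ≠ j then cm (2 * m + 1) (0, i, true) (0, j, true) else 0 := by
  have h1 : ms xE (TA m) ≤ ∑ j : Fin L,
      ms xE (fun W => i ≠ j ∧ CP (2 * m + 1) (0, i, true) (0, j, true) ((V W).map (pr i))) := by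
    refine ms_union _ ?_
    rintro W ⟨⟨h1, h2, h3, h4⟩, h5⟩
    have hinj : ∀ x ∈ V W, ∀ y ∈ V W, pr i x = pr i y → x = y := fun x hx y hy he =>
      pr_TA h i (res_std hx) (res_std hy) (h2 x hx) (h5 x hx).1 (h5 x hx).2 (h5 y hy).1 (h5 y hy).2 he
    have hn : ((V W).map (pr i)).Nodup := List.Nodup.map_on hinj h1
    have hC := CP_of (2 * m + 1) i W hn (fun z hz => by
      refine ⟨h2 z hz, ?_⟩
      have g1 := (h5 z hz).1
      have g2 := (h5 z hz).2
      simp only [F0]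
      push_cast
      omega)
    have hE : pr i (E W) = (0, md i (-(E W).1), true) := by
      simp [pr, h3]
    rw [hE] at hC
    refine ⟨md i (-(E W).1), Finset.mem_univ _, ?_, hC⟩
    intro hc
    rw [← hc, ← pr_o i] at hE
    exact E_ne h1 h4 (hinj _ (E_mem W) _ (o_mem W) hE)
  refine h1.trans (Finset.sum_le_sum fun j _ => ?_)
  by_cases hij : i ≠ j
  · rw [if_pos hij]
    unfold ms cm
    refine tsum_rel _ _ (fun W l => l.1 = (V W.1).map (pr i)) ?_ ?_
    · rintro ⟨W, -, hW⟩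
      refine ⟨⟨_, hW⟩, rfl, ?_⟩
      have : ((V W).map (pr i)).length = W.length + 1 := by rw [List.length_map, V, vs_length]
      rw [this]
    · rintro ⟨W, hW⟩ ⟨W', hW'⟩ ⟨l, hl⟩ h1 h2
      exact Subtype.ext (lift_uniq hL i W W' (h1.symm.trans h2))
  · rw [if_neg hij]
    unfold ms
    rw [nonpos_iff_eq_zero, ENNReal.tsum_eq_zero]
    rintro ⟨W, hW, -⟩
    exact absurd hW hij

end Pool.Agent.QL
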