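import Pool.Agent.QL.Pow
import Pool.Agent.QL.Hist
import Pool.Agent.QL.Masses

/-!
# BEX part D: the interface `S_nonneg`, `D1`, `D2`, boundedness of `Rm` for single arcs.
-/

namespace Pool.Agent.QL

open Pool.Agent.Hhelper14.SAW Pool.Agent.HHP Pool.Agent.BEX
open scoped ENNReal

theorem pow_nonneg (L M : ℕ) (σ τ : StL L) : 0 ≤ (K L ^ M) σ τ := by
  induction M generalizing σ τ with
  | zero =>
    rw [pow_zero, Matrix.one_apply]
    split_ifs <;> norm_num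
  | succ M ih =>
    rw [pow_succ, Matrix.mul_apply]
    exact Finset.sum_nonneg fun k _ => mul_nonneg (ih _ _) (K_nonneg L _ _)

theorem Rm_nonneg (L M : ℕ) (σ : StL L) : 0 ≤ Rm L M σ := pow_nonneg L M _ _

theorem Rm_ars (L : ℕ) (hL : 2 ≤ L) (M : ℕ) (i j : Fin L) (h : i ≠ j) :
    ENNReal.ofReal (Rm L M (ars i j h)) = cm M (0, i, true) (0, j, true) := by
  unfold Rm
  rw [K_pow]
  exact le_antisymm (rm_le_cm hL M i j h) (cm_le_rm hL M i j h)

theorem two_le_of_ne {L : ℕ} {i j : Fin L} (h : i ≠ j) : 2 ≤ L := by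
  by_contra hc
  apply h
  apply Fin.ext
  have h1 := i.2
  have h2 := j.2
  omega

theorem Rm_ars_le (L M : ℕ) (i j : Fin L) (h : i ≠ j) : Rm L M (ars i j h) ≤ 3 := by
  have h1 := Rm_ars L (two_le_of_ne h) M i j h
  have h2 := cm_top_le_three M i j h
  rw [← h1] at h2
  have h3 : (3 : ℝ≥0∞) = ENNReal.ofReal 3 := by simp
  rw [h3] at h2
  exact (ENNReal.ofReal_le_ofReal_iff (by norm_num)).1 h2

theorem Rm_bdd (L : ℕ) (i j : Fin L) (h : i ≠ j) : BddAbove (Set.range fun M => Rm L M (ars i j h)) :=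
  ⟨3, by rintro _ ⟨M, rfl⟩; exact Rm_ars_le L M i j h⟩

theorem Rm_le_Ri (L M : ℕ) (i j : Fin L) (h : i ≠ j) : Rm L M (ars i j h) ≤ Ri L (ars i j h) :=
  le_ciSup (Rm_bdd L i j h) M

theorem Ri_nonneg (L : ℕ) (σ : StL L) : 0 ≤ Ri L σ := Real.iSup_nonneg fun M => Rm_nonneg L M σ

theorem Ri_le (L : ℕ) (i j : Fin L) (h : i ≠ j) :
    ENNReal.ofReal (Ri L (ars i j h)) ≤ ms xE (fun W => SA L W ∧ md i (-(E W).1) = j) := by
  have hL := two_le_of_ne h
  set c := ms xE (fun W => SA L W ∧ md i (-(E W).1) = j) with hc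
  by_cases hT : c = ⊤
  · rw [hT]; exact le_top
  · rw [ENNReal.ofReal_le_iff_le_toReal hT]
    unfold Ri
    refine ciSup_le fun M => ?_
    rw [← ENNReal.ofReal_le_iff_le_toReal hT, Rm_ars L hL]
    exact cm_top_le M i j h

theorem S_nonneg (L : ℕ) : 0 ≤ BEX.S L := by
  unfold BEX.S
  refine Finset.sum_nonneg fun k _ => ?_
  split_ifs
  · exact Ri_nonneg L _
  · exact le_rfl

theorem S_eq (L : ℕ) (h0 : 0 < L) : ENNReal.ofReal (BEX.S L) = ∑ k : Fin L,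
    if h : (⟨0, h0⟩ : Fin L) ≠ k then ENNReal.ofReal (Ri L (ars ⟨0, h0⟩ k h)) else 0 := by
  unfold BEX.S
  rw [ENNReal.ofReal_sum_of_nonneg]
  · refine Finset.sum_congr rfl fun k _ => ?_
    split_ifs
    · rfl
    · exact ENNReal.ofReal_zero
  · intro k _
    split_ifs
    · exact Ri_nonneg L _
    · exact le_rfl

theorem TA_zero : ms xE (TA 0) = 0 := by
  unfold ms
  rw [ENNReal.tsum_eq_zero]
  rintro ⟨W, ⟨h1, h2, h3, h4⟩, h5⟩
  exfalso
  have h6 := h5 _ (E_mem W)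
  simp only [F0] at h3
  apply E_ne h1 h4
  ext <;> simp <;> omega

theorem D1 (m L : ℕ) (h : 2 * m + 1 ≤ L) : ms xE (TA m) ≤ ENNReal.ofReal (BEX.S L) := by
  rcases Nat.eq_zero_or_pos m with rfl | hm
  · rw [TA_zero]; exact bot_le
  have hL : 2 ≤ L := by omega
  have h0 : 0 < L := by omega
  refine (TA_le hL m h ⟨0, h0⟩).trans ?_
  rw [S_eq L h0]
  refine Finset.sum_le_sum fun j _ => ?_
  by_cases hj : (⟨0, h0⟩ : Fin L) ≠ j
  · rw [if_pos hj, dif_pos hj, ← Rm_ars L hL _ _ _ hj]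
    exact ENNReal.ofReal_le_ofReal (Rm_le_Ri L _ _ _ hj)
  · rw [if_neg hj]; exact bot_le

theorem D2 (L : ℕ) (h : 1 ≤ L) : ENNReal.ofReal (BEX.S L) ≤ ms xE (SA L) := by
  rw [S_eq L h]
  refine le_trans (Finset.sum_le_sum (g := fun k => ms xE (fun W => SA L W ∧ md (⟨0, h⟩ : Fin L) (-(E W).1) = k))
    fun k _ => ?_) (ms_disj _ (fun k _ W hW => hW.1) (fun k _ k' _ W hW hW' => hW.2.symm.trans hW'.2))
  by_cases hj : (⟨0, h⟩ : Fin L) ≠ k
  · rw [dif_pos hj]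
    exact Ri_le L _ _ hj
  · rw [dif_neg hj]; exact bot_le

end Pool.Agent.QL
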