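import Pool.Agent.BEX.Row

/-!
# BEX part D (paths of the honeycomb cylinder). DEFINITIONS.

The cylinder of circumference `L`: the vertex `(n, j, true)` is `P1` of the line `j` in the row number `n` COUNTED FROM THE
TOP (`n = 0` is the last row of a run), `(n, j, false)` is `P2`. Edges: rung `P1(n,j) - P2(n,j)`, auxiliary line
`P2(n,j) - P1(n,j+1)` (`j + 1` mod `L`; the seam for `j = L - 1`), line `P1(n,j) - P2(n-1,j)`. The top legs hang at
`P1(0,j)`, the bottom legs of the cylinder of `M` rows at `P2(M-1,j)`. For `L ≥ 2` this is a simple graph.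

The honeycomb lattice of HHP (`F0 z ≡ 0` mod 3: `P1`, `F0 z ≡ 1`: `P2`) covers it: `pr i z`, row `n = F0 z / 3`, line
`i + n - z.1` mod `L`. (`P1(n,k) = (n - k, 2 k + n)`, `P2(n,k) = (n - k, 2 k + n + 1)`; the left leg `k` of the half plane
is the top leg `i + k` mod `L`.)
-/

namespace Pool.Agent.QL

open Pool.Agent.Hhelper14.SAW Pool.Agent.HHP Pool.Agent.BEX
open scoped ENNReal

/-- Vertices of the cylinder: row (from the top), line, `P1` (`true`) or `P2` (`false`). -/
abbrev CV (L : ℕ) : Type := ℤ × Fin L × Bool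

/-- The line `j + x` mod `L`. -/
def md {L : ℕ} (j : Fin L) (x : ℤ) : Fin L :=
  ⟨(((j : ℤ) + x) % (L : ℤ)).toNat, by
    have hL : (0 : ℤ) < L := by exact_mod_cast j.pos
    have h1 := Int.emod_nonneg ((j : ℤ) + x) hL.ne'
    have h2 := Int.emod_lt_of_pos ((j : ℤ) + x) hL
    omega⟩

/-- Edges, seen from `P1` (first vertex): rung, auxiliary line, line. -/
def ad1 {L : ℕ} (u v : CV L) : Prop :=
  u.2.2 = true ∧ v.2.2 = false ∧
    ((v.1 = u.1 ∧ v.2.1 = u.2.1) ∨ (v.1 = u.1 ∧ md v.2.1 1 = u.2.1) ∨ (v.1 = u.1 - 1 ∧ v.2.1 = u.2.1))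

/-- Adjacency in the cylinder. -/
def ad {L : ℕ} (u v : CV L) : Prop := ad1 u v ∨ ad1 v u

/-- Self-avoiding paths in the cylinder of `M` rows from `u` to `v`. -/
def CP {L : ℕ} (M : ℕ) (u v : CV L) (l : List (CV L)) : Prop :=
  l.Nodup ∧ l.IsChain ad ∧ (∀ z ∈ l, 0 ≤ z.1 ∧ z.1 < M) ∧ l.head? = some u ∧ l.getLast? = some v

/-- Their mass. -/
noncomputable def cm {L : ℕ} (M : ℕ) (u v : CV L) : ℝ≥0∞ := ∑' l : {l : List (CV L) // CP M u v l}, xE ^ l.1.length

/-- The covering of the cylinder by the honeycomb lattice. -/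
def pr {L : ℕ} (i : Fin L) (z : ℤ × ℤ) : CV L := (F0 z / 3, md i (F0 z / 3 - z.1), decide (F0 z % 3 = 0))

/-! ### the rows on an arbitrary set of labels -/

/-- The choices in a row: seam, rungs. -/
abbrev Ch (L : ℕ) : Type := Bool × (Fin L → Bool)

/-- One row on a label set `Λ`, the lines have the labels `ln j`; the other labels are not touched. -/
def rowG {Λ : Type} [DecidableEq Λ] {L : ℕ} (ln : Fin L → Λ) (c : Ch L) (f : Λ → Λ) : Option ((Λ → Λ) × ℕ) :=
  let f0 : Λ ⊕ Bool → Λ ⊕ Bool := Sum.map f id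
  let f1 := if c.1 then ar (Sum.inr false) (Sum.inr true) f0 else f0
  (hops (Sum.inr true) ((List.finRange L).map (fun j => (c.2 j, Sum.inl (ln j)))) f1).bind fun g =>
    (cap (Sum.inr false) (Sum.inr true) g.1).map fun h =>
      ((fun a => match h (Sum.inl a) with
        | Sum.inl b => b
        | Sum.inr _ => a), g.2)

/-- A run: list of rows, the first row first (so the row at the head of the list has the number `n` = length of the tail). -/
def run {Λ : Type} [DecidableEq Λ] {L : ℕ} (ln : Fin L → Λ) : List (Ch L) → (Λ → Λ) → Option ((Λ → Λ) × ℕ)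
  | [], f => some (f, 0)
  | c :: cs, f => (rowG ln c f).bind fun g => (run ln cs g.1).map fun h => (h.1, g.2 + h.2)

/-- Weight of a run which ends in `t`. -/
noncomputable def wr {Λ : Type} [DecidableEq Λ] (t : Λ → Λ) : Option ((Λ → Λ) × ℕ) → ℝ≥0∞
  | none => 0
  | some g => open Classical in if g.1 = t then xE ^ g.2 else 0

/-- Mass of the runs of `M` rows from `f` to `t`. -/
noncomputable def rm {Λ : Type} [DecidableEq Λ] {L : ℕ} (ln : Fin L → Λ) (M : ℕ) (f t : Λ → Λ) : ℝ≥0∞ :=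
  ∑' cs : {cs : List (Ch L) // cs.length = M}, wr t (run ln cs.1 f)

/-- Start with strands `i - i'`, `i ∈ A`, (identity; `i' = Sum.inr i` is the bottom end). -/
def stA {L : ℕ} (A : Finset (Fin L)) : Fin L ⊕ Fin L → Fin L ⊕ Fin L
  | Sum.inl i => if i ∈ A then Sum.inr i else Sum.inl i
  | Sum.inr i => if i ∈ A then Sum.inl i else Sum.inr i

/-- The vertex at the leg `x` (top leg `Sum.inl i`, bottom leg `Sum.inr i`). -/
def lg {L : ℕ} (M : ℕ) : Fin L ⊕ Fin L → CV L
  | Sum.inl i => (0, i, true)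
  | Sum.inr i => ((M : ℤ) - 1, i, false)

end Pool.Agent.QL
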