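import Pool.Agent.QL.Defs
import Pool.Agent.HHP.Geo

/-!
# BEX part D: lifting of paths of the cylinder to words of the half plane.

`pr i (0,0) = (0, i, true)`, `pr i (-1,0) = (-1, i, false)`. If `pr i z = v` and `z - d` projects to the predecessor of `v`,
then the two other neighbours of `v` are the projections of `z + L d`, `z + R d` (for `L ≥ 2` the three neighbours of a vertex
are different), so a nodup chain lifts step by step to a unique word.
-/

namespace Pool.Agent.QL

open Pool.Agent.Hhelper14.SAW Pool.Agent.HHP Pool.Agent.BEX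
open scoped ENNReal

section md

variable {N : ℕ}

lemma md_val (j : Fin N) (x : ℤ) : ((md j x : ℕ) : ℤ) = ((j : ℤ) + x) % N := by
  unfold md
  have hL : (0 : ℤ) < N := by exact_mod_cast j.pos
  exact Int.toNat_of_nonneg (Int.emod_nonneg _ hL.ne')

lemma md_ext {j k : Fin N} (h : ((j : ℕ) : ℤ) = ((k : ℕ) : ℤ)) : j = k := Fin.ext (by exact_mod_cast h)

lemma md_eq {j k : Fin N} {x y : ℤ} : md j x = md k y ↔ ((j : ℤ) + x) % N = ((k : ℤ) + y) % N := by
  constructor
  · intro h
    have := congrArg (fun z : Fin N => ((z : ℕ) : ℤ)) h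
    simpa only [md_val] using this
  · intro h
    apply md_ext
    rw [md_val, md_val, h]

lemma md_eq_same {j : Fin N} {x y : ℤ} : md j x = md j y ↔ (N : ℤ) ∣ x - y := by
  rw [md_eq, Int.emod_eq_emod_iff_emod_sub_eq_zero, ← Int.dvd_iff_emod_eq_zero]
  have : (j : ℤ) + x - (j + y) = x - y := by ring
  rw [this]

lemma md_md (j : Fin N) (x y : ℤ) : md (md j x) y = md j (x + y) := by
  apply md_ext
  rw [md_val, md_val, md_val, Int.emod_add_emod, add_assoc]

lemma md_zero (j : Fin N) : md j 0 = j := by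
  apply md_ext
  rw [md_val, add_zero]
  exact Int.emod_eq_of_lt (by positivity) (by exact_mod_cast j.2)

lemma md_cancel {j k : Fin N} {x y : ℤ} (h : md k y = md j x) : k = md j (x - y) := by
  have h1 := congrArg (fun z => md z (-y)) h
  simp only [md_md] at h1
  rw [add_neg_cancel, md_zero] at h1
  rw [h1, sub_eq_add_neg]

end md

/-- The three neighbours in the cylinder. -/
lemma ad_ex {N : ℕ} (i : Fin N) {z d : ℤ × ℤ} (h : Gd z d) {w : CV N} (hw : ad (pr i z) w) :
    w = pr i (z - d) ∨ ∃ b, w = pr i (z + tn b d) := by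
  obtain ⟨x, y⟩ := z
  obtain ⟨n, k, t⟩ := w
  have key : ∀ e : ℤ × ℤ, (n, k, t) = pr i ((x, y) + e) → (e = -d ∨ ∃ b, e = tn b d) →
      ((n, k, t) = pr i ((x, y) - d) ∨ ∃ b, ((n, k, t) : CV N) = pr i ((x, y) + tn b d)) := by
    rintro e he (rfl | ⟨b, rfl⟩)
    · left; rw [he, sub_eq_add_neg]
    · right; exact ⟨b, he⟩
  have hall : F0 (x, y) % 3 = 0 → ∀ e : ℤ × ℤ, (e = (-1, 0) ∨ e = (0, 1) ∨ e = (1, -1)) → (e = -d ∨ ∃ b, e = tn b d) := by
    intro h0 e he
    rcases h with ⟨h, hd⟩ | ⟨h, hd⟩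
    · rcases he with rfl | rfl | rfl <;> rcases hd with rfl | rfl | rfl <;> simp [tn, L, R]
    · omega
  have hall' : F0 (x, y) % 3 = 1 → ∀ e : ℤ × ℤ, (e = (1, 0) ∨ e = (0, -1) ∨ e = (-1, 1)) → (e = -d ∨ ∃ b, e = tn b d) := by
    intro h0 e he
    rcases h with ⟨h, hd⟩ | ⟨h, hd⟩
    · omega
    · rcases he with rfl | rfl | rfl <;> rcases hd with rfl | rfl | rfl <;> simp [tn, L, R]
  rcases h.res with h0 | h0
  · have hF : (F0 (x, y)) % 3 = 0 := h0
    have hg := hall h0
    simp only [ad, ad1, pr, h0, decide_true, true_and, Bool.true_eq_false, false_and, and_false, or_false] at hw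
    obtain ⟨ht, ⟨h1, h2⟩ | ⟨h1, h2⟩ | ⟨h1, h2⟩⟩ := hw
    · apply key (0, 1) _ (hg _ (by simp))
      subst ht h1 h2
      simp only [pr, F0, Prod.mk_add_mk, Prod.mk.injEq] at hF ⊢
      refine ⟨by omega, ?_, by simp; omega⟩
      rw [md_eq_same]
      have : (2 * x + y) / 3 - x - ((2 * (x + 0) + (y + 1)) / 3 - (x + 0)) = 0 := by omega
      rw [this]; exact dvd_zero _
    · apply key (1, -1) _ (hg _ (by simp))
      rw [md_cancel h2]
      subst ht h1
      simp only [pr, F0, Prod.mk_add_mk, Prod.mk.injEq] at hF ⊢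
      refine ⟨by omega, ?_, by simp; omega⟩
      rw [md_eq_same]
      have : (2 * x + y) / 3 - x - 1 - ((2 * (x + 1) + (y + -1)) / 3 - (x + 1)) = 0 := by omega
      rw [this]; exact dvd_zero _
    · apply key (-1, 0) _ (hg _ (by simp))
      subst ht h1 h2
      simp only [pr, F0, Prod.mk_add_mk, Prod.mk.injEq] at hF ⊢
      refine ⟨by omega, ?_, by simp; omega⟩
      rw [md_eq_same]
      have : (2 * x + y) / 3 - x - ((2 * (x + -1) + (y + 0)) / 3 - (x + -1)) = 0 := by omega
      rw [this]; exact dvd_zero _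
  · have hF : (F0 (x, y)) % 3 = 1 := h0
    have hg := hall' h0
    have h0' : decide (F0 (x, y) % 3 = 0) = false := by simp; omega
    simp only [ad, ad1, pr, h0', true_and, Bool.false_eq_true, false_and, false_or] at hw
    obtain ⟨ht, ⟨h1, h2⟩ | ⟨h1, h2⟩ | ⟨h1, h2⟩⟩ := hw
    · apply key (0, -1) _ (hg _ (by simp))
      subst ht h1 h2
      simp only [pr, F0, Prod.mk_add_mk, Prod.mk.injEq] at hF ⊢
      refine ⟨by omega, ?_, by simp; omega⟩
      rw [md_eq_same]
      have : (2 * x + y) / 3 - x - ((2 * (x + 0) + (y + -1)) / 3 - (x + 0)) = 0 := by omega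
      rw [this]; exact dvd_zero _
    · apply key (-1, 1) _ (hg _ (by simp))
      rw [← h2, md_md]
      subst ht
      simp only [pr, F0, Prod.mk_add_mk, Prod.mk.injEq] at h1 hF ⊢
      refine ⟨by omega, ?_, by simp; omega⟩
      rw [md_eq_same]
      have : (2 * x + y) / 3 - x + 1 - ((2 * (x + -1) + (y + 1)) / 3 - (x + -1)) = 0 := by omega
      rw [this]; exact dvd_zero _
    · apply key (1, 0) _ (hg _ (by simp))
      subst ht h2
      simp only [pr, F0, Prod.mk_add_mk, Prod.mk.injEq] at h1 hF ⊢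
      refine ⟨by omega, ?_, by simp; omega⟩
      rw [md_eq_same]
      have : (2 * x + y) / 3 - x - ((2 * (x + 1) + (y + 0)) / 3 - (x + 1)) = 0 := by omega
      rw [this]; exact dvd_zero _

lemma ad1_pr {N : ℕ} (i : Fin N) {x y : ℤ} (h : F0 (x, y) % 3 = 0) {e : ℤ × ℤ}
    (he : e = (-1, 0) ∨ e = (0, 1) ∨ e = (1, -1)) : ad1 (pr i (x, y)) (pr i ((x, y) + e)) := by
  simp only [F0] at h
  rcases he with rfl | rfl | rfl
  · refine ⟨by simp [pr, F0]; omega, by simp [pr, F0]; omega, Or.inr (Or.inr ⟨?_, ?_⟩)⟩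
    · simp only [pr, F0, Prod.mk_add_mk]; omega
    · simp only [pr, F0, Prod.mk_add_mk]
      rw [md_eq_same]
      have : (2 * (x + -1) + (y + 0)) / 3 - (x + -1) - ((2 * x + y) / 3 - x) = 0 := by omega
      rw [this]; exact dvd_zero _
  · refine ⟨by simp [pr, F0]; omega, by simp [pr, F0]; omega, Or.inl ⟨?_, ?_⟩⟩
    · simp only [pr, F0, Prod.mk_add_mk]; omega
    · simp only [pr, F0, Prod.mk_add_mk]
      rw [md_eq_same]
      have : (2 * (x + 0) + (y + 1)) / 3 - (x + 0) - ((2 * x + y) / 3 - x) = 0 := by omega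
      rw [this]; exact dvd_zero _
  · refine ⟨by simp [pr, F0]; omega, by simp [pr, F0]; omega, Or.inr (Or.inl ⟨?_, ?_⟩)⟩
    · simp only [pr, F0, Prod.mk_add_mk]; omega
    · simp only [pr, F0, Prod.mk_add_mk]
      rw [md_md, md_eq_same]
      have : (2 * (x + 1) + (y + -1)) / 3 - (x + 1) + 1 - ((2 * x + y) / 3 - x) = 0 := by omega
      rw [this]; exact dvd_zero _

/-- Neighbours project to neighbours. -/
lemma ad_pr {N : ℕ} (i : Fin N) {z d : ℤ × ℤ} (h : Gd z d) (b : Bool) : ad (pr i z) (pr i (z + tn b d)) := by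
  obtain ⟨x, y⟩ := z
  rcases h with ⟨h, hd⟩ | ⟨h, hd⟩
  · left
    apply ad1_pr i h
    rcases hd with rfl | rfl | rfl <;> cases b <;> simp [tn, L, R]
  · right
    have h2 := (Gd.step (Or.inr ⟨h, hd⟩ : Gd (x, y) d) b)
    have he : tn b d = (1, 0) ∨ tn b d = (0, -1) ∨ tn b d = (-1, 1) := by
      rcases hd with rfl | rfl | rfl <;> cases b <;> simp [tn, L, R]
    have h3 : F0 ((x, y) + tn b d) % 3 = 0 := by
      rcases he with he | he | he <;> rw [he] <;> simp only [F0, Prod.mk_add_mk] at h ⊢ <;> omega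
    have h4 := ad1_pr i (x := ((x, y) + tn b d).1) (y := ((x, y) + tn b d).2) h3 (e := -tn b d)
      (by rcases he with he | he | he <;> rw [he] <;> simp)
    rw [Prod.mk.eta, add_neg_cancel_right] at h4
    exact h4

/-- The projections of the two forward neighbours are different. -/
lemma pr_fwd_inj {N : ℕ} (hN : 2 ≤ N) (i : Fin N) {z d : ℤ × ℤ} (h : Gd z d) {b b' : Bool}
    (hb : pr i (z + tn b d) = pr i (z + tn b' d)) : b = b' := by
  have key : pr i (z + L d) ≠ pr i (z + R d) := by
    obtain ⟨x, y⟩ := z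
    intro hc
    have h1 := congrArg (fun w => w.1) hc
    have h2 := congrArg (fun w => w.2.1) hc
    simp only [pr, md_eq_same] at h1 h2
    have h3 : (2 : ℤ) ≤ N := by exact_mod_cast hN
    obtain ⟨q, hq⟩ := h2
    rcases h with ⟨h, rfl | rfl | rfl⟩ | ⟨h, rfl | rfl | rfl⟩ <;>
      simp only [L, R, F0, Prod.mk_add_mk] at h h1 hq <;> first | omega | skip
    all_goals
      have h4 : (N : ℤ) * q = 1 ∨ (N : ℤ) * q = -1 := by omega
      rcases h4 with h4 | h4
      · have := Int.eq_one_or_neg_one_of_mul_eq_one h4; omega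
      · have := Int.eq_one_or_neg_one_of_mul_eq_neg_one h4; omega
  cases b <;> cases b' <;> simp only [tn, if_true, if_false, Bool.false_eq_true, reduceCtorEq] at hb ⊢
  · exact key hb.symm
  · exact key hb

lemma pr_o {N : ℕ} (i : Fin N) : pr i (0, 0) = (0, i, true) := by
  simp [pr, F0, md_zero]

lemma pr_o' {N : ℕ} (i : Fin N) : pr i (-1, 0) = (-1, i, false) := by
  have h1 : F0 (-1, 0) / 3 = -1 := by simp [F0]
  have h2 : F0 (-1, 0) % 3 = 1 := by simp [F0]
  simp only [pr, h1, h2]
  simp [md_zero]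

/-- Step by step lifting. -/
lemma lift_gen {N : ℕ} (i : Fin N) (l : List (CV N)) : ∀ z d : ℤ × ℤ, Gd z d →
    (pr i (z - d) :: pr i z :: l).Nodup → (pr i z :: l).IsChain ad → ∃ W : List Bool, (vs z d W).map (pr i) = pr i z :: l := by
  induction l with
  | nil => intro z d _ _ _; exact ⟨[], rfl⟩
  | cons w l ih =>
    intro z d hg hn hc
    rw [List.isChain_cons_cons] at hc
    rcases ad_ex i hg hc.1 with h1 | ⟨b, h1⟩
    · exfalso
      rw [List.nodup_cons] at hn
      exact hn.1 (by rw [← h1]; simp)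
    · subst h1
      obtain ⟨W, hW⟩ := ih (z + tn b d) (tn b d) (hg.step b) (by
        rw [add_sub_cancel_right]
        exact (List.nodup_cons.1 hn).2) hc.2
      exact ⟨b :: W, by rw [vs, List.map_cons, hW]⟩

/-- A nodup path from the top leg `i` lifts. -/
theorem lift_ex {L : ℕ} (M : ℕ) (i : Fin L) (v : CV L) (l : List (CV L)) (h : CP M (0, i, true) v l) :
    ∃ W : List Bool, (V W).map (pr i) = l := by
  obtain ⟨h1, h2, h3, h4, -⟩ := h
  cases l with
  | nil => simp at h4
  | cons w l =>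
    simp only [List.head?_cons, Option.some.injEq] at h4
    subst h4
    have := lift_gen i l (0, 0) (1, 0) gd_o (by
      rw [pr_o, List.nodup_cons]
      have e : ((0, 0) : ℤ × ℤ) - (1, 0) = (-1, 0) := by simp
      rw [e, pr_o']
      refine ⟨fun hm => ?_, h1⟩
      have := (h3 _ hm).1
      simp at this) (by rw [pr_o]; exact h2)
    rw [pr_o] at this
    exact this

lemma chain_gen {N : ℕ} (i : Fin N) (W : List Bool) : ∀ z d : ℤ × ℤ, Gd z d → ((vs z d W).map (pr i)).IsChain ad := by
  induction W with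
  | nil => intro z d _; simp [vs]
  | cons b W ih =>
    intro z d h
    have h1 := ih _ _ (h.step b)
    rw [vs, List.map_cons]
    have h2 : ∃ r, vs (z + tn b d) (tn b d) W = (z + tn b d) :: r := by cases W <;> exact ⟨_, rfl⟩
    obtain ⟨r, hr⟩ := h2
    rw [hr] at h1 ⊢
    rw [List.map_cons] at h1 ⊢
    rw [List.isChain_cons_cons]
    exact ⟨ad_pr i h b, h1⟩

/-- Words project to paths. -/
theorem CP_of {L : ℕ} (M : ℕ) (i : Fin L) (W : List Bool) (h1 : ((V W).map (pr i)).Nodup)
    (h2 : ∀ z ∈ V W, 0 ≤ F0 z ∧ F0 z < 3 * M) : CP M (0, i, true) (pr i (E W)) ((V W).map (pr i)) := by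
  refine ⟨h1, chain_gen i W _ _ gd_o, ?_, ?_, ?_⟩
  · intro z hz
    rw [List.mem_map] at hz
    obtain ⟨w, hw, rfl⟩ := hz
    have := h2 w hw
    simp only [pr]
    constructor <;> omega
  · rw [List.head?_map, V, vs_head?, Option.map_some, pr_o]
  · rw [List.getLast?_map, V, vs_getLast?, Option.map_some]; rfl

/-- The word is determined by the projected path. -/
theorem lift_uniq {L : ℕ} (hL : 2 ≤ L) (i : Fin L) (W W' : List Bool) (h : (V W).map (pr i) = (V W').map (pr i)) :
    W = W' := by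
  have key : ∀ W W' : List Bool, ∀ z d : ℤ × ℤ, Gd z d → (vs z d W).map (pr i) = (vs z d W').map (pr i) → W = W' := by
    intro W
    induction W with
    | nil =>
      intro W' z d _ h
      cases W' with
      | nil => rfl
      | cons b W' =>
        have := congrArg List.length h
        simp [vs_length] at this
    | cons b W ih =>
      intro W' z d hg h
      cases W' with
      | nil =>
        have := congrArg List.length h
        simp [vs_length] at this
      | cons b' W' =>
        simp only [vs, List.map_cons, List.cons.injEq, true_and] at h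
        have h2 : ∀ c : Bool, ∀ X : List Bool, ((vs (z + tn c d) (tn c d) X).map (pr i)).head? = some (pr i (z + tn c d)) := by
          intro c X
          rw [List.head?_map, vs_head?]; rfl
        have h3 := h2 b W
        rw [h, h2 b' W', Option.some.injEq] at h3
        have h4 := pr_fwd_inj hL i hg h3.symm
        subst h4
        rw [ih W' _ _ (hg.step b) h]
  exact key W W' _ _ gd_o h

end Pool.Agent.QL
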