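import Pool.Agent.QL.HLPath

/-!
# BEX part D: at every vertex of the cylinder none or two of the three edges (legs) are used
-/

namespace Pool.Agent.QL.HL

open Pool.Agent.BEX

theorem two_of_three {α : Type*} {x1 x2 A B C : α} (h : x1 ≠ x2) (hAB : A ≠ B) (hAC : A ≠ C) (hBC : B ≠ C)
    (h1 : x1 = A ∨ x1 = B ∨ x1 = C) (h2 : x2 = A ∨ x2 = B ∨ x2 = C) {a b c : Prop}
    (ha : a ↔ (A = x2 ∨ A = x1)) (hb : b ↔ (B = x2 ∨ B = x1)) (hc : c ↔ (C = x2 ∨ C = x1)) :
    (c → (a ↔ ¬ b)) ∧ (¬ c → (a ↔ b)) := by
  grind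

theorem one_of_two {α : Type*} {x1 A C : α} (hAC : A ≠ C) (h1 : x1 = A ∨ x1 = C) {a b c : Prop}
    (ha : a ↔ A = x1) (hb : b) (hc : c ↔ C = x1) :
    (c → (a ↔ ¬ b)) ∧ (¬ c → (a ↔ b)) := by
  grind

variable {L M : ℕ} {i0 j0 : Fin L} {l : List (CV L)}

theorem lp_ne (hL : 2 ≤ L) (k : ℕ) : lp hL k ≠ ln hL k := by
  intro h
  have h1 : (k + (L - 1)) % L = k % L := congrArg Fin.val h
  have hk := Nat.mod_lt k (show 0 < L by omega)
  have h2 : (k + (L - 1)) % L = (k % L + (L - 1)) % L := by rw [Nat.mod_add_mod]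
  rw [h2] at h1
  rcases Nat.eq_zero_or_pos (k % L) with h0 | h0
  · rw [h0, Nat.zero_add, Nat.mod_eq_of_lt (by omega)] at h1; omega
  · rw [show k % L + (L - 1) = (k % L - 1) + L by omega, Nat.add_mod_right, Nat.mod_eq_of_lt (by omega)] at h1
    omega

theorem deg1 (hL : 2 ≤ L) (hij : i0 ≠ j0) (hl : CP M ((0 : ℤ), i0, true) ((0 : ℤ), j0, true) l) {n : ℤ}
    (hn : 0 ≤ n) (k : ℕ) :
    (ruU l n (ln hL k) → (auU hL l n k ↔ ¬ upU l i0 j0 n (ln hL k))) ∧
      (¬ ruU l n (ln hL k) → (auU hL l n k ↔ upU l i0 j0 n (ln hL k))) := by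
  obtain ⟨hnd, hch, hrow, hhd, hlt⟩ := id hl
  have hpos : 0 < l.length := by
    rcases l with _ | ⟨a, t⟩
    · simp at hhd
    · simp
  have e0 : l[0] = ((0 : ℤ), i0, true) := by
    rw [List.head?_eq_getElem?, List.getElem?_eq_getElem hpos] at hhd
    exact Option.some.inj hhd
  have e1 : l[l.length - 1]'(by omega) = ((0 : ℤ), j0, true) := by
    rw [List.getLast?_eq_getElem?, List.getElem?_eq_getElem (by omega)] at hlt
    exact Option.some.inj hlt
  have hlen : 2 ≤ l.length := by
    by_contra hc
    have h1 : l.length - 1 = 0 := by omega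
    have h2 : l[l.length - 1]'(by omega) = l[0] := by congr 1
    rw [e1, e0] at h2
    exact hij (by simpa using h2.symm)
  have hAC : ((n, lp hL k, false) : CV L) ≠ (n, ln hL k, false) := fun e => lp_ne hL k (by simpa using e)
  have hAB : ((n, lp hL k, false) : CV L) ≠ (n - 1, ln hL k, false) := fun e => by
    have := congrArg Prod.fst e
    simp only at this
    omega
  have hBC : ((n - 1, ln hL k, false) : CV L) ≠ (n, ln hL k, false) := fun e => by
    have := congrArg Prod.fst e
    simp at this
  by_cases hv : ((n, ln hL k, true) : CV L) ∈ l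
  · obtain ⟨t, ht, hvt⟩ := List.getElem_of_mem hv
    have hnb : ∀ x, Nb l (n, ln hL k, true) x ↔ (∃ h : t + 1 < l.length, x = l[t + 1]) ∨
        (∃ h : 1 ≤ t, x = l[t - 1]) := by
      intro x
      rw [← hvt]
      exact nb_iff hnd ht x
    have hau : auU hL l n k ↔ Nb l (n, ln hL k, true) (n, lp hL k, false) := ⟨Nb.symm, Nb.symm⟩
    by_cases t0 : t = 0
    · -- first vertex
      subst t0
      have hv0 : ((n, ln hL k, true) : CV L) = ((0 : ℤ), i0, true) := hvt.symm.trans e0
      have hn0 : n = 0 := by simpa using congrArg Prod.fst hv0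
      have hi : ln hL k = i0 := by simpa using congrArg (fun z : CV L => z.2.1) hv0
      have h1 := nb_P1 hL hl ((hnb (l[1]'(by omega))).2 (Or.inl ⟨by omega, rfl⟩))
      have hmem := hrow (l[1]'(by omega)) (List.getElem_mem _)
      have h2 : l[1]'(by omega) = (n, lp hL k, false) ∨ l[1]'(by omega) = (n, ln hL k, false) := by
        rcases h1 with h | h | h
        · exact Or.inl h
        · rw [h] at hmem; simp only at hmem; omega
        · exact Or.inr h
      refine one_of_two hAC h2 ?_ ?_ ?_
      · rw [hau, hnb]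
        simp only [Nat.zero_add]
        constructor
        · rintro (⟨_, h⟩ | ⟨h, -⟩)
          · exact h
          · omega
        · intro h; exact Or.inl ⟨by omega, h⟩
      · unfold upU; rw [if_pos hn0]; exact Or.inl hi
      · unfold ruU
        rw [hnb]
        simp only [Nat.zero_add]
        constructor
        · rintro (⟨_, h⟩ | ⟨h, -⟩)
          · exact h
          · omega
        · intro h; exact Or.inl ⟨by omega, h⟩
    by_cases t1 : t + 1 = l.length
    · -- last vertex
      have hv0 : ((n, ln hL k, true) : CV L) = ((0 : ℤ), j0, true) := by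
        rw [← hvt, ← e1]
        congr 1
        omega
      have hn0 : n = 0 := by simpa using congrArg Prod.fst hv0
      have hi : ln hL k = j0 := by simpa using congrArg (fun z : CV L => z.2.1) hv0
      have h1 := nb_P1 hL hl ((hnb (l[t - 1]'(by omega))).2 (Or.inr ⟨by omega, rfl⟩))
      have hmem := hrow (l[t - 1]'(by omega)) (List.getElem_mem _)
      have h2 : l[t - 1]'(by omega) = (n, lp hL k, false) ∨ l[t - 1]'(by omega) = (n, ln hL k, false) := by
        rcases h1 with h | h | h
        · exact Or.inl h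
        · rw [h] at hmem; simp only at hmem; omega
        · exact Or.inr h
      refine one_of_two hAC h2 ?_ ?_ ?_
      · rw [hau, hnb]
        constructor
        · rintro (⟨h, -⟩ | ⟨_, h⟩)
          · omega
          · exact h
        · intro h; exact Or.inr ⟨by omega, h⟩
      · unfold upU; rw [if_pos hn0]; exact Or.inr hi
      · unfold ruU
        rw [hnb]
        constructor
        · rintro (⟨h, -⟩ | ⟨_, h⟩)
          · omega
          · exact h
        · intro h; exact Or.inr ⟨by omega, h⟩
    -- interior vertex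
    have hx : l[t - 1]'(by omega) ≠ l[t + 1]'(by omega) := fun e => by
      have := (hnd.getElem_inj_iff).1 e
      omega
    have hnb' : ∀ x, Nb l (n, ln hL k, true) x ↔ (x = l[t + 1]'(by omega) ∨ x = l[t - 1]'(by omega)) := by
      intro x
      rw [hnb]
      constructor
      · rintro (⟨_, h⟩ | ⟨_, h⟩)
        · exact Or.inl h
        · exact Or.inr h
      · rintro (h | h)
        · exact Or.inl ⟨by omega, h⟩
        · exact Or.inr ⟨by omega, h⟩
    refine two_of_three hx hAB hAC hBC (nb_P1 hL hl ((hnb' _).2 (Or.inr rfl)))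
      (nb_P1 hL hl ((hnb' _).2 (Or.inl rfl))) (hau.trans (hnb' _)) ?_ (hnb' _)
    rw [← hnb']
    unfold upU
    split_ifs with hn0
    · constructor
      · rintro (h | h)
        · exfalso
          have : l[t]'ht = l[0] := by rw [hvt, e0, hn0, h]
          exact t0 ((hnd.getElem_inj_iff).1 this)
        · exfalso
          have : l[t]'ht = l[l.length - 1]'(by omega) := by rw [hvt, e1, hn0, h]
          have := (hnd.getElem_inj_iff).1 this
          omega
      · intro h
        exfalso
        have := (hrow _ h.mem.2).1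
        simp only at this
        omega
    · rfl
  · -- not on the path
    have f1 : ¬ ruU l n (ln hL k) := fun h => hv h.mem.1
    have f2 : ¬ auU hL l n k := fun h => hv h.mem.2
    have f3 : ¬ upU l i0 j0 n (ln hL k) := by
      unfold upU
      split_ifs with hn0
      · rintro (h | h)
        · apply hv
          rw [hn0, h, ← e0]
          exact List.getElem_mem _
        · apply hv
          rw [hn0, h, ← e1]
          exact List.getElem_mem _
      · exact fun h => hv h.mem.1
    tauto

theorem deg2 (hL : 2 ≤ L) (hl : CP M ((0 : ℤ), i0, true) ((0 : ℤ), j0, true) l) {n : ℤ}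
    (hn : 0 ≤ n) (k : ℕ) :
    (ruU l n (ln hL k) → (auU hL l n (k + 1) ↔ ¬ upU l i0 j0 (n + 1) (ln hL k))) ∧
      (¬ ruU l n (ln hL k) → (auU hL l n (k + 1) ↔ upU l i0 j0 (n + 1) (ln hL k))) := by
  obtain ⟨hnd, hch, hrow, hhd, hlt⟩ := id hl
  have hpos : 0 < l.length := by
    rcases l with _ | ⟨a, t⟩
    · simp at hhd
    · simp
  have e0 : l[0] = ((0 : ℤ), i0, true) := by
    rw [List.head?_eq_getElem?, List.getElem?_eq_getElem hpos] at hhd
    exact Option.some.inj hhd
  have e1 : l[l.length - 1]'(by omega) = ((0 : ℤ), j0, true) := by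
    rw [List.getLast?_eq_getElem?, List.getElem?_eq_getElem (by omega)] at hlt
    exact Option.some.inj hlt
  have hlp : lp hL (k + 1) = ln hL k := by rw [lp_pos hL (by omega)]; rfl
  have hau : auU hL l n (k + 1) ↔ Nb l (n, ln hL k, false) (n, ln hL (k + 1), true) := by
    unfold auU; rw [hlp]
  have hup : upU l i0 j0 (n + 1) (ln hL k) ↔ Nb l (n, ln hL k, false) (n + 1, ln hL k, true) := by
    unfold upU
    rw [if_neg (by omega), show n + 1 - 1 = n by ring]
    exact ⟨Nb.symm, Nb.symm⟩
  have hru : ruU l n (ln hL k) ↔ Nb l (n, ln hL k, false) (n, ln hL k, true) := ⟨Nb.symm, Nb.symm⟩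
  have hAC : ((n, ln hL (k + 1), true) : CV L) ≠ (n, ln hL k, true) := fun e => by
    have h1 := lp_ne hL (k + 1)
    rw [hlp] at h1
    exact h1 (by simpa using e.symm)
  have hAB : ((n, ln hL (k + 1), true) : CV L) ≠ (n + 1, ln hL k, true) := fun e => by
    have := congrArg Prod.fst e
    simp at this
  have hBC : ((n + 1, ln hL k, true) : CV L) ≠ (n, ln hL k, true) := fun e => by
    have := congrArg Prod.fst e
    simp at this
  by_cases hv : ((n, ln hL k, false) : CV L) ∈ l
  · obtain ⟨t, ht, hvt⟩ := List.getElem_of_mem hv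
    have t0 : t ≠ 0 := by
      intro h
      subst h
      rw [e0] at hvt
      simpa using congrArg (fun z : CV L => z.2.2) hvt
    have t1 : t + 1 ≠ l.length := by
      intro h
      have : l[t]'ht = l[l.length - 1]'(by omega) := by congr 1; omega
      rw [hvt, e1] at this
      simpa using congrArg (fun z : CV L => z.2.2) this
    have hx : l[t - 1]'(by omega) ≠ l[t + 1]'(by omega) := fun e => by
      have := (hnd.getElem_inj_iff).1 e
      omega
    have hnb' : ∀ x, Nb l (n, ln hL k, false) x ↔ (x = l[t + 1]'(by omega) ∨ x = l[t - 1]'(by omega)) := by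
      intro x
      rw [← hvt, nb_iff hnd ht]
      constructor
      · rintro (⟨_, h⟩ | ⟨_, h⟩)
        · exact Or.inl h
        · exact Or.inr h
      · rintro (h | h)
        · exact Or.inl ⟨by omega, h⟩
        · exact Or.inr ⟨by omega, h⟩
    exact two_of_three hx hAB hAC hBC (nb_P2 hL hl ((hnb' _).2 (Or.inr rfl)))
      (nb_P2 hL hl ((hnb' _).2 (Or.inl rfl))) (hau.trans (hnb' _)) (hup.trans (hnb' _)) (hru.trans (hnb' _))
  · have f1 : ¬ ruU l n (ln hL k) := fun h => hv h.mem.2
    have f2 : ¬ auU hL l n (k + 1) := fun h => hv (hau.1 h).mem.1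
    have f3 : ¬ upU l i0 j0 (n + 1) (ln hL k) := fun h => hv (hup.1 h).mem.1
    tauto

end Pool.Agent.QL.HL
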