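import Pool.Agent.QL.HLHop

/-!
# BEX part D: the seam is closed; restriction to the lines
-/

namespace Pool.Agent.QL.HL

open Pool.Agent.BEX

set_option linter.unusedSectionVars false

theorem cap_ok {Λ V : Type*} [DecidableEq Λ] [Fintype Λ] {R : V → V → Prop} (hs : ∀ u v, R u v → R v u)
    {g : Λ → Λ} {D : Λ → List V} (h : Deco R g D)
    {a b : Λ} (hab : a ≠ b) (hocc : g a ≠ a ↔ g b ≠ b) (hne : g a ≠ a → g a ≠ b)
    (hr : g a ≠ a → ∀ u v, (D a).head? = some u → (D b).head? = some v → R u v) :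
    ∃ g' D', cap a b g = some g' ∧ Deco R g' D' ∧ tot D' = tot D ∧ g' a = a ∧ g' b = b ∧
      (∀ x, x ≠ a → x ≠ b → (g' x ≠ x ↔ g x ≠ x)) ∧
      (∀ x, x ≠ a → x ≠ b → D x ≠ [] → (D' x).head? = (D x).head?) ∧
      (∀ x, ∀ v ∈ D' x, ∃ y, v ∈ D y) := by
  have ia := h.iv a
  have ib := h.iv b
  by_cases ha : g a = a
  · have hb : g b = b := by
      by_contra hb
      exact (hocc.2 hb) ha
    exact ⟨g, D, by simp [BEX.cap, ha, hb], h, rfl, ha, hb, fun x _ _ => Iff.rfl, fun x _ _ _ => rfl,
      fun x v hv => ⟨x, hv⟩⟩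
  · have hb : g b ≠ b := hocc.1 ha
    have hj := hne ha
    have hj' : g b ≠ a := fun e => hj (by rw [← e, ib])
    have hff : g a ≠ g b := fun e => hab (by rw [← ia, e, ib])
    have a1 : ctD g a b [] D a = [] := by simp [ctD]
    have a2 : ctD g a b [] D b = [] := by simp [ctD]
    have a3 : ctD g a b [] D (g a) = D (g a) ++ D b := by simp [ctD, ha, hj]
    have a4 : ctD g a b [] D (g b) = D (g b) ++ D a := by simp [ctD, hb, hj', hff.symm]
    have a5 : ∀ x, x ≠ a → x ≠ b → x ≠ g a → x ≠ g b → ctD g a b [] D x = D x :=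
      fun x h1 h2 h3 h4 => by simp [ctD, h1, h2, h3, h4]
    have c1 : BEX.ct a b g a = a := by simp [BEX.ct]
    have c2 : BEX.ct a b g b = b := by simp [BEX.ct, hab.symm]
    have c3 : BEX.ct a b g (g a) = g b := by simp [BEX.ct, ha, hj]
    have c4 : BEX.ct a b g (g b) = g a := by simp [BEX.ct, hb, hj', hff.symm]
    have c5 : ∀ x, x ≠ a → x ≠ b → x ≠ g a → x ≠ g b → BEX.ct a b g x = g x :=
      fun x h1 h2 h3 h4 => by simp [BEX.ct, h1, h2, h3, h4]
    have hch : (D (g a) ++ [] ++ D b).IsChain R := by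
      rw [List.append_nil, List.isChain_append]
      refine ⟨h.ch _, h.ch _, ?_⟩
      intro u hu v hv
      rw [h.rv, List.getLast?_reverse] at hu
      exact hr ha u v hu hv
    refine ⟨BEX.ct a b g, ctD g a b [] D, by simp [BEX.cap, ha, hb, hj],
      h.ct hs hab ha hb hj List.nodup_nil (by simp) hch, by rw [tot_ct h hab ha hb hj]; simp, c1, c2, ?_, ?_, ?_⟩
    · intro x h1 h2
      by_cases h3 : x = g a
      · subst h3
        rw [c3]
        exact ⟨fun _ e => h1 (by rw [ia] at e; exact e.symm), fun _ => hff.symm⟩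
      by_cases h4 : x = g b
      · subst h4
        rw [c4]
        exact ⟨fun _ e => h2 (by rw [ib] at e; exact e.symm), fun _ => hff⟩
      rw [c5 x h1 h2 h3 h4]
    · intro x h1 h2 h3
      by_cases h4 : x = g a
      · subst h4; rw [a3, head_append_ne h3]
      by_cases h5 : x = g b
      · subst h5; rw [a4, head_append_ne h3]
      rw [a5 x h1 h2 h4 h5]
    · intro x v hv
      by_cases h1 : x = a
      · subst h1; rw [a1] at hv; simp at hv
      by_cases h2 : x = b
      · subst h2; rw [a2] at hv; simp at hv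
      by_cases h3 : x = g a
      · subst h3; rw [a3] at hv
        rcases List.mem_append.1 hv with hv | hv
        · exact ⟨_, hv⟩
        · exact ⟨_, hv⟩
      by_cases h4 : x = g b
      · subst h4; rw [a4] at hv
        rcases List.mem_append.1 hv with hv | hv
        · exact ⟨_, hv⟩
        · exact ⟨_, hv⟩
      rw [a5 x h1 h2 h3 h4] at hv
      exact ⟨x, hv⟩

/-- Restriction to the lines. -/
theorem rst_ok {L : ℕ} {V : Type*} {R : V → V → Prop} {g : Fin L ⊕ Bool → Fin L ⊕ Bool}
    {D : Fin L ⊕ Bool → List V} (h : Deco R g D) (hb : ∀ c, g (Sum.inr c) = Sum.inr c) :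
    Deco R (fun j => match g (Sum.inl j) with
        | Sum.inl i => i
        | Sum.inr _ => j) (fun j => D (Sum.inl j)) ∧
      tot (fun j : Fin L => D (Sum.inl j)) = tot D ∧
      ∀ j, (match g (Sum.inl j) with
        | Sum.inl i => i
        | Sum.inr _ => j) ≠ j ↔ g (Sum.inl j) ≠ Sum.inl j := by
  have key : ∀ j, ∃ i, g (Sum.inl j) = Sum.inl i := by
    intro j
    rcases hg : g (Sum.inl j) with i | c
    · exact ⟨i, rfl⟩
    · exfalso
      have := h.iv (Sum.inl j)
      rw [hg, hb] at this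
      exact absurd this (by simp)
  have key2 : ∀ j, g (Sum.inl j) = Sum.inl (match g (Sum.inl j) with
        | Sum.inl i => i
        | Sum.inr _ => j) := by
    intro j
    obtain ⟨i, hi⟩ := key j
    rw [hi]
  have key3 : ∀ j i, g (Sum.inl j) = Sum.inl i → (match g (Sum.inl j) with
        | Sum.inl i => i
        | Sum.inr _ => j) = i := by
    intro j i hi
    rw [hi]
  refine ⟨⟨?_, ?_, ?_, fun j => h.nd _, ?_, fun j => h.ch _⟩, ?_, ?_⟩
  · intro j
    obtain ⟨i, hi⟩ := key j
    have h1 : g (Sum.inl i) = Sum.inl j := by rw [← hi, h.iv]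
    show (match g (Sum.inl (match g (Sum.inl j) with
        | Sum.inl i => i
        | Sum.inr _ => j)) with
        | Sum.inl i => i
        | Sum.inr _ => (match g (Sum.inl j) with
        | Sum.inl i => i
        | Sum.inr _ => j)) = j
    rw [hi]
    simp only
    rw [h1]
  · intro j
    obtain ⟨i, hi⟩ := key j
    show D (Sum.inl (match g (Sum.inl j) with
        | Sum.inl i => i
        | Sum.inr _ => j)) = (D (Sum.inl j)).reverse
    rw [← key2 j]
    exact h.rv _
  · intro j hj
    refine h.em _ ?_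
    rw [key2 j]
    exact congrArg Sum.inl hj
  · intro i j h1 h2 v hv
    refine h.dj (Sum.inl i) (Sum.inl j) (fun e => h1 (Sum.inl.inj e)) (fun e => h2 ?_) v hv
    rw [key2 i] at e
    exact Sum.inl.inj e
  · unfold tot
    rw [Fintype.sum_sum_type]
    have h1 : ∀ c : Bool, D (Sum.inr c) = [] := fun c => h.em _ (hb c)
    simp [h1]
  · intro j
    obtain ⟨i, hi⟩ := key j
    rw [hi]
    simp

end Pool.Agent.QL.HL
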