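import Pool.Agent.BEX.D.Inv

/-!
# BEX part D: matchings decorated with disjoint lists of vertices

`d a` is the list of the vertices of the strand which ends in `a`, read from `a`.
-/

namespace Pool.Agent.QL.HL

open Pool.Agent.BEX

variable {Λ V : Type*}

/-- The matching `f` with the strands `d`, consecutive vertices in the relation `R`. -/
structure Deco (R : V → V → Prop) (f : Λ → Λ) (d : Λ → List V) : Prop where
  iv : ∀ a, f (f a) = a
  rv : ∀ a, d (f a) = (d a).reverse
  em : ∀ a, f a = a → d a = []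
  nd : ∀ a, (d a).Nodup
  dj : ∀ a b, b ≠ a → b ≠ f a → ∀ v ∈ d a, v ∉ d b
  ch : ∀ a, (d a).IsChain R

theorem Deco.mem_f {R : V → V → Prop} {f : Λ → Λ} {d : Λ → List V} (h : Deco R f d) (a : Λ) (v : V) :
    v ∈ d (f a) ↔ v ∈ d a := by
  rw [h.rv, List.mem_reverse]

theorem Deco.mono {R R' : V → V → Prop} {f : Λ → Λ} {d : Λ → List V} (h : Deco R f d)
    (hR : ∀ a, ∀ u ∈ d a, ∀ v ∈ d a, R u v → R' u v) : Deco R' f d :=
  ⟨h.iv, h.rv, h.em, h.nd, h.dj, fun a => by
    have := h.ch a
    rw [List.isChain_iff_getElem] at this ⊢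
    exact fun i hi => hR a _ (List.getElem_mem _) _ (List.getElem_mem _) (this i hi)⟩

theorem isChain_reverse {R : V → V → Prop} (hs : ∀ u v, R u v → R v u) {l : List V} (h : l.IsChain R) :
    l.reverse.IsChain R := by
  rw [List.isChain_reverse]
  rw [List.isChain_iff_getElem] at h ⊢
  exact fun i hi => hs _ _ (h i hi)

variable [DecidableEq Λ]

/-- A vertex is added at the end `b` of a strand. -/
def extD (f : Λ → Λ) (b : Λ) (v : V) (d : Λ → List V) (x : Λ) : List V :=
  if x = b then v :: d b else if x = f b then d (f b) ++ [v] else d x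

theorem Deco.ext {R : V → V → Prop} (hs : ∀ u v, R u v → R v u) {f : Λ → Λ} {d : Λ → List V} (h : Deco R f d)
    {b : Λ} (hb : f b ≠ b) {v : V} (hv : ∀ x, v ∉ d x) (hR : ∀ u, (d b).head? = some u → R v u) :
    Deco R f (extD f b v d) := by
  have i0 := h.iv b
  have hne : f b ≠ b := hb
  have vb : extD f b v d b = v :: d b := by simp [extD]
  have vf : extD f b v d (f b) = d (f b) ++ [v] := by simp [extD, hne]
  have vo : ∀ x, x ≠ b → x ≠ f b → extD f b v d x = d x := fun x h1 h2 => by simp [extD, h1, h2]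
  have hmem : ∀ x u, u ∈ extD f b v d x ↔ u ∈ d x ∨ (u = v ∧ (x = b ∨ x = f b)) := by
    intro x u
    by_cases h1 : x = b
    · subst h1; rw [vb]; simp; tauto
    · by_cases h2 : x = f b
      · subst h2; rw [vf]; simp
      · rw [vo x h1 h2]; simp [h1, h2]
  have hcb : (v :: d b).IsChain R := by
    cases hd : d b with
    | nil => simp
    | cons u t =>
      rw [List.isChain_cons_cons]
      exact ⟨hR u (by rw [hd]; rfl), by have := h.ch b; rwa [hd] at this⟩
  refine ⟨h.iv, ?_, ?_, ?_, ?_, ?_⟩
  · intro x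
    by_cases h1 : x = b
    · subst h1; rw [vf, vb, h.rv]; simp
    · by_cases h2 : x = f b
      · subst h2; rw [i0, vb, vf, h.rv]; simp
      · have h3 : f x ≠ b := fun e => h2 (by rw [← e, h.iv])
        have h4 : f x ≠ f b := fun e => h1 (by rw [← h.iv x, e, h.iv])
        rw [vo x h1 h2, vo _ h3 h4, h.rv]
  · intro x hx
    have h1 : x ≠ b := fun e => hb (e ▸ hx)
    have h2 : x ≠ f b := fun e => hb (by rw [e, i0] at hx; exact hx.symm)
    rw [vo x h1 h2]; exact h.em x hx
  · intro x
    by_cases h1 : x = b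
    · subst h1; rw [vb]; exact List.nodup_cons.2 ⟨hv _, h.nd _⟩
    · by_cases h2 : x = f b
      · subst h2; rw [vf]
        rw [List.nodup_append]
        refine ⟨h.nd _, by simp, ?_⟩
        intro a ha c hc
        simp only [List.mem_singleton] at hc
        subst hc
        exact fun e => hv _ (e ▸ ha)
      · rw [vo x h1 h2]; exact h.nd x
  · intro x y hxy hxy' u hu hu'
    rw [hmem] at hu hu'
    rcases hu with hu | ⟨rfl, hx⟩
    · rcases hu' with hu' | ⟨rfl, -⟩
      · exact h.dj x y hxy hxy' u hu hu'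
      · exact hv _ hu
    · rcases hu' with hu' | ⟨-, hy⟩
      · exact hv _ hu'
      · rcases hx with rfl | rfl <;> rcases hy with rfl | rfl
        · exact hxy rfl
        · exact hxy' rfl
        · exact hxy' i0.symm
        · exact hxy rfl
  · intro x
    by_cases h1 : x = b
    · subst h1; rw [vb]; exact hcb
    · by_cases h2 : x = f b
      · subst h2
        rw [vf, h.rv, ← List.reverse_cons]
        exact isChain_reverse hs hcb
      · rw [vo x h1 h2]; exact h.ch x

theorem Deco.cj {R : V → V → Prop} {f : Λ → Λ} {d : Λ → List V} (h : Deco R f d) (a b : Λ) :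
    Deco R (BEX.cj a b f) (fun x => d (Equiv.swap a b x)) := by
  refine ⟨cj_IV h.iv, ?_, ?_, fun x => h.nd _, ?_, fun x => h.ch _⟩
  · intro x
    simp only [BEX.cj, Equiv.swap_apply_self, h.rv]
  · intro x hx
    apply h.em
    have := congrArg (Equiv.swap a b) hx
    simpa [BEX.cj] using this
  · intro x y hxy hxy' u hu
    refine h.dj _ _ (fun e => hxy ((Equiv.swap a b).injective e)) (fun e => hxy' ?_) u hu
    have := congrArg (Equiv.swap a b) e
    simpa [BEX.cj] using this

/-- New strand. -/
def arD (a b : Λ) (w : List V) (d : Λ → List V) (x : Λ) : List V :=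
  if x = a then w else if x = b then w.reverse else d x

theorem Deco.ar {R : V → V → Prop} (hs : ∀ u v, R u v → R v u) {f : Λ → Λ} {d : Λ → List V} (h : Deco R f d)
    {a b : Λ} (hab : a ≠ b) (ha : f a = a) (hb : f b = b) {w : List V} (hw : w.Nodup) (hc : w.IsChain R)
    (hv : ∀ v ∈ w, ∀ x, v ∉ d x) : Deco R (BEX.ar a b f) (arD a b w d) := by
  have va : arD a b w d a = w := by simp [arD]
  have vb : arD a b w d b = w.reverse := by simp [arD, hab.symm]
  have vo : ∀ x, x ≠ a → x ≠ b → arD a b w d x = d x := fun x h1 h2 => by simp [arD, h1, h2]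
  have fa : BEX.ar a b f a = b := by simp [BEX.ar]
  have fb : BEX.ar a b f b = a := by simp [BEX.ar, hab.symm]
  have fo : ∀ x, x ≠ a → x ≠ b → BEX.ar a b f x = f x := fun x h1 h2 => by simp [BEX.ar, h1, h2]
  have hmem : ∀ x u, u ∈ arD a b w d x ↔ (u ∈ d x ∧ x ≠ a ∧ x ≠ b) ∨ (u ∈ w ∧ (x = a ∨ x = b)) := by
    intro x u
    by_cases h1 : x = a
    · subst h1; rw [va]; simp
    · by_cases h2 : x = b
      · subst h2; rw [vb]; simp
      · rw [vo x h1 h2]; simp [h1, h2]
  have ha' : ∀ x, x ≠ a → f x ≠ a := fun x h1 e => h1 (by rw [← h.iv x, e, ha])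
  have hb' : ∀ x, x ≠ b → f x ≠ b := fun x h1 e => h1 (by rw [← h.iv x, e, hb])
  refine ⟨ar_IV h.iv ha hb, ?_, ?_, ?_, ?_, ?_⟩
  · intro x
    by_cases h1 : x = a
    · subst h1; rw [fa, va, vb]
    · by_cases h2 : x = b
      · subst h2; rw [fb, va, vb]; simp
      · rw [fo x h1 h2, vo x h1 h2, vo _ (ha' x h1) (hb' x h2), h.rv]
  · intro x hx
    by_cases h1 : x = a
    · subst h1; rw [fa] at hx; exact absurd hx.symm hab
    · by_cases h2 : x = b
      · subst h2; rw [fb] at hx; exact absurd hx hab
      · rw [fo x h1 h2] at hx; rw [vo x h1 h2]; exact h.em x hx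
  · intro x
    by_cases h1 : x = a
    · subst h1; rw [va]; exact hw
    · by_cases h2 : x = b
      · subst h2; rw [vb]; exact List.nodup_reverse.2 hw
      · rw [vo x h1 h2]; exact h.nd x
  · intro x y hxy hxy' u hu hu'
    rw [hmem] at hu hu'
    rcases hu with ⟨hu, h1, h2⟩ | ⟨hu, hx⟩
    · rcases hu' with ⟨hu', h3, h4⟩ | ⟨hu', -⟩
      · rw [fo x h1 h2] at hxy'
        exact h.dj x y hxy hxy' u hu hu'
      · exact hv u hu' x hu
    · rcases hu' with ⟨hu', -⟩ | ⟨-, hy⟩
      · exact hv u hu y hu'
      · rcases hx with rfl | rfl <;> rcases hy with rfl | rfl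
        · exact hxy rfl
        · exact hxy' fa.symm
        · exact hxy' fb.symm
        · exact hxy rfl
  · intro x
    by_cases h1 : x = a
    · subst h1; rw [va]; exact hc
    · by_cases h2 : x = b
      · subst h2; rw [vb]; exact isChain_reverse hs hc
      · rw [vo x h1 h2]; exact h.ch x

/-- Two strands are joined by the list `w` (read from `a` to `b`). -/
def ctD (f : Λ → Λ) (a b : Λ) (w : List V) (d : Λ → List V) (x : Λ) : List V :=
  if x = a then [] else if x = b then [] else if x = f a then d (f a) ++ w ++ d b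
  else if x = f b then d (f b) ++ w.reverse ++ d a else d x

theorem Deco.ct {R : V → V → Prop} (hs : ∀ u v, R u v → R v u) {f : Λ → Λ} {d : Λ → List V} (h : Deco R f d)
    {a b : Λ} (hab : a ≠ b) (ha : f a ≠ a) (hb : f b ≠ b) (hj : f a ≠ b) {w : List V} (hw : w.Nodup)
    (hv : ∀ v ∈ w, ∀ x, v ∉ d x) (hc : (d (f a) ++ w ++ d b).IsChain R) :
    Deco R (BEX.ct a b f) (ctD f a b w d) := by
  have ia := h.iv a
  have ib := h.iv b
  have hj' : f b ≠ a := fun e => hj (by rw [← e, ib])
  have hff : f a ≠ f b := fun e => hab (by rw [← ia, e, ib])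
  have va : ctD f a b w d a = [] := by simp [ctD]
  have vb : ctD f a b w d b = [] := by simp [ctD]
  have vfa : ctD f a b w d (f a) = d (f a) ++ w ++ d b := by simp [ctD, ha, hj]
  have vfb : ctD f a b w d (f b) = d (f b) ++ w.reverse ++ d a := by simp [ctD, hb, hj', hff.symm]
  have vo : ∀ x, x ≠ a → x ≠ b → x ≠ f a → x ≠ f b → ctD f a b w d x = d x := fun x h1 h2 h3 h4 => by
    simp [ctD, h1, h2, h3, h4]
  have fa : BEX.ct a b f a = a := by simp [BEX.ct]
  have fb : BEX.ct a b f b = b := by simp [BEX.ct, hab.symm]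
  have ffa : BEX.ct a b f (f a) = f b := by simp [BEX.ct, ha, hj]
  have ffb : BEX.ct a b f (f b) = f a := by simp [BEX.ct, hb, hj', hff.symm]
  have fo : ∀ x, x ≠ a → x ≠ b → x ≠ f a → x ≠ f b → BEX.ct a b f x = f x := fun x h1 h2 h3 h4 => by
    simp [BEX.ct, h1, h2, h3, h4]
  have hrev : (d (f a) ++ w ++ d b).reverse = d (f b) ++ w.reverse ++ d a := by
    rw [List.reverse_append, List.reverse_append, h.rv a, List.reverse_reverse, h.rv b,
      List.append_assoc]
  -- membership in the new strand
  have hmem : ∀ u, u ∈ d (f a) ++ w ++ d b ↔ u ∈ d a ∨ u ∈ w ∨ u ∈ d b := by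
    intro u
    rw [List.mem_append, List.mem_append, h.mem_f]
    tauto
  have hnd : (d (f a) ++ w ++ d b).Nodup := by
    rw [List.nodup_append, List.nodup_append]
    refine ⟨⟨h.nd _, hw, ?_⟩, h.nd _, ?_⟩
    · intro u hu v hv' e
      subst e
      exact hv u hv' _ hu
    · intro u hu v hv' e
      subst e
      rcases List.mem_append.1 hu with hu | hu
      · exact h.dj (f a) b (Ne.symm hj) (by rw [ia]; exact hab.symm) u hu hv'
      · exact hv u hu _ hv'
  refine ⟨ct_IV h.iv ha hb, ?_, ?_, ?_, ?_, ?_⟩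
  · intro x
    by_cases h1 : x = a
    · subst h1; rw [fa, va]; rfl
    by_cases h2 : x = b
    · subst h2; rw [fb, vb]; rfl
    by_cases h3 : x = f a
    · subst h3; rw [ffa, vfa, vfb, hrev]
    by_cases h4 : x = f b
    · subst h4; rw [ffb, vfa, vfb, ← hrev, List.reverse_reverse]
    have g1 : f x ≠ a := fun e => h3 (by rw [← e, h.iv])
    have g2 : f x ≠ b := fun e => h4 (by rw [← e, h.iv])
    have g3 : f x ≠ f a := fun e => h1 (by rw [← h.iv x, e, ia])
    have g4 : f x ≠ f b := fun e => h2 (by rw [← h.iv x, e, ib])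
    rw [fo x h1 h2 h3 h4, vo x h1 h2 h3 h4, vo _ g1 g2 g3 g4, h.rv]
  · intro x hx
    by_cases h1 : x = a
    · subst h1; exact va
    by_cases h2 : x = b
    · subst h2; exact vb
    by_cases h3 : x = f a
    · subst h3; rw [ffa] at hx; exact absurd hx.symm hff
    by_cases h4 : x = f b
    · subst h4; rw [ffb] at hx; exact absurd hx hff
    rw [fo x h1 h2 h3 h4] at hx
    rw [vo x h1 h2 h3 h4]; exact h.em x hx
  · intro x
    by_cases h1 : x = a
    · subst h1; rw [va]; exact List.nodup_nil
    by_cases h2 : x = b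
    · subst h2; rw [vb]; exact List.nodup_nil
    by_cases h3 : x = f a
    · subst h3; rw [vfa]; exact hnd
    by_cases h4 : x = f b
    · subst h4; rw [vfb, ← hrev]; exact List.nodup_reverse.2 hnd
    rw [vo x h1 h2 h3 h4]; exact h.nd x
  · -- disjointness
    have key : ∀ y, y ≠ a → y ≠ b → y ≠ f a → y ≠ f b → ∀ u ∈ d (f a) ++ w ++ d b, u ∉ d y := by
      intro y h1 h2 h3 h4 u hu hu'
      rw [hmem] at hu
      rcases hu with hu | hu | hu
      · exact h.dj a y h1 h3 u hu hu'
      · exact hv u hu _ hu'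
      · exact h.dj b y h2 h4 u hu hu'
    intro x y hxy hxy' u hu hu'
    by_cases h1 : x = a
    · subst h1; rw [va] at hu; simp at hu
    by_cases h2 : x = b
    · subst h2; rw [vb] at hu; simp at hu
    by_cases k1 : y = a
    · subst k1; rw [va] at hu'; simp at hu'
    by_cases k2 : y = b
    · subst k2; rw [vb] at hu'; simp at hu'
    by_cases h3 : x = f a
    · subst h3
      rw [ffa] at hxy'
      rw [vfa] at hu
      rw [vo y k1 k2 hxy hxy'] at hu'
      exact key y k1 k2 hxy hxy' u hu hu'
    by_cases h4 : x = f b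
    · subst h4
      rw [ffb] at hxy'
      rw [vfb, ← hrev, List.mem_reverse] at hu
      rw [vo y k1 k2 hxy' hxy] at hu'
      exact key y k1 k2 hxy' hxy u hu hu'
    rw [vo x h1 h2 h3 h4] at hu
    rw [fo x h1 h2 h3 h4] at hxy'
    by_cases k3 : y = f a
    · subst k3
      rw [vfa] at hu'
      exact key x h1 h2 h3 h4 u hu' hu
    by_cases k4 : y = f b
    · subst k4
      rw [vfb, ← hrev, List.mem_reverse] at hu'
      exact key x h1 h2 h3 h4 u hu' hu
    rw [vo y k1 k2 k3 k4] at hu'
    exact h.dj x y hxy hxy' u hu hu'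
  · intro x
    by_cases h1 : x = a
    · subst h1; rw [va]; simp
    by_cases h2 : x = b
    · subst h2; rw [vb]; simp
    by_cases h3 : x = f a
    · subst h3; rw [vfa]; exact hc
    by_cases h4 : x = f b
    · subst h4; rw [vfb, ← hrev]; exact isChain_reverse hs hc
    rw [vo x h1 h2 h3 h4]; exact h.ch x

/-! ### total length -/

/-- The total number of vertices, every strand counted twice. -/
def tot [Fintype Λ] (d : Λ → List V) : ℕ := ∑ x, (d x).length

theorem tot_ext [Fintype Λ] {f : Λ → Λ} {b : Λ} (hb : f b ≠ b) (v : V) (d : Λ → List V) :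
    tot (extD f b v d) = tot d + 2 := by
  unfold tot
  have h1 : ∀ x, (extD f b v d x).length = (d x).length + ((if x = b then 1 else 0) + (if x = f b then 1 else 0)) := by
    intro x
    unfold extD
    by_cases h1 : x = b
    · subst h1; simp [Ne.symm hb]
    · by_cases h2 : x = f b
      · subst h2; simp [hb]
      · simp [h1, h2]
  simp only [h1, Finset.sum_add_distrib]
  simp

theorem tot_cj [Fintype Λ] (a b : Λ) (d : Λ → List V) :
    tot (fun x => d (Equiv.swap a b x)) = tot d := by
  unfold tot
  exact Equiv.sum_comp (Equiv.swap a b) fun x => (d x).length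

theorem tot_ar [Fintype Λ] {a b : Λ} (hab : a ≠ b) (w : List V) (d : Λ → List V) (ha : d a = [])
    (hb : d b = []) : tot (arD a b w d) = tot d + 2 * w.length := by
  unfold tot
  have h1 : ∀ x, (arD a b w d x).length =
      (d x).length + ((if x = a then w.length else 0) + (if x = b then w.length else 0)) := by
    intro x
    unfold arD
    by_cases h1 : x = a
    · subst h1; simp [ha, hab]
    · by_cases h2 : x = b
      · subst h2; simp [hb, hab.symm]
      · simp [h1, h2]
  simp only [h1, Finset.sum_add_distrib]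
  simp
  ring

theorem tot_ct [Fintype Λ] {R : V → V → Prop} {f : Λ → Λ} {d : Λ → List V} (h : Deco R f d) {a b : Λ}
    (hab : a ≠ b) (ha : f a ≠ a) (hb : f b ≠ b) (hj : f a ≠ b) (w : List V) :
    tot (ctD f a b w d) = tot d + 2 * w.length := by
  have ia := h.iv a
  have ib := h.iv b
  have hj' : f b ≠ a := fun e => hj (by rw [← e, ib])
  have hff : f a ≠ f b := fun e => hab (by rw [← ia, e, ib])
  have la : (d (f a)).length = (d a).length := by rw [h.rv, List.length_reverse]
  have lb : (d (f b)).length = (d b).length := by rw [h.rv, List.length_reverse]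
  unfold tot
  have h1 : ∀ x, (ctD f a b w d x).length + ((if x = a then (d a).length else 0) + (if x = b then (d b).length else 0)) =
      (d x).length + ((if x = f a then w.length + (d b).length else 0) +
        (if x = f b then w.length + (d a).length else 0)) := by
    intro x
    unfold ctD
    by_cases h1 : x = a
    · subst h1; simp [hab, Ne.symm ha, Ne.symm hj']
    by_cases h2 : x = b
    · subst h2; simp [hab.symm, Ne.symm hj, Ne.symm hb]
    by_cases h3 : x = f a
    · subst h3; simp [ha, hj, hff]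
    by_cases h4 : x = f b
    · subst h4; simp [hb, hj', hff.symm]
    simp [h1, h2, h3, h4]
  have h2 := Finset.sum_congr (rfl : (Finset.univ : Finset Λ) = Finset.univ) fun x _ => h1 x
  simp only [Finset.sum_add_distrib, Finset.sum_ite_eq', Finset.mem_univ, if_true] at h2
  omega

end Pool.Agent.QL.HL
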