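import Pool.Agent.QL.HLRun

/-!
# BEX part D: a whole row and a whole run, for the choices given by a path
-/

namespace Pool.Agent.QL.HL

open Pool.Agent.BEX

variable {L M : ℕ} {i0 j0 : Fin L} {l : List (CV L)}

/-- A whole row. -/
theorem row_ok (hL : 2 ≤ L) (hij : i0 ≠ j0) (hl : CP M ((0 : ℤ), i0, true) ((0 : ℤ), j0, true) l) {n : ℤ}
    (hn : 0 ≤ n) {f : Fin L → Fin L} {d : Fin L → List (CV L)} (h : LI l i0 j0 (n + 1) f d) :
    ∃ f' c' d', rowG (id : Fin L → Fin L) (cho hL l n) f = some (f', c') ∧ LI l i0 j0 n f' d' ∧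
      tot d' = tot d + 2 * c' := by
  obtain ⟨D, h1, h2⟩ := RI_zero hL n h
  obtain ⟨g, c, D1, h3, h4, h5⟩ := RI_hops hL hij hl hn L 0 (by omega) h1
  rw [List.drop_zero] at h3
  have hau : auU hL l n L ↔ auU hL l n 0 := auU_L hL n
  have hoccab : g (Sum.inr false) ≠ Sum.inr false ↔ g (Sum.inr true) ≠ Sum.inr true := by
    rw [h4.occa, h4.occb, hau]
  have hlp0 : lp hL 0 = ln hL (L - 1) := by unfold lp; rw [Nat.zero_add]
  have hdec : Deco (Nb l) g D1 := h4.dec.mono fun a u _ v _ hR => hR.1
  have hne : g (Sum.inr false) ≠ Sum.inr false → g (Sum.inr false) ≠ Sum.inr true := by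
    intro ha e
    have hb := hoccab.1 ha
    have hA := h4.occa.1 ha
    have e' : g (Sum.inr true) = Sum.inr false := by rw [← e, h4.dec.iv]
    have hhead := h4.hbp (by omega) hb
    have hlast : (D1 (Sum.inr true)).getLast? = some (n, ln hL 0, true) := by
      have h6 := h4.hap (by omega) ha
      rw [← e', h4.dec.rv, List.head?_reverse] at h6
      exact h6
    have hnn : D1 (Sum.inr true) ≠ [] := ne_nil_of_head hhead
    have hpos : 0 < (D1 (Sum.inr true)).length := List.length_pos_iff.2 hnn
    have e0 : (D1 (Sum.inr true))[0] = (n, ln hL (L - 1), false) := by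
      rw [List.head?_eq_getElem?, List.getElem?_eq_getElem hpos] at hhead
      exact Option.some.inj hhead
    have e1 : (D1 (Sum.inr true))[(D1 (Sum.inr true)).length - 1]'(by omega) = (n, ln hL 0, true) := by
      rw [List.getLast?_eq_getElem?, List.getElem?_eq_getElem (by omega)] at hlast
      exact Option.some.inj hlast
    rcases Nat.lt_or_ge (D1 (Sum.inr true)).length 3 with hlt | hge
    · have hch := List.isChain_iff_getElem.1 (h4.dec.ch (Sum.inr true))
      rcases Nat.lt_or_ge (D1 (Sum.inr true)).length 2 with hlt2 | hge2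
      · have h6 : (D1 (Sum.inr true))[(D1 (Sum.inr true)).length - 1]'(by omega) =
            (D1 (Sum.inr true))[0] := by congr 1; omega
        rw [e0, e1] at h6
        simpa using congrArg (fun z : CV L => z.2.2) h6
      · have h6 := hch 0 (by omega)
        have h7 : (D1 (Sum.inr true))[0 + 1]'(by omega) = (n, ln hL 0, true) := by
          rw [← e1]; congr 1; omega
        rw [e0, h7] at h6
        apply h6.2.1
        rw [hlp0]
        exact ⟨rfl, rfl⟩
    · refine no_cycle hl.1 (h4.dec.nd (Sum.inr true)) hge (hdec.ch _) ?_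
      rw [e0, e1]
      have h6 := hA
      unfold auU at h6
      rw [hlp0] at h6
      exact h6.symm
  have hr : g (Sum.inr false) ≠ Sum.inr false → ∀ u v, (D1 (Sum.inr false)).head? = some u →
      (D1 (Sum.inr true)).head? = some v → Nb l u v := by
    intro ha u v hu hv
    have hb := hoccab.1 ha
    have hA := h4.occa.1 ha
    rw [h4.hap (by omega) ha, Option.some.injEq] at hu
    rw [h4.hbp (by omega) hb, Option.some.injEq] at hv
    subst hu hv
    unfold auU at hA
    rw [hlp0] at hA
    exact hA.symm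
  obtain ⟨g', D', k1, k2, k3, k4, k5, k6, k7, k8⟩ := cap_ok (fun _ _ hh => Nb.symm hh) hdec
    (a := Sum.inr false) (b := Sum.inr true) (by simp) hoccab hne hr
  obtain ⟨m1, m2, m3⟩ := rst_ok k2 (fun c => by cases c <;> assumption)
  refine ⟨fun j => match g' (Sum.inl j) with
        | Sum.inl i => i
        | Sum.inr _ => j, c, fun j => D' (Sum.inl j), ?_, ⟨m1, ?_, ?_, ?_⟩, ?_⟩
  · unfold rowG
    have h6 : hops (Sum.inr true) ((List.finRange L).map fun j => ((cho hL l n).2 j, Sum.inl (id j)))
        (if (cho hL l n).1 = true then ar (Sum.inr false) (Sum.inr true) (Sum.map f id) else Sum.map f id) =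
        some (g, c) := h3
    simp only [h6, Option.bind_some, k1, Option.map_some]
    refine congrArg some (Prod.ext (funext fun a => ?_) rfl)
    simp only
    cases g' (Sum.inl a) <;> rfl
  · intro j
    have h6 : (match g' (Sum.inl j) with
        | Sum.inl i => i
        | Sum.inr _ => j) ≠ j ↔ g' (Sum.inl j) ≠ Sum.inl j := m3 j
    rw [h6, k6 _ (by simp) (by simp)]
    exact h4.occ1 j j.2
  · intro j hj
    have h6 : g' (Sum.inl j) ≠ Sum.inl j := (m3 j).1 hj
    rw [k6 _ (by simp) (by simp)] at h6
    have h7 := h4.hd1 j j.2 h6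
    show (D' (Sum.inl j)).head? = _
    rw [k7 _ (by simp) (by simp) (ne_nil_of_head h7)]
    exact h7
  · intro j v hv
    obtain ⟨y, hy⟩ := k8 _ v hv
    rcases h4.fresh y v hy with h6 | ⟨h6, -⟩
    · omega
    · omega
  · rw [m2, k3, h5, h2]

/-- The choices of all the rows, the lowest row first. -/
noncomputable def csl (hL : 2 ≤ L) (l : List (CV L)) : ℕ → List (Ch L)
  | 0 => []
  | n + 1 => cho hL l n :: csl hL l n

theorem csl_length (hL : 2 ≤ L) (l : List (CV L)) (n : ℕ) : (csl hL l n).length = n := by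
  induction n with
  | zero => rfl
  | succ n ih => simp [csl, ih]

/-- A whole run. -/
theorem run_ok (hL : 2 ≤ L) (hij : i0 ≠ j0) (hl : CP M ((0 : ℤ), i0, true) ((0 : ℤ), j0, true) l) (n : ℕ)
    {f : Fin L → Fin L} {d : Fin L → List (CV L)} (h : LI l i0 j0 n f d) :
    ∃ f' c' d', run (id : Fin L → Fin L) (csl hL l n) f = some (f', c') ∧ LI l i0 j0 0 f' d' ∧
      tot d' = tot d + 2 * c' := by
  induction n generalizing f d with
  | zero => exact ⟨f, 0, d, rfl, h, rfl⟩
  | succ n ih =>
    obtain ⟨f1, c1, d1, h1, h2, h3⟩ := row_ok hL hij hl (n := n) (by omega) (by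
      have e : ((n + 1 : ℕ) : ℤ) = (n : ℤ) + 1 := by push_cast; ring
      rw [e] at h
      exact h)
    obtain ⟨f2, c2, d2, h4, h5, h6⟩ := ih h2
    refine ⟨f2, c1 + c2, d2, ?_, h5, by rw [h6, h3]; ring⟩
    rw [csl, run, h1]
    simp only [Option.bind_some]
    rw [h4]
    rfl

/-- The run of a path ends with the arc `i0 - j0` and uses as many vertices as the path has. -/
theorem run_path (hL : 2 ≤ L) (hij : i0 ≠ j0) (hl : CP M ((0 : ℤ), i0, true) ((0 : ℤ), j0, true) l) :
    run (id : Fin L → Fin L) (csl hL l M) id = some (ar i0 j0 id, l.length) := by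
  have hM : 0 < M := by
    have h1 : ((0 : ℤ), i0, true) ∈ l := List.mem_of_head? hl.2.2.2.1
    have := (hl.2.2.1 _ h1).2
    simp only at this
    omega
  have h0 : LI l i0 j0 M (id : Fin L → Fin L) (fun _ => []) := by
    refine ⟨⟨fun _ => rfl, fun _ => rfl, fun _ _ => rfl, fun _ => List.nodup_nil, ?_, fun _ => by simp⟩, ?_, ?_, ?_⟩
    · intro a b _ _ v hv; simp at hv
    · intro j
      simp only [id, ne_eq, not_true_eq_false, false_iff]
      unfold upU
      rw [if_neg (by omega)]
      intro h1
      have := (hl.2.2.1 _ h1.mem.1).2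
      simp only at this
      omega
    · intro j hj; simp at hj
    · intro j v hv; simp at hv
  obtain ⟨f, c, d, h1, h2, h3⟩ := run_ok hL hij hl M h0
  have hocc : ∀ j, f j ≠ j ↔ (j = i0 ∨ j = j0) := by
    intro j
    rw [h2.occ]
    unfold upU
    rw [if_pos rfl]
  have fi : f i0 = j0 := by
    have e1 : f i0 ≠ i0 := (hocc i0).2 (Or.inl rfl)
    have e2 : f (f i0) ≠ f i0 := by rw [h2.dec.iv]; exact e1.symm
    rcases (hocc _).1 e2 with e | e
    · exact absurd e e1
    · exact e
  have fj : f j0 = i0 := by rw [← fi, h2.dec.iv]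
  have hf : f = ar i0 j0 id := by
    funext x
    unfold ar
    split_ifs with e1 e2
    · rw [e1, fi]
    · rw [e2, fj]
    · by_contra hx
      rcases (hocc x).1 hx with e | e
      · exact e1 e
      · exact e2 e
  have hd : d i0 = l := by
    refine eq_of_chain hl.1 (h2.dec.nd _) (h2.dec.ch _) ?_ ?_
    · rw [h2.hd i0 ((hocc i0).2 (Or.inl rfl)), hl.2.2.2.1]
    · have e := h2.hd j0 ((hocc j0).2 (Or.inr rfl))
      rw [← fi, h2.dec.rv, List.head?_reverse, fi] at e
      rw [e, hl.2.2.2.2]
  have hc : c = l.length := by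
    have e1 : tot d = 2 * l.length := by
      unfold tot
      have e2 : ∀ x, (d x).length = (if x = i0 then l.length else 0) + (if x = j0 then l.length else 0) := by
        intro x
        by_cases e3 : x = i0
        · rw [e3, hd]; simp [hij]
        · by_cases e4 : x = j0
          · rw [e4, ← fi, h2.dec.rv, hd, fi]; simp [hij.symm]
          · have e5 : f x = x := by
              by_contra hx
              rcases (hocc x).1 hx with e | e
              · exact e3 e
              · exact e4 e
            rw [h2.dec.em x e5]; simp [e3, e4]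
      simp only [e2, Finset.sum_add_distrib, Finset.sum_ite_eq', Finset.mem_univ, if_true]
      ring
    have e2 : tot (fun _ : Fin L => ([] : List (CV L))) = 0 := by
      unfold tot
      simp
    rw [e1, e2] at h3
    omega
  rw [h1, hf, hc]

end Pool.Agent.QL.HL
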