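import Pool.Agent.QL.HLDeco

/-!
# BEX part D: one crossing and the seam, on decorated matchings
-/

namespace Pool.Agent.QL.HL

open Pool.Agent.BEX

set_option linter.unusedSectionVars false

variable {Λ V : Type*} [DecidableEq Λ] [Fintype Λ]

theorem head_append_ne {l m : List V} (h : l ≠ []) : (l ++ m).head? = l.head? := by
  cases l with
  | nil => exact absurd rfl h
  | cons a l => rfl

theorem extD_b {f : Λ → Λ} {b : Λ} {v : V} {d : Λ → List V} : extD f b v d b = v :: d b := by simp [extD]

theorem extD_f {f : Λ → Λ} {b : Λ} {v : V} {d : Λ → List V} (hb : f b ≠ b) :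
    extD f b v d (f b) = d (f b) ++ [v] := by simp [extD, hb]

theorem extD_o {f : Λ → Λ} {b : Λ} {v : V} {d : Λ → List V} {x : Λ} (h1 : x ≠ b) (h2 : x ≠ f b) :
    extD f b v d x = d x := by simp [extD, h1, h2]

theorem mem_extD {f : Λ → Λ} {b : Λ} {v : V} {d : Λ → List V} {x : Λ} {u : V} (h : u ∈ extD f b v d x) :
    u = v ∨ ∃ y, u ∈ d y := by
  unfold extD at h
  split_ifs at h with h1 h2
  · rcases List.mem_cons.1 h with h | h
    · exact Or.inl h
    · exact Or.inr ⟨_, h⟩
  · rcases List.mem_append.1 h with h | h
    · exact Or.inr ⟨_, h⟩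
    · exact Or.inl (by simpa using h)
  · exact Or.inr ⟨_, h⟩

/-- The head of the strand at `x ≠ b` does not change if it is there. -/
theorem extD_head {f : Λ → Λ} {b : Λ} (hb : f b ≠ b) {v : V} {d : Λ → List V} {x : Λ} (h1 : x ≠ b)
    (h2 : d x ≠ []) : (extD f b v d x).head? = (d x).head? := by
  by_cases h3 : x = f b
  · subst h3; rw [extD_f hb, head_append_ne h2]
  · rw [extD_o h1 h3]

theorem extD_ne {f : Λ → Λ} {b : Λ} {v : V} {d : Λ → List V} {x : Λ} (h2 : d x ≠ []) : extD f b v d x ≠ [] := by
  unfold extD
  split_ifs with h1 h3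
  · simp
  · simp
  · exact h2

/-- One crossing. `P1` is the vertex at the label `b` before and at `j` after, `P2` at `j` before and at `b` after. -/
theorem hop_ok {R : V → V → Prop} (hs : ∀ u v, R u v → R v u) {g : Λ → Λ} {D : Λ → List V} (h : Deco R g D)
    {b j : Λ} (hbj : b ≠ j) {P1 P2 : V} (hP : P1 ≠ P2) (f1 : ∀ x, P1 ∉ D x) (f2 : ∀ x, P2 ∉ D x)
    (r1 : ∀ u, (D b).head? = some u → R P1 u) (r2 : ∀ u, (D j).head? = some u → R P2 u) (r : Bool)
    (r3 : r = true → R P1 P2) (r4 : r = true → g b ≠ b → g j ≠ j → g b ≠ j) (r5 : g j ≠ j → D j ≠ []) :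
    ∃ g' c' D', hop r b j g = some (g', c') ∧ Deco R g' D' ∧ tot D' = tot D + 2 * c' ∧
      (g' b ≠ b ↔ (if r = true then g j = j else g j ≠ j)) ∧
      (g' j ≠ j ↔ (if r = true then g b = b else g b ≠ b)) ∧
      (∀ x, x ≠ b → x ≠ j → (g' x ≠ x ↔ g x ≠ x)) ∧
      (g' b ≠ b → (D' b).head? = some P2) ∧ (g' j ≠ j → (D' j).head? = some P1) ∧
      (∀ x, x ≠ b → x ≠ j → D x ≠ [] → (D' x).head? = (D x).head?) ∧
      (∀ x, x ≠ b → x ≠ j → g x = b → D x = [] → (D' x).head? = some P1) ∧
      (∀ x, ∀ v ∈ D' x, v = P1 ∨ v = P2 ∨ ∃ y, v ∈ D y) := by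
  have ib := h.iv b
  have ij := h.iv j
  cases r
  · -- rung not used
    obtain ⟨D1, k1, k2, k3, k4, k5, k6⟩ : ∃ D1 : Λ → List V, Deco R g D1 ∧
        tot D1 = tot D + 2 * (if g b = b then 0 else 1) ∧
        (g b ≠ b → (D1 b).head? = some P1) ∧
        (∀ x, x ≠ b → D x ≠ [] → (D1 x).head? = (D x).head? ∧ D1 x ≠ []) ∧
        (∀ x, x ≠ b → g x = b → D x = [] → (D1 x).head? = some P1 ∧ D1 x ≠ []) ∧
        (∀ x, ∀ v ∈ D1 x, v = P1 ∨ ∃ y, v ∈ D y) := by
      by_cases hb : g b = b
      · refine ⟨D, h, by simp [hb], fun h' => absurd hb h', fun x _ hx => ⟨rfl, hx⟩, ?_, fun x v hv => Or.inr ⟨x, hv⟩⟩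
        intro x hx hgx _
        exact absurd (by rw [← h.iv x, hgx, hb]) hx
      · refine ⟨extD g b P1 D, h.ext hs hb f1 r1, by rw [tot_ext hb]; simp [hb], fun _ => by rw [extD_b]; rfl,
          fun x h1 h2 => ⟨extD_head hb h1 h2, extD_ne h2⟩, ?_, fun x v hv => mem_extD hv⟩
        intro x hx hgx hD
        have hx' : x = g b := by rw [← hgx, h.iv]
        subst hx'
        rw [extD_f hb, hD]
        simp
    obtain ⟨D2, m1, m2, m3, m4, m6⟩ : ∃ D2 : Λ → List V, Deco R g D2 ∧
        tot D2 = tot D1 + 2 * (if g j = j then 0 else 1) ∧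
        (g j ≠ j → (D2 j).head? = some P2) ∧
        (∀ x, x ≠ j → D1 x ≠ [] → (D2 x).head? = (D1 x).head? ∧ D2 x ≠ []) ∧
        (∀ x, ∀ v ∈ D2 x, v = P2 ∨ ∃ y, v ∈ D1 y) := by
      by_cases hj : g j = j
      · exact ⟨D1, k1, by simp [hj], fun h' => absurd hj h', fun x _ hx => ⟨rfl, hx⟩,
          fun x v hv => Or.inr ⟨x, hv⟩⟩
      · refine ⟨extD g j P2 D1, k1.ext hs hj ?_ ?_, by rw [tot_ext hj]; simp [hj], fun _ => by rw [extD_b]; rfl,
          fun x h1 h2 => ⟨extD_head hj h1 h2, extD_ne h2⟩, fun x v hv => mem_extD hv⟩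
        · intro x hx
          rcases k6 x _ hx with e | ⟨y, hy⟩
          · exact hP e.symm
          · exact f2 y hy
        · intro u hu
          rw [(k4 j hbj.symm (r5 hj)).1] at hu
          exact r2 u hu
    have sx : ∀ x, x ≠ b → x ≠ j → Equiv.swap b j x = x := fun x h1 h2 => Equiv.swap_apply_of_ne_of_ne h1 h2
    refine ⟨BEX.cj b j g, _, fun x => D2 (Equiv.swap b j x), hop_false b j g, m1.cj b j, ?_, ?_, ?_, ?_, ?_, ?_,
      ?_, ?_, ?_⟩
    · rw [tot_cj, m2, k2]; ring
    · simp only [Bool.false_eq_true, if_false]
      show ¬ Equiv.swap b j (g (Equiv.swap b j b)) = b ↔ _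
      rw [Equiv.swap_apply_left, Equiv.swap_apply_eq_iff, Equiv.swap_apply_left]
    · simp only [Bool.false_eq_true, if_false]
      show ¬ Equiv.swap b j (g (Equiv.swap b j j)) = j ↔ _
      rw [Equiv.swap_apply_right, Equiv.swap_apply_eq_iff, Equiv.swap_apply_right]
    · intro x h1 h2
      show ¬ Equiv.swap b j (g (Equiv.swap b j x)) = x ↔ _
      rw [sx x h1 h2, Equiv.swap_apply_eq_iff, sx x h1 h2]
    · intro hh
      show (D2 (Equiv.swap b j b)).head? = _
      rw [Equiv.swap_apply_left]
      apply m3
      intro e
      apply hh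
      show Equiv.swap b j (g (Equiv.swap b j b)) = b
      rw [Equiv.swap_apply_left, e, Equiv.swap_apply_right]
    · intro hh
      have hb : g b ≠ b := by
        intro e
        apply hh
        show Equiv.swap b j (g (Equiv.swap b j j)) = j
        rw [Equiv.swap_apply_right, e, Equiv.swap_apply_left]
      show (D2 (Equiv.swap b j j)).head? = _
      rw [Equiv.swap_apply_right]
      have h1 : D1 b ≠ [] := by
        intro e
        have := k3 hb
        rw [e] at this
        exact absurd this (by simp)
      rw [(m4 b hbj h1).1, k3 hb]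
    · intro x h1 h2 h3
      show (D2 (Equiv.swap b j x)).head? = _
      rw [sx x h1 h2]
      obtain ⟨p1, p2⟩ := k4 x h1 h3
      rw [(m4 x h2 p2).1, p1]
    · intro x h1 h2 h3 h4
      show (D2 (Equiv.swap b j x)).head? = _
      rw [sx x h1 h2]
      obtain ⟨p1, p2⟩ := k5 x h1 h3 h4
      rw [(m4 x h2 p2).1, p1]
    · intro x v hv
      rcases m6 _ v hv with e | ⟨y, hy⟩
      · exact Or.inr (Or.inl e)
      · rcases k6 y v hy with e | hy'
        · exact Or.inl e
        · exact Or.inr (Or.inr hy')
  · -- rung used
    have r3' := r3 rfl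
    have r4' := r4 rfl
    by_cases hb : g b = b
    · by_cases hj : g j = j
      · -- both empty: new arc
        have Db := h.em b hb
        have Dj := h.em j hj
        have a1 : arD b j [P2, P1] D b = [P2, P1] := by simp [arD]
        have a2 : arD b j [P2, P1] D j = [P1, P2] := by simp [arD, hbj.symm]
        have a3 : ∀ x, x ≠ b → x ≠ j → arD b j [P2, P1] D x = D x := fun x h1 h2 => by simp [arD, h1, h2]
        have g1 : BEX.ar b j g b = j := by simp [BEX.ar]
        have g2 : BEX.ar b j g j = b := by simp [BEX.ar, hbj.symm]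
        have g3 : ∀ x, x ≠ b → x ≠ j → BEX.ar b j g x = g x := fun x h1 h2 => by simp [BEX.ar, h1, h2]
        refine ⟨BEX.ar b j g, 2, arD b j [P2, P1] D, hop_ee hb hj,
          h.ar hs hbj hb hj (by simp [hP.symm]) (by simpa using hs _ _ r3') ?_, ?_, ?_, ?_, ?_, ?_, ?_, ?_, ?_, ?_⟩
        · intro v hv
          simp only [List.mem_cons, List.not_mem_nil, or_false] at hv
          rcases hv with rfl | rfl
          · exact f2
          · exact f1
        · rw [tot_ar hbj _ _ Db Dj]; simp
        · simp [g1, hj, hbj.symm]
        · simp [g2, hb, hbj]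
        · intro x h1 h2; rw [g3 x h1 h2]
        · intro _; rw [a1]; rfl
        · intro _; rw [a2]; rfl
        · intro x h1 h2 _; rw [a3 x h1 h2]
        · intro x h1 h2 h3 _
          exact absurd (by rw [← h.iv x, h3, hb]) h1
        · intro x v hv
          by_cases h1 : x = b
          · subst h1; rw [a1] at hv; simp at hv; tauto
          by_cases h2 : x = j
          · subst h2; rw [a2] at hv; simp at hv; tauto
          rw [a3 x h1 h2] at hv
          exact Or.inr (Or.inr ⟨x, hv⟩)
      · -- only `j`
        have E1 := h.ext hs hj f2 r2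
        have E2 := E1.ext hs hj (v := P1) (by
          intro x hx
          rcases mem_extD hx with e | ⟨y, hy⟩
          · exact hP e
          · exact f1 y hy) (by
          intro u hu
          rw [extD_b] at hu
          simp only [List.head?_cons, Option.some.injEq] at hu
          subst hu
          exact r3')
        refine ⟨g, 2, _, hop_eu hb hj, E2, by rw [tot_ext hj, tot_ext hj], by simp [hb, hj], by simp [hb, hj],
          fun x _ _ => Iff.rfl, fun h' => absurd hb h', fun _ => by rw [extD_b]; rfl, ?_, ?_, ?_⟩
        · intro x h1 h2 h3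
          rw [extD_head hj h2 (extD_ne h3), extD_head hj h2 h3]
        · intro x h1 h2 h3 _
          exact absurd (by rw [← h.iv x, h3, hb]) h1
        · intro x v hv
          rcases mem_extD hv with e | ⟨y, hy⟩
          · exact Or.inl e
          · rcases mem_extD hy with e | hy'
            · exact Or.inr (Or.inl e)
            · exact Or.inr (Or.inr hy')
    · by_cases hj : g j = j
      · -- only `b`
        have E1 := h.ext hs hb f1 r1
        have E2 := E1.ext hs hb (v := P2) (by
          intro x hx
          rcases mem_extD hx with e | ⟨y, hy⟩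
          · exact hP e.symm
          · exact f2 y hy) (by
          intro u hu
          rw [extD_b] at hu
          simp only [List.head?_cons, Option.some.injEq] at hu
          subst hu
          exact hs _ _ r3')
        refine ⟨g, 2, _, hop_ue hb hj, E2, by rw [tot_ext hb, tot_ext hb], by simp [hb, hj], by simp [hb, hj],
          fun x _ _ => Iff.rfl, fun _ => by rw [extD_b]; rfl, fun h' => absurd hj h', ?_, ?_, ?_⟩
        · intro x h1 h2 h3
          rw [extD_head hb h1 (extD_ne h3), extD_head hb h1 h3]
        · intro x h1 h2 h3 h4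
          have hx' : x = g b := by rw [← h3, h.iv]
          have e1 : extD g b P1 D x = [P1] := by
            rw [hx', extD_f hb, ← hx', h4]; rfl
          rw [extD_head hb h1 (by rw [e1]; simp), e1]; rfl
        · intro x v hv
          rcases mem_extD hv with e | ⟨y, hy⟩
          · exact Or.inr (Or.inl e)
          · rcases mem_extD hy with e | hy'
            · exact Or.inl e
            · exact Or.inr (Or.inr hy')
      · -- both
        have hne := r4' hb hj
        have hne' : g j ≠ b := fun e => hne (by rw [← e, ij])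
        have hff : g b ≠ g j := fun e => hbj (by rw [← ib, e, ij])
        have Dj := r5 hj
        have a1 : ctD g b j [P1, P2] D b = [] := by simp [ctD]
        have a2 : ctD g b j [P1, P2] D j = [] := by simp [ctD]
        have a3 : ctD g b j [P1, P2] D (g b) = D (g b) ++ [P1, P2] ++ D j := by simp [ctD, hb, hne]
        have a4 : ctD g b j [P1, P2] D (g j) = D (g j) ++ [P2, P1] ++ D b := by simp [ctD, hj, hne', hff.symm]
        have a5 : ∀ x, x ≠ b → x ≠ j → x ≠ g b → x ≠ g j → ctD g b j [P1, P2] D x = D x :=
          fun x h1 h2 h3 h4 => by simp [ctD, h1, h2, h3, h4]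
        have c1 : BEX.ct b j g b = b := by simp [BEX.ct]
        have c2 : BEX.ct b j g j = j := by simp [BEX.ct, hbj.symm]
        have c3 : BEX.ct b j g (g b) = g j := by simp [BEX.ct, hb, hne]
        have c4 : BEX.ct b j g (g j) = g b := by simp [BEX.ct, hj, hne', hff.symm]
        have c5 : ∀ x, x ≠ b → x ≠ j → x ≠ g b → x ≠ g j → BEX.ct b j g x = g x :=
          fun x h1 h2 h3 h4 => by simp [BEX.ct, h1, h2, h3, h4]
        -- the new chain
        have hch : (D (g b) ++ [P1, P2] ++ D j).IsChain R := by
          rw [List.append_assoc, List.isChain_append]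
          refine ⟨h.ch _, ?_, ?_⟩
          · cases hDj : D j with
            | nil => exact absurd hDj Dj
            | cons u t =>
              show (P1 :: P2 :: u :: t).IsChain R
              rw [List.isChain_cons_cons, List.isChain_cons_cons]
              refine ⟨r3', r2 u (by rw [hDj]; rfl), ?_⟩
              have := h.ch j
              rwa [hDj] at this
          · intro u hu v hv
            rw [h.rv, List.getLast?_reverse] at hu
            have hv' : v = P1 := by
              simpa using hv.symm
            subst hv'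
            exact hs _ _ (r1 u hu)
        refine ⟨BEX.ct b j g, 2, ctD g b j [P1, P2] D, hop_uu hb hj hne,
          h.ct hs hbj hb hj hne (by simp [hP]) ?_ hch, ?_, ?_, ?_, ?_, ?_, ?_, ?_, ?_, ?_⟩
        · intro v hv
          simp only [List.mem_cons, List.not_mem_nil, or_false] at hv
          rcases hv with rfl | rfl
          · exact f1
          · exact f2
        · rw [tot_ct h hbj hb hj hne]; simp
        · simp [c1, hj]
        · simp [c2, hb]
        · intro x h1 h2
          by_cases h3 : x = g b
          · subst h3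
            rw [c3]
            exact ⟨fun _ e => h1 (by rw [ib] at e; exact e.symm), fun _ => hff.symm⟩
          by_cases h4 : x = g j
          · subst h4
            rw [c4]
            exact ⟨fun _ e => h2 (by rw [ij] at e; exact e.symm), fun _ => hff⟩
          rw [c5 x h1 h2 h3 h4]
        · intro h'; exact absurd c1 h'
        · intro h'; exact absurd c2 h'
        · intro x h1 h2 h3
          by_cases h4 : x = g b
          · subst h4; rw [a3, List.append_assoc, head_append_ne h3]
          by_cases h5 : x = g j
          · subst h5; rw [a4, List.append_assoc, head_append_ne h3]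
          rw [a5 x h1 h2 h4 h5]
        · intro x h1 h2 h3 h4
          have hx' : x = g b := by rw [← h3, h.iv]
          subst hx'
          rw [a3, h4]
          rfl
        · intro x v hv
          by_cases h1 : x = b
          · subst h1; rw [a1] at hv; simp at hv
          by_cases h2 : x = j
          · subst h2; rw [a2] at hv; simp at hv
          by_cases h3 : x = g b
          · subst h3; rw [a3] at hv
            simp only [List.mem_append, List.mem_cons, List.not_mem_nil, or_false] at hv
            rcases hv with (hv | hv | hv) | hv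
            · exact Or.inr (Or.inr ⟨_, hv⟩)
            · exact Or.inl hv
            · exact Or.inr (Or.inl hv)
            · exact Or.inr (Or.inr ⟨_, hv⟩)
          by_cases h4 : x = g j
          · subst h4; rw [a4] at hv
            simp only [List.mem_append, List.mem_cons, List.not_mem_nil, or_false] at hv
            rcases hv with (hv | hv | hv) | hv
            · exact Or.inr (Or.inr ⟨_, hv⟩)
            · exact Or.inr (Or.inl hv)
            · exact Or.inl hv
            · exact Or.inr (Or.inr ⟨_, hv⟩)
          rw [a5 x h1 h2 h3 h4] at hv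
          exact Or.inr (Or.inr ⟨x, hv⟩)

end Pool.Agent.QL.HL
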