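import Mathlib

/-!
# Paths inside a list without repetitions

`Adj l a b`: `a` and `b` are neighbours in the list `l`. In a list without repetitions there is no cycle of neighbours of
length at least three, and a path of neighbours from the first to the last element is the list itself.
-/

namespace Pool.Agent.QL

variable {α : Type*}

/-- `a`, `b` or `b`, `a` are consecutive in `l`. -/
def Nb (l : List α) (a b : α) : Prop := [a, b] <:+: l ∨ [b, a] <:+: l

theorem Nb.symm {l : List α} {a b : α} (h : Nb l a b) : Nb l b a := Or.symm h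

theorem infix_pair_iff {l : List α} {a b : α} :
    [a, b] <:+: l ↔ ∃ (i : ℕ) (h : i + 1 < l.length), l[i] = a ∧ l[i + 1] = b := by
  constructor
  · rintro ⟨s, t, rfl⟩
    refine ⟨s.length, by simp, ?_, ?_⟩
    · simp
    · simp
  · rintro ⟨i, h, rfl, rfl⟩
    refine ⟨l.take i, l.drop (i + 2), ?_⟩
    have h1 : l.drop i = l[i] :: l.drop (i + 1) := List.drop_eq_getElem_cons (by omega)
    have h2 : l.drop (i + 1) = l[i + 1] :: l.drop (i + 2) := List.drop_eq_getElem_cons (by omega)
    calc l.take i ++ [l[i], l[i + 1]] ++ l.drop (i + 2) = l.take i ++ l.drop i := by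
          rw [h1, h2]; simp
      _ = l := List.take_append_drop i l

/-- Positions of neighbours differ by one. -/
theorem Nb.idx [DecidableEq α] {l : List α} (hl : l.Nodup) {a b : α} (h : Nb l a b) :
    a ∈ l ∧ b ∈ l ∧ (l.idxOf b = l.idxOf a + 1 ∨ l.idxOf a = l.idxOf b + 1) := by
  rcases h with h | h
  · obtain ⟨i, hi, rfl, rfl⟩ := infix_pair_iff.1 h
    refine ⟨List.getElem_mem _, List.getElem_mem _, Or.inl ?_⟩
    rw [hl.idxOf_getElem, hl.idxOf_getElem]
  · obtain ⟨i, hi, rfl, rfl⟩ := infix_pair_iff.1 h
    refine ⟨List.getElem_mem _, List.getElem_mem _, Or.inr ?_⟩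
    rw [hl.idxOf_getElem, hl.idxOf_getElem]

/-- No cycle of neighbours. -/
theorem no_cycle {l w : List α} (hl : l.Nodup) (hw : w.Nodup) (h3 : 3 ≤ w.length)
    (hc : w.IsChain (Nb l)) (hcl : Nb l (w[w.length - 1]'(by omega)) (w[0]'(by omega))) : False := by
  classical
  set m := w.length with hm
  -- the minimal position
  let f : Fin m → ℕ := fun i => l.idxOf w[i]
  have hnb : ∀ i j : Fin m, (j : ℕ) = (i + 1) % m → Nb l w[i] w[j] := by
    intro i j hj
    rcases Nat.lt_or_ge ((i : ℕ) + 1) m with h | h
    · have hj' : (j : ℕ) = i + 1 := by rw [hj, Nat.mod_eq_of_lt h]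
      have := (List.isChain_iff_getElem.1 hc) i (by omega)
      simpa [hj'] using this
    · have hi : (i : ℕ) = m - 1 := by have := i.2; omega
      have hj' : (j : ℕ) = 0 := by
        rw [hj, show (i : ℕ) + 1 = m by omega, Nat.mod_self]
      simpa [hi, hj'] using hcl
  have hfin : Nonempty (Fin m) := ⟨⟨0, by omega⟩⟩
  obtain ⟨i, hi⟩ := Finite.exists_min f
  let j : Fin m := ⟨((i : ℕ) + 1) % m, Nat.mod_lt _ (by omega)⟩
  let k : Fin m := ⟨((i : ℕ) + (m - 1)) % m, Nat.mod_lt _ (by omega)⟩
  have hki : (i : ℕ) = ((k : ℕ) + 1) % m := by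
    show (i : ℕ) = (((i : ℕ) + (m - 1)) % m + 1) % m
    rw [Nat.mod_add_mod, show (i : ℕ) + (m - 1) + 1 = i + m by omega, Nat.add_mod_right,
      Nat.mod_eq_of_lt i.2]
  have h1 := hnb i j rfl
  have h2 := hnb k i hki
  obtain ⟨a1, a2, a3⟩ := h1.idx hl
  obtain ⟨b1, b2, b3⟩ := h2.idx hl
  have c1 : f i ≤ f j := hi j
  have c2 : f i ≤ f k := hi k
  have c3 : l.idxOf w[j] = l.idxOf w[i] + 1 := by
    rcases a3 with h | h
    · exact h
    · exfalso; have : l.idxOf w[i] ≤ l.idxOf w[j] := c1; omega
  have c4 : l.idxOf w[k] = l.idxOf w[i] + 1 := by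
    rcases b3 with h | h
    · exfalso; have : l.idxOf w[i] ≤ l.idxOf w[k] := c2; omega
    · exact h
  have c5 : w[j] = w[k] := (List.idxOf_inj a2).1 (c3.trans c4.symm)
  have c6 : (j : ℕ) = k := (hw.getElem_inj_iff).1 c5
  have c7 : ((i : ℕ) + 1) % m = ((i : ℕ) + (m - 1)) % m := c6
  have hi2 := i.2
  rcases Nat.lt_or_ge ((i : ℕ) + 1) m with h | h
  · rw [Nat.mod_eq_of_lt h] at c7
    rcases Nat.eq_zero_or_pos (i : ℕ) with h0 | h0
    · rw [h0, zero_add, zero_add, Nat.mod_eq_of_lt (by omega)] at c7; omega
    · rw [show (i : ℕ) + (m - 1) = (i - 1) + m by omega, Nat.add_mod_right,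
        Nat.mod_eq_of_lt (by omega)] at c7
      omega
  · have h0 : (i : ℕ) + 1 = m := by omega
    rw [h0, Nat.mod_self, show (i : ℕ) + (m - 1) = (m - 2) + m by omega, Nat.add_mod_right,
      Nat.mod_eq_of_lt (by omega)] at c7
    omega

/-- A path of neighbours from the first to the last element is the whole list. -/
theorem eq_of_chain {l w : List α} (hl : l.Nodup) (hw : w.Nodup) (hc : w.IsChain (Nb l))
    (hh : w.head? = l.head?) (ht : w.getLast? = l.getLast?) : w = l := by
  classical
  rcases Nat.eq_zero_or_pos w.length with h0 | h0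
  · have hw0 : w = [] := List.length_eq_zero_iff.1 h0
    subst hw0
    rcases l with _ | ⟨a, l⟩
    · rfl
    · simp at hh
  have hl0 : 0 < l.length := by
    rcases l with _ | ⟨a, l⟩
    · rcases w with _ | ⟨b, w⟩
      · simp at h0
      · simp at hh
    · simp
  have e0 : w[0] = l[0] := by
    have h1 : w.head? = some w[0] := by rw [List.head?_eq_getElem?, List.getElem?_eq_getElem]
    have h2 : l.head? = some l[0] := by rw [List.head?_eq_getElem?, List.getElem?_eq_getElem]
    rw [h1, h2] at hh
    exact Option.some.inj hh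
  have e1 : w[w.length - 1]'(by omega) = l[l.length - 1]'(by omega) := by
    rw [List.getLast?_eq_getElem?, List.getLast?_eq_getElem?, List.getElem?_eq_getElem (by omega),
      List.getElem?_eq_getElem (by omega)] at ht
    exact Option.some.inj ht
  -- positions
  have key : ∀ i (hi : i < w.length), l.idxOf w[i] = i := by
    intro i
    induction i using Nat.strong_induction_on with
    | _ i ih =>
      intro hi
      rcases i with _ | i
      · rw [e0, hl.idxOf_getElem]
      · have h1 := (List.isChain_iff_getElem.1 hc) i (by omega)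
        obtain ⟨a1, a2, a3⟩ := h1.idx hl
        rw [ih i (by omega) (by omega)] at a3
        rcases a3 with h | h
        · exact h
        · exfalso
          rcases i with _ | i
          · omega
          · have h2 := ih i (by omega) (by omega)
            have h3 : l.idxOf (w[i + 1 + 1]'hi) = l.idxOf (w[i]'(by omega)) := by omega
            have h4 := (List.idxOf_inj a2).1 h3
            have h5 := (hw.getElem_inj_iff).1 h4
            omega
  have hlen : w.length = l.length := by
    have h1 := key (w.length - 1) (by omega)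
    rw [e1, hl.idxOf_getElem] at h1
    omega
  refine List.ext_getElem hlen fun i h1 h2 => ?_
  have h3 := key i h1
  have h4 : l.idxOf (l[i]'h2) = i := hl.idxOf_getElem _ _
  exact ((List.idxOf_inj (List.getElem_mem h2)).1 (h4.trans h3.symm)).symm

end Pool.Agent.QL
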