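import Pool.Agent.QL.Defs
import Pool.Agent.QL.ListC

/-!
# BEX part D: the edges of a self-avoiding path of the cylinder at a vertex
-/

namespace Pool.Agent.QL.HL

open Pool.Agent.BEX

/-- The neighbours in a list without repetitions. -/
theorem nb_iff {α : Type*} {l : List α} (hl : l.Nodup) {k : ℕ} (hk : k < l.length) (x : α) :
    Nb l l[k] x ↔ (∃ h : k + 1 < l.length, x = l[k + 1]) ∨ (∃ h : 1 ≤ k, x = l[k - 1]) := by
  unfold Nb
  rw [infix_pair_iff, infix_pair_iff]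
  constructor
  · rintro (⟨i, h, h1, h2⟩ | ⟨i, h, h1, h2⟩)
    · have : i = k := (hl.getElem_inj_iff).1 h1
      subst this
      exact Or.inl ⟨h, h2.symm⟩
    · have : i + 1 = k := (hl.getElem_inj_iff).1 h2
      subst this
      exact Or.inr ⟨by omega, by simpa using h1.symm⟩
  · rintro (⟨h, rfl⟩ | ⟨h, rfl⟩)
    · exact Or.inl ⟨k, h, rfl, rfl⟩
    · refine Or.inr ⟨k - 1, by omega, rfl, ?_⟩
      congr 1
      omega

theorem _root_.Pool.Agent.QL.Nb.mem {α : Type*} {l : List α} {a b : α} (h : Nb l a b) : a ∈ l ∧ b ∈ l := by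
  rcases h with h | h
  · obtain ⟨i, hi, rfl, rfl⟩ := infix_pair_iff.1 h
    exact ⟨List.getElem_mem _, List.getElem_mem _⟩
  · obtain ⟨i, hi, rfl, rfl⟩ := infix_pair_iff.1 h
    exact ⟨List.getElem_mem _, List.getElem_mem _⟩

variable {L : ℕ}

/-- The line number `k` mod `L`. -/
def ln (hL : 2 ≤ L) (k : ℕ) : Fin L := ⟨k % L, Nat.mod_lt _ (by omega)⟩

theorem ln_lt (hL : 2 ≤ L) {k : ℕ} (hk : k < L) : ((ln hL k : Fin L) : ℕ) = k := Nat.mod_eq_of_lt hk

theorem ln_val (hL : 2 ≤ L) (j : Fin L) : ln hL (j : ℕ) = j := Fin.ext (Nat.mod_eq_of_lt j.2)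

theorem ln_L (hL : 2 ≤ L) : ln hL L = ln hL 0 := by
  apply Fin.ext
  simp [ln]

/-- The line before the line `k`. -/
def lp (hL : 2 ≤ L) (k : ℕ) : Fin L := ln hL (k + (L - 1))

theorem lp_pos (hL : 2 ≤ L) {k : ℕ} (h1 : 1 ≤ k) : lp hL k = ln hL (k - 1) := by
  apply Fin.ext
  simp only [lp, ln]
  rw [show k + (L - 1) = (k - 1) + L by omega, Nat.add_mod_right]

theorem md_lp (hL : 2 ≤ L) (k : ℕ) : md (lp hL k) 1 = ln hL k := by
  apply Fin.ext
  simp only [md, lp, ln]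
  have h1 : (((((k + (L - 1)) % L : ℕ) : ℤ) + 1) % (L : ℤ)) = ((k % L : ℕ) : ℤ) := by
    rw [show ((((k + (L - 1)) % L : ℕ) : ℤ) + 1) = (((k + (L - 1)) % L + 1 : ℕ) : ℤ) by push_cast; ring,
      ← Int.natCast_mod, Nat.mod_add_mod, show k + (L - 1) + 1 = k + L by omega, Nat.add_mod_right]
  rw [h1]
  exact Int.toNat_natCast _

theorem md_inj (hL : 2 ≤ L) {i j : Fin L} (h : md i 1 = md j 1) : i = j := by
  have h1 := congrArg Fin.val h
  simp only [md] at h1
  have hL' : (0 : ℤ) < L := by omega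
  have a1 := Int.emod_nonneg ((i : ℤ) + 1) hL'.ne'
  have a2 := Int.emod_nonneg ((j : ℤ) + 1) hL'.ne'
  have h2 : ((i : ℤ) + 1) % (L : ℤ) = ((j : ℤ) + 1) % (L : ℤ) := by omega
  have h3 := Int.emod_emod_of_dvd
  have hi := i.2
  have hj := j.2
  apply Fin.ext
  have e1 : ((i : ℤ) + 1) % (L : ℤ) = (((i : ℕ) + 1) % L : ℕ) := by push_cast; ring_nf
  have e2 : ((j : ℤ) + 1) % (L : ℤ) = (((j : ℕ) + 1) % L : ℕ) := by push_cast; ring_nf
  rw [e1, e2] at h2
  have h4 : ((i : ℕ) + 1) % L = ((j : ℕ) + 1) % L := by exact_mod_cast h2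
  rcases Nat.lt_or_ge ((i : ℕ) + 1) L with c1 | c1 <;> rcases Nat.lt_or_ge ((j : ℕ) + 1) L with c2 | c2
  · rw [Nat.mod_eq_of_lt c1, Nat.mod_eq_of_lt c2] at h4; omega
  · rw [Nat.mod_eq_of_lt c1, show (j : ℕ) + 1 = L by omega, Nat.mod_self] at h4; omega
  · rw [Nat.mod_eq_of_lt c2, show (i : ℕ) + 1 = L by omega, Nat.mod_self] at h4; omega
  · omega

variable {M : ℕ} {i0 j0 : Fin L} {l : List (CV L)}

/-- The edge (or leg) from `P1` of the row `n`, line `j`, upwards is used. -/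
def upU (l : List (CV L)) (i0 j0 : Fin L) (n : ℤ) (j : Fin L) : Prop :=
  if n = 0 then j = i0 ∨ j = j0 else Nb l (n, j, true) (n - 1, j, false)

/-- The auxiliary edge to the left of the line `k` is used (`k = 0`, `k = L`: the seam). -/
def auU (hL : 2 ≤ L) (l : List (CV L)) (n : ℤ) (k : ℕ) : Prop :=
  Nb l (n, lp hL k, false) (n, ln hL k, true)

/-- The rung is used. -/
def ruU (l : List (CV L)) (n : ℤ) (j : Fin L) : Prop := Nb l (n, j, true) (n, j, false)

theorem auU_L (hL : 2 ≤ L) (n : ℤ) : auU hL l n L ↔ auU hL l n 0 := by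
  unfold auU
  rw [ln_L, lp_pos hL (by omega)]
  have : lp hL 0 = ln hL (L - 1) := by unfold lp; rw [Nat.zero_add]
  rw [this]

theorem nb_ad (hl : CP M ((0 : ℤ), i0, true) ((0 : ℤ), j0, true) l) {u v : CV L} (h : Nb l u v) : ad u v := by
  have hc := List.isChain_iff_getElem.1 hl.2.1
  rcases h with h | h
  · obtain ⟨i, hi, rfl, rfl⟩ := infix_pair_iff.1 h
    exact hc i hi
  · obtain ⟨i, hi, rfl, rfl⟩ := infix_pair_iff.1 h
    exact Or.symm (hc i hi)

/-- The neighbours of `P1`. -/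
theorem nb_P1 (hL : 2 ≤ L) (hl : CP M ((0 : ℤ), i0, true) ((0 : ℤ), j0, true) l) {n : ℤ} {k : ℕ} {v : CV L}
    (h : Nb l (n, ln hL k, true) v) :
    v = (n, lp hL k, false) ∨ v = (n - 1, ln hL k, false) ∨ v = (n, ln hL k, false) := by
  obtain ⟨a, b, c⟩ := v
  rcases nb_ad hl h with h1 | h1
  · obtain ⟨-, h2, h3 | h3 | h3⟩ := h1
    · simp only at h2 h3
      right; right
      rw [h2, h3.1, h3.2]
    · simp only at h2 h3
      left
      rw [h2, h3.1]
      have : b = lp hL k := md_inj hL (by rw [h3.2, md_lp])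
      rw [this]
    · simp only at h2 h3
      right; left
      rw [h2, h3.1, h3.2]
  · obtain ⟨-, h2, -⟩ := h1
    simp at h2

/-- The neighbours of `P2`. -/
theorem nb_P2 (hL : 2 ≤ L) (hl : CP M ((0 : ℤ), i0, true) ((0 : ℤ), j0, true) l) {n : ℤ} {k : ℕ} {v : CV L}
    (h : Nb l (n, ln hL k, false) v) :
    v = (n, ln hL (k + 1), true) ∨ v = (n + 1, ln hL k, true) ∨ v = (n, ln hL k, true) := by
  obtain ⟨a, b, c⟩ := v
  rcases nb_ad hl h with h1 | h1
  · obtain ⟨h2, -⟩ := h1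
    simp at h2
  · obtain ⟨h2, -, h3 | h3 | h3⟩ := h1
    · simp only at h2 h3
      right; right
      rw [h2, h3.1, ← h3.2]
    · simp only at h2 h3
      left
      have : b = ln hL (k + 1) := by
        rw [← h3.2, ← md_lp hL (k + 1), lp_pos hL (by omega)]
        rfl
      rw [h2, h3.1, this]
    · simp only at h2 h3
      right; left
      rw [h2, ← h3.2]
      have : a = n + 1 := by omega
      rw [this]

end Pool.Agent.QL.HL
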