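import Pool.Agent.QL.HLDeg
import Pool.Agent.QL.HLCap

/-!
# BEX part D: one crossing of the row, for the choices given by a path
-/

namespace Pool.Agent.QL.HL

open Pool.Agent.BEX

variable {L M : ℕ} {i0 j0 : Fin L} {l : List (CV L)}

/-- Neighbours in the path, the seam of the row `n` excluded. -/
def Rr (hL : 2 ≤ L) (l : List (CV L)) (n : ℤ) (u v : CV L) : Prop :=
  Nb l u v ∧ ¬ (u = (n, lp hL 0, false) ∧ v = (n, ln hL 0, true)) ∧
    ¬ (v = (n, lp hL 0, false) ∧ u = (n, ln hL 0, true))

theorem Rr_symm (hL : 2 ≤ L) (n : ℤ) (u v : CV L) (h : Rr hL l n u v) : Rr hL l n v u :=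
  ⟨h.1.symm, h.2.2, h.2.1⟩

/-- The invariant of the row `n` after the lines `0, ..., k - 1`. -/
structure RI (hL : 2 ≤ L) (l : List (CV L)) (i0 j0 : Fin L) (n : ℤ) (k : ℕ)
    (g : Fin L ⊕ Bool → Fin L ⊕ Bool) (D : Fin L ⊕ Bool → List (CV L)) : Prop where
  dec : Deco (Rr hL l n) g D
  occ1 : ∀ j : Fin L, (j : ℕ) < k → (g (Sum.inl j) ≠ Sum.inl j ↔ upU l i0 j0 n j)
  occ2 : ∀ j : Fin L, k ≤ (j : ℕ) → (g (Sum.inl j) ≠ Sum.inl j ↔ upU l i0 j0 (n + 1) j)
  hd1 : ∀ j : Fin L, (j : ℕ) < k → g (Sum.inl j) ≠ Sum.inl j → (D (Sum.inl j)).head? = some (n, j, true)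
  hd2 : ∀ j : Fin L, k ≤ (j : ℕ) → g (Sum.inl j) ≠ Sum.inl j → (D (Sum.inl j)).head? = some (n + 1, j, true)
  occb : g (Sum.inr true) ≠ Sum.inr true ↔ auU hL l n k
  occa : g (Sum.inr false) ≠ Sum.inr false ↔ auU hL l n 0
  hb0 : k = 0 → g (Sum.inr true) ≠ Sum.inr true → g (Sum.inr true) = Sum.inr false ∧ D (Sum.inr true) = []
  hbp : 1 ≤ k → g (Sum.inr true) ≠ Sum.inr true → (D (Sum.inr true)).head? = some (n, ln hL (k - 1), false)
  hap : 1 ≤ k → g (Sum.inr false) ≠ Sum.inr false → (D (Sum.inr false)).head? = some (n, ln hL 0, true)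
  fresh : ∀ x, ∀ v ∈ D x, n + 1 ≤ v.1 ∨ (v.1 = n ∧ (v.2.1 : ℕ) < k)

theorem ne_nil_of_head {α : Type*} {l : List α} {a : α} (h : l.head? = some a) : l ≠ [] := by
  rintro rfl
  simp at h

open Classical in
theorem RI_step (hL : 2 ≤ L) (hij : i0 ≠ j0) (hl : CP M ((0 : ℤ), i0, true) ((0 : ℤ), j0, true) l) {n : ℤ}
    (hn : 0 ≤ n) {k : ℕ} (hk : k < L) {g : Fin L ⊕ Bool → Fin L ⊕ Bool} {D : Fin L ⊕ Bool → List (CV L)}
    (h : RI hL l i0 j0 n k g D) :
    ∃ g' c' D', hop (decide (ruU l n (ln hL k))) (Sum.inr true) (Sum.inl (ln hL k)) g = some (g', c') ∧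
      RI hL l i0 j0 n (k + 1) g' D' ∧ tot D' = tot D + 2 * c' := by
  have hkv0 : ((ln hL k : Fin L) : ℕ) = k := ln_lt hL hk
  have hk0 : 1 ≤ k → ln hL k ≠ ln hL 0 := by
    intro h1 e
    have := congrArg Fin.val e
    rw [ln_lt hL hk, ln_lt hL (by omega : 0 < L)] at this
    omega
  have d1 := deg1 hL hij hl hn k
  have d2 := deg2 hL hl hn k
  obtain ⟨j, hj⟩ : ∃ j : Fin L, j = ln hL k := ⟨_, rfl⟩
  rw [← hj] at hkv0 d1 d2 ⊢
  have hkv : (j : ℕ) = k := hkv0
  have hfr1 : ∀ x, ((n, j, true) : CV L) ∉ D x := by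
    intro x hx
    rcases h.fresh x _ hx with h1 | ⟨-, h2⟩
    · simp only at h1; omega
    · simp only at h2; omega
  have hfr2 : ∀ x, ((n, j, false) : CV L) ∉ D x := by
    intro x hx
    rcases h.fresh x _ hx with h1 | ⟨-, h2⟩
    · simp only at h1; omega
    · simp only at h2; omega
  have hup : g (Sum.inl j) ≠ Sum.inl j → Nb l (n, j, false) (n + 1, j, true) := by
    intro h1
    have h2 := (h.occ2 j hkv.ge).1 h1
    unfold upU at h2
    rw [if_neg (by omega), show n + 1 - 1 = n by ring] at h2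
    exact h2.symm
  have r1 : ∀ u, (D (Sum.inr true)).head? = some u → Rr hL l n (n, j, true) u := by
    intro u hu
    have hb : g (Sum.inr true) ≠ Sum.inr true := by
      intro e
      rw [h.dec.em _ e] at hu
      simp at hu
    rcases Nat.eq_zero_or_pos k with h0 | h0
    · rw [(h.hb0 h0 hb).2] at hu
      simp at hu
    · have h1 := h.hbp h0 hb
      rw [hu, Option.some.injEq] at h1
      have h2 := h.occb.1 hb
      unfold auU at h2
      rw [lp_pos hL h0, ← hj] at h2
      subst h1
      refine ⟨h2.symm, ?_, ?_⟩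
      · rintro ⟨e, -⟩
        simpa using congrArg (fun z : CV L => z.2.2) e
      · rintro ⟨-, e⟩
        exact hk0 h0 (by rw [← hj]; simpa using congrArg (fun z : CV L => z.2.1) e)
  have r2 : ∀ u, (D (Sum.inl j)).head? = some u → Rr hL l n (n, j, false) u := by
    intro u hu
    have hb : g (Sum.inl j) ≠ Sum.inl j := by
      intro e
      rw [h.dec.em _ e] at hu
      simp at hu
    have h1 := h.hd2 j hkv.ge hb
    rw [hu, Option.some.injEq] at h1
    subst h1
    refine ⟨hup hb, ?_, ?_⟩
    · rintro ⟨-, e⟩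
      have := congrArg Prod.fst e
      simp at this
    · rintro ⟨e, -⟩
      have := congrArg Prod.fst e
      simp at this
  have r3 : decide (ruU l n j) = true → Rr hL l n (n, j, true) (n, j, false) := by
    intro hr
    rw [decide_eq_true_iff] at hr
    refine ⟨hr, ?_, ?_⟩
    · rintro ⟨e, -⟩
      simpa using congrArg (fun z : CV L => z.2.2) e
    · rintro ⟨e1, e2⟩
      have h1 : j = lp hL 0 := by simpa using congrArg (fun z : CV L => z.2.1) e1
      have h2 : j = ln hL 0 := by simpa using congrArg (fun z : CV L => z.2.1) e2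
      exact lp_ne hL 0 (h1.symm.trans h2)
  have r5 : g (Sum.inl j) ≠ Sum.inl j → D (Sum.inl j) ≠ [] := fun hb => ne_nil_of_head (h.hd2 j hkv.ge hb)
  have r4 : decide (ruU l n j) = true → g (Sum.inr true) ≠ Sum.inr true → g (Sum.inl j) ≠ Sum.inl j →
      g (Sum.inr true) ≠ Sum.inl j := by
    intro hr hb hj' e
    rcases Nat.eq_zero_or_pos k with h0 | h0
    · rw [(h.hb0 h0 hb).1] at e
      simp at e
    · have hbh := h.hbp h0 hb
      have hDb : D (Sum.inr true) ≠ [] := ne_nil_of_head hbh
      have hlast : (D (Sum.inr true)).getLast? = some (n + 1, j, true) := by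
        have h1 := h.hd2 j hkv.ge hj'
        rw [← e, h.dec.rv, List.head?_reverse] at h1
        exact h1
      set w : List (CV L) := (n, j, true) :: (D (Sum.inr true) ++ [(n, j, false)]) with hw
      have hwl : w.length = (D (Sum.inr true)).length + 2 := by rw [hw]; simp
      have hDl : 0 < (D (Sum.inr true)).length := List.length_pos_iff.2 hDb
      refine no_cycle hl.1 (w := w) ?_ (by omega) ?_ ?_
      · rw [hw, List.nodup_cons, List.mem_append, List.nodup_append]
        refine ⟨?_, h.dec.nd _, by simp, ?_⟩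
        · rintro (hx | hx)
          · exact hfr1 _ hx
          · simp at hx
        · intro x hx y hy
          simp only [List.mem_singleton] at hy
          subst hy
          exact fun e => hfr2 _ (e ▸ hx)
      · have hch : (D (Sum.inr true) ++ [(n, j, false)]).IsChain (Nb l) := by
          rw [List.isChain_append]
          refine ⟨?_, by simp, ?_⟩
          · have := h.dec.ch (Sum.inr true)
            rw [List.isChain_iff_getElem] at this ⊢
            exact fun i hi => (this i hi).1
          · intro x hx y hy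
            rw [hlast] at hx
            simp only [Option.mem_def, Option.some.injEq] at hx
            simp only [List.head?_cons, Option.mem_def, Option.some.injEq] at hy
            subst hx hy
            exact (hup hj').symm
        cases hD : D (Sum.inr true) with
        | nil => exact absurd hD hDb
        | cons u t =>
          rw [hw, hD, List.cons_append, List.isChain_cons_cons]
          rw [hD, List.cons_append] at hch
          exact ⟨(r1 u (by rw [hD]; rfl)).1, hch⟩
      · have e1 : w[0]'(by omega) = (n, j, true) := rfl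
        have e3 : w.getLast? = some (n, j, false) := by
          rw [hw, ← List.cons_append, List.getLast?_append]
          rfl
        have e2 : w[w.length - 1]'(by omega) = (n, j, false) := by
          rw [List.getLast?_eq_getElem?, List.getElem?_eq_getElem (by omega)] at e3
          exact Option.some.inj e3
        rw [e1, e2]
        rw [decide_eq_true_iff] at hr
        exact Nb.symm hr
  obtain ⟨g', c', D', q1, q2, q3, q4, q5, q6, q7, q8, q9, q10, q11⟩ := hop_ok (Rr_symm hL n) h.dec
    (b := Sum.inr true) (j := Sum.inl j) (by simp) (P1 := (n, j, true)) (P2 := (n, j, false)) (by simp)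
    hfr1 hfr2 r1 r2 (decide (ruU l n j)) r3 r4 r5
  refine ⟨g', c', D', q1, ?_, q3⟩
  have hjj : ∀ j' : Fin L, (j' : ℕ) ≠ k → (Sum.inl j' : Fin L ⊕ Bool) ≠ Sum.inl j := by
    intro j' h1 h2
    apply h1
    rw [Sum.inl.inj h2, hkv]
  refine ⟨q2, ?_, ?_, ?_, ?_, ?_, ?_, ?_, ?_, ?_, ?_⟩
  · intro j' hj'
    by_cases hjk : (j' : ℕ) = k
    · have e : j' = j := Fin.ext (hjk.trans hkv.symm)
      rw [e, q5]
      have o := h.occb
      by_cases hr : ruU l n j
      · rw [if_pos (decide_eq_true hr)]
        exact ⟨fun e => by_contra fun hu => (o.2 ((d1.1 hr).2 hu)) e,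
          fun hu => by_contra fun hne => (d1.1 hr).1 (o.1 hne) hu⟩
      · rw [if_neg (by simp [hr])]
        exact o.trans (d1.2 hr)
    · rw [q6 _ (by simp) (hjj j' hjk)]
      exact h.occ1 j' (by omega)
  · intro j' hj'
    rw [q6 _ (by simp) (hjj j' (by omega))]
    exact h.occ2 j' (by omega)
  · intro j' hj' hocc
    by_cases hjk : (j' : ℕ) = k
    · have e : j' = j := Fin.ext (hjk.trans hkv.symm)
      rw [e] at hocc ⊢
      exact q8 hocc
    · rw [q6 _ (by simp) (hjj j' hjk)] at hocc
      have h1 := h.hd1 j' (by omega) hocc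
      rw [q9 _ (by simp) (hjj j' hjk) (ne_nil_of_head h1)]
      exact h1
  · intro j' hj' hocc
    rw [q6 _ (by simp) (hjj j' (by omega))] at hocc
    have h1 := h.hd2 j' (by omega) hocc
    rw [q9 _ (by simp) (hjj j' (by omega)) (ne_nil_of_head h1)]
    exact h1
  · rw [q4]
    have o := h.occ2 j hkv.ge
    by_cases hr : ruU l n j
    · rw [if_pos (decide_eq_true hr)]
      exact ⟨fun e => (d2.1 hr).2 (fun hu => (o.2 hu) e),
        fun ha => by_contra fun hne => (d2.1 hr).1 ha (o.1 hne)⟩
    · rw [if_neg (by simp [hr])]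
      exact o.trans (d2.2 hr).symm
  · rw [q6 _ (by simp) (by simp)]
    exact h.occa
  · intro h0; omega
  · intro _ hocc
    rw [q7 hocc, Nat.add_sub_cancel, ← hj]
  · intro _ hocc
    rw [q6 _ (by simp) (by simp)] at hocc
    rcases Nat.eq_zero_or_pos k with h0 | h0
    · have hb : g (Sum.inr true) ≠ Sum.inr true := by
        rw [h.occb, h0]
        exact h.occa.1 hocc
      obtain ⟨e1, e2⟩ := h.hb0 h0 hb
      have e3 : g (Sum.inr false) = Sum.inr true := by rw [← e1, h.dec.iv]
      have e4 : D (Sum.inr false) = [] := by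
        rw [← e1, h.dec.rv, e2]; rfl
      rw [q10 _ (by simp) (by simp) e3 e4, hj, h0]
    · have h1 := h.hap h0 hocc
      rw [q9 _ (by simp) (by simp) (ne_nil_of_head h1)]
      exact h1
  · intro x v hv
    rcases q11 x v hv with e | e | ⟨y, hy⟩
    · subst e; right; exact ⟨rfl, by simp only; omega⟩
    · subst e; right; exact ⟨rfl, by simp only; omega⟩
    · rcases h.fresh y v hy with h1 | ⟨h1, h2⟩
      · exact Or.inl h1
      · exact Or.inr ⟨h1, by omega⟩

end Pool.Agent.QL.HL
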