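import Pool.Agent.QL.HLRow

/-!
# BEX part D: a whole row and a whole run, for the choices given by a path
-/

namespace Pool.Agent.QL.HL

open Pool.Agent.BEX

variable {L M : ℕ} {i0 j0 : Fin L} {l : List (CV L)}

open Classical in
/-- All the crossings of a row. -/
theorem RI_hops (hL : 2 ≤ L) (hij : i0 ≠ j0) (hl : CP M ((0 : ℤ), i0, true) ((0 : ℤ), j0, true) l) {n : ℤ}
    (hn : 0 ≤ n) : ∀ (m k : ℕ), k + m = L → ∀ {g : Fin L ⊕ Bool → Fin L ⊕ Bool} {D : Fin L ⊕ Bool → List (CV L)},
    RI hL l i0 j0 n k g D →
    ∃ g' c' D', hops (Sum.inr true) (((List.finRange L).drop k).map fun j => (decide (ruU l n j), Sum.inl j)) g =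
        some (g', c') ∧ RI hL l i0 j0 n L g' D' ∧ tot D' = tot D + 2 * c' := by
  intro m
  induction m with
  | zero =>
    intro k hk g D h
    have hk' : k = L := by omega
    subst hk'
    refine ⟨g, 0, D, ?_, h, rfl⟩
    rw [List.drop_eq_nil_of_le (by simp)]
    rfl
  | succ m ih =>
    intro k hk g D h
    have hkL : k < L := by omega
    obtain ⟨g1, c1, D1, h1, h2, h3⟩ := RI_step hL hij hl hn hkL h
    obtain ⟨g2, c2, D2, h4, h5, h6⟩ := ih (k + 1) (by omega) h2
    refine ⟨g2, c1 + c2, D2, ?_, h5, by rw [h6, h3]; ring⟩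
    have hd : (List.finRange L).drop k = ln hL k :: (List.finRange L).drop (k + 1) := by
      rw [List.drop_eq_getElem_cons (by simpa using hkL)]
      congr 1
      rw [List.getElem_finRange]
      apply Fin.ext
      simp [ln_lt hL hkL]
    rw [hd, List.map_cons, hops, h1]
    simp only [Option.bind_some]
    rw [h4]
    rfl

/-- The invariant between two rows: the legs are the upper edges of the row `n`. -/
structure LI (l : List (CV L)) (i0 j0 : Fin L) (n : ℤ) (f : Fin L → Fin L) (d : Fin L → List (CV L)) : Prop where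
  dec : Deco (Nb l) f d
  occ : ∀ j, f j ≠ j ↔ upU l i0 j0 n j
  hd : ∀ j, f j ≠ j → (d j).head? = some (n, j, true)
  rw : ∀ j, ∀ v ∈ d j, n ≤ v.1

open Classical in
/-- The choices of the row `n`. -/
noncomputable def cho (hL : 2 ≤ L) (l : List (CV L)) (n : ℤ) : Ch L :=
  (decide (auU hL l n 0), fun j => decide (ruU l n j))

theorem sum_map_IV {f : Fin L → Fin L} (h : ∀ a, f (f a) = a) (x : Fin L ⊕ Bool) :
    Sum.map f id (Sum.map f id x) = x := by
  rcases x with x | x
  · simp [h]
  · rfl

/-- The start of a row. -/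
theorem RI_zero (hL : 2 ≤ L) (n : ℤ)
    {f : Fin L → Fin L} {d : Fin L → List (CV L)} (h : LI l i0 j0 (n + 1) f d) :
    ∃ D, RI hL l i0 j0 n 0 (if (cho hL l n).1 = true then ar (Sum.inr false) (Sum.inr true) (Sum.map f id)
      else Sum.map f id) D ∧ tot D = tot d := by
  let D : Fin L ⊕ Bool → List (CV L) := fun x => match x with
    | Sum.inl j => d j
    | Sum.inr _ => []
  have hDl : ∀ j, D (Sum.inl j) = d j := fun _ => rfl
  have hDr : ∀ c, D (Sum.inr c) = [] := fun _ => rfl
  have hrows : ∀ x, ∀ v ∈ D x, n + 1 ≤ v.1 := by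
    intro x v hv
    rcases x with j | c
    · exact h.rw j v hv
    · rw [hDr c] at hv; simp at hv
  have hb : Deco (Rr hL l n) (Sum.map f id) D := by
    refine ⟨sum_map_IV h.dec.iv, ?_, ?_, ?_, ?_, ?_⟩
    · rintro (j | c)
      · exact h.dec.rv j
      · rfl
    · rintro (j | c) hj
      · exact h.dec.em j (Sum.inl.inj hj)
      · rfl
    · rintro (j | c)
      · exact h.dec.nd j
      · exact List.nodup_nil
    · rintro (i | c) (j | c') h1 h2 v hv
      · exact h.dec.dj i j (fun e => h1 (by rw [e])) (fun e => h2 (by rw [e]; rfl)) v hv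
      · rw [hDr c']; simp
      · rw [hDr c] at hv; simp at hv
      · rw [hDr c']; simp
    · rintro (j | c)
      · have h1 := h.dec.ch j
        rw [List.isChain_iff_getElem] at h1
        show (d j).IsChain _
        rw [List.isChain_iff_getElem]
        intro i hi
        refine ⟨h1 i hi, ?_, ?_⟩
        · rintro ⟨e, -⟩
          have h2 := h.rw j _ (List.getElem_mem (show i < (d j).length by omega))
          rw [e] at h2
          simp only at h2
          omega
        · rintro ⟨e, -⟩
          have h2 := h.rw j _ (List.getElem_mem hi)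
          rw [e] at h2
          simp only at h2
          omega
      · show ([] : List (CV L)).IsChain _
        simp
  have htot : tot D = tot d := by
    unfold tot
    rw [Fintype.sum_sum_type]
    simp [hDl, hDr]
  have hocc : ∀ j, ((Sum.map f id : Fin L ⊕ Bool → Fin L ⊕ Bool) (Sum.inl j) ≠ Sum.inl j ↔
      upU l i0 j0 (n + 1) j) := by
    intro j
    rw [← h.occ j]
    simp
  refine ⟨D, ?_, htot⟩
  by_cases hq : (cho hL l n).1 = true
  · rw [if_pos hq]
    have hau : auU hL l n 0 := by simpa [cho] using hq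
    have hd' := hb.ar (Rr_symm hL n) (a := Sum.inr false) (b := Sum.inr true) (by simp) rfl rfl
      (w := []) List.nodup_nil (by simp) (by simp)
    have hDD : arD (Sum.inr false) (Sum.inr true) [] D = D := by
      funext x
      unfold arD
      split_ifs with h1 h2
      · rw [h1, hDr false]
      · rw [h2, hDr true]; rfl
      · rfl
    rw [hDD] at hd'
    have vo : ∀ j, ar (Sum.inr false) (Sum.inr true) (Sum.map f id) (Sum.inl j : Fin L ⊕ Bool) =
        Sum.map f id (Sum.inl j) := fun j => by simp [ar]
    have va : ar (Sum.inr false) (Sum.inr true) (Sum.map f id) (Sum.inr false : Fin L ⊕ Bool) =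
        Sum.inr true := by simp [ar]
    have vb : ar (Sum.inr false) (Sum.inr true) (Sum.map f id) (Sum.inr true : Fin L ⊕ Bool) =
        Sum.inr false := by simp [ar]
    refine ⟨hd', ?_, ?_, ?_, ?_, ?_, ?_, ?_, ?_, ?_, ?_⟩
    · intro j hj; omega
    · intro j _; rw [vo]; exact hocc j
    · intro j hj; omega
    · intro j _ h1
      rw [vo, hocc, ← h.occ] at h1
      exact h.hd j h1
    · rw [vb]; simp [hau]
    · rw [va]; simp [hau]
    · intro _ _; exact ⟨vb, rfl⟩
    · intro h0; omega
    · intro h0; omega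
    · intro x v hv; exact Or.inl (hrows x v hv)
  · rw [if_neg hq]
    have hau : ¬ auU hL l n 0 := by simpa [cho] using hq
    refine ⟨hb, ?_, ?_, ?_, ?_, ?_, ?_, ?_, ?_, ?_, ?_⟩
    · intro j hj; omega
    · intro j _; exact hocc j
    · intro j hj; omega
    · intro j _ h1
      rw [hocc, ← h.occ] at h1
      exact h.hd j h1
    · simp [hau]
    · simp [hau]
    · intro _ h1; simp at h1
    · intro h0; omega
    · intro h0; omega
    · intro x v hv; exact Or.inl (hrows x v hv)

end Pool.Agent.QL.HL
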