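import Pool.Agent.QL.Defs
import Pool.Agent.BEX.D.HistR

/-!
# BEX part D: decorated runs
-/

namespace Pool.Agent.QL

open Pool.Agent.Hhelper14.SAW Pool.Agent.HHP Pool.Agent.BEX Pool.Agent.BEX.HistD
open scoped ENNReal

theorem rowG_eq {Λ : Type} [DecidableEq Λ] {L : ℕ} (ln : Fin L → Λ) (c : Ch L) (f : Λ → Λ) :
    rowG ln c f = rowL ln c.1 c.2 f := by
  unfold rowG rowL st
  congr 1

/-- Number of occurrences. -/
def cn {V : Type*} [DecidableEq V] (v : V) (l : List V) : ℕ := l.count v

/-- The seam edge of the row `m`. -/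
def Sm {L : ℕ} (m : ℤ) (u v : CV L) : Prop := u.1 = m ∧ v.1 = m ∧
  ((u.2.2 = false ∧ (u.2.1 : ℕ) = L - 1 ∧ v.2.2 = true ∧ (v.2.1 : ℕ) = 0) ∨
    (v.2.2 = false ∧ (v.2.1 : ℕ) = L - 1 ∧ u.2.2 = true ∧ (u.2.1 : ℕ) = 0))

theorem Sm.symm {L : ℕ} {m : ℤ} {u v : CV L} (h : Sm m u v) : Sm m v u := ⟨h.2.1, h.1, h.2.2.symm⟩

/-- The relation without the seam edges of the rows above. -/
def Rn {L : ℕ} (R : CV L → CV L → Prop) (n : ℤ) (u v : CV L) : Prop := R u v ∧ ∀ m < n, ¬ Sm m u v

/-- Conditions on the relation `R` along a run. -/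
def OkRun {L : ℕ} (hL : 0 < L) (R : CV L → CV L → Prop) : List (Ch L) → (Fin L → Fin L) → Prop
  | [], _ => True
  | c :: cs, f => (∀ j, c.2 j = true → R ((cs.length : ℤ), j, true) ((cs.length : ℤ), j, false)) ∧
      (c.1 = true → R ((cs.length : ℤ), ⟨L - 1, by omega⟩, false) ((cs.length : ℤ), ⟨0, hL⟩, true)) ∧
      (∀ j, f j ≠ j → R ((cs.length : ℤ), j, false) ((cs.length : ℤ) + 1, j, true)) ∧
      Ok (Sum.inr true) (fun j => (Sum.inl (id j) : Fin L ⊕ Bool)) c.2 (fun j => ((cs.length : ℤ), j, true))
        (fun j => ((cs.length : ℤ), j, false)) R (List.finRange L) (st c.1 f) ∧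
      ∀ g, rowL id c.1 c.2 f = some g → OkRun hL R cs g.1

/-- The auxiliary line is used at both ends or at no end. -/
def OkM {L : ℕ} : List (Ch L) → (Fin L → Fin L) → Prop
  | [], _ => True
  | c :: cs, f => (∀ g k, hops (Sum.inr true)
        ((List.finRange L).map (fun j => (c.2 j, (Sum.inl (id j) : Fin L ⊕ Bool)))) (st c.1 f) = some (g, k) →
        (g (Sum.inr false) = Sum.inr false ↔ g (Sum.inr true) = Sum.inr true)) ∧
      ∀ g, rowL id c.1 c.2 f = some g → OkM cs g.1

/-- Decorated states between the rows. -/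
structure RI {L : ℕ} (R : CV L → CV L → Prop) (n : ℤ) (f : Fin L → Fin L) (d : Fin L → List (CV L)) : Prop where
  dec : Dec (Rn R n) (fun j u => u = (n, j, true)) f d
  c2 : ∀ v, W (cn v) d ≤ 2
  fr : ∀ v : CV L, v.1 < n → W (cn v) d = 0
  ne : ∀ a, f a ≠ a → d a ≠ []

theorem Ok.mono {ι Λ V : Type*} [DecidableEq Λ] {b : Λ} {lab : ι → Λ} {r : ι → Bool} {P1 P2 : ι → V}
    {R R' : V → V → Prop} (l : List ι) (hl : l.IsChain (fun p q => R (P1 q) (P2 p) → R' (P1 q) (P2 p))) (f : Λ → Λ)
    (h : Ok b lab r P1 P2 R l f) : Ok b lab r P1 P2 R' l f := by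
  induction l generalizing f with
  | nil => trivial
  | cons p l ih =>
    simp only [Ok] at h ⊢
    intro g hg
    obtain ⟨h1, h2⟩ := h g hg
    rw [List.isChain_cons] at hl
    exact ⟨fun h3 q hq => hl.1 q hq (h1 h3 q hq), ih hl.2 g.1 h2⟩

theorem chain_fin (L : ℕ) : (List.finRange L).IsChain (fun p q : Fin L => (q : ℕ) = (p : ℕ) + 1) := by
  rw [List.isChain_iff_getElem]
  intro i hi
  simp

theorem run_main {L : ℕ} (hL : 2 ≤ L) {R : CV L → CV L → Prop} (hR : ∀ u v, R u v → R v u) (cs : List (Ch L))
    (f : Fin L → Fin L) (d : Fin L → List (CV L)) (ok : OkRun (by omega) R cs f) (h : RI R cs.length f d) :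
    (OkM cs f → run id cs f = none → Loop R) ∧
    ∀ f' c, run id cs f = some (f', c) → ∃ d', RI R 0 f' d' ∧
      W (fun l : List (CV L) => l.length) d' = W (fun l : List (CV L) => l.length) d + 2 * c ∧ Per d d' ∧
      (∀ v : CV L, v.1 < 0 ∨ (cs.length : ℤ) ≤ v.1 →
        W (cn v) d' = W (cn v) d) ∧
      ∀ (i : ℕ) (e : Ch L), cs.reverse[i]? = some e →
        (∀ j, e.2 j = true → ∃ a, [((i : ℤ), j, true), ((i : ℤ), j, false)] <:+: d' a ∨
          [((i : ℤ), j, false), ((i : ℤ), j, true)] <:+: d' a) ∧
        (e.1 = true → ∃ a, [((i : ℤ), (⟨L - 1, by omega⟩ : Fin L), false), ((i : ℤ), ⟨0, by omega⟩, true)] <:+: d' a ∨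
          [((i : ℤ), (⟨0, by omega⟩ : Fin L), true), ((i : ℤ), ⟨L - 1, by omega⟩, false)] <:+: d' a) := by
  have hL0 : 0 < L := by omega
  have hRn : ∀ n, ∀ u v, Rn R n u v → Rn R n v u := fun n u v h => ⟨hR _ _ h.1, fun m hm e => h.2 m hm e.symm⟩
  induction cs generalizing f d with
  | nil =>
    refine ⟨by simp [run], ?_⟩
    intro f' c hf
    simp only [run, Option.some.injEq, Prod.mk.injEq] at hf
    obtain ⟨rfl, rfl⟩ := hf
    exact ⟨d, by simpa using h, by simp, Per.refl d, fun _ _ => rfl, by simp⟩
  | cons c cs ih =>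
    obtain ⟨k1, k2, k3, k4, k5⟩ := ok
    have hn : (((c :: cs).length : ℕ) : ℤ) = (cs.length : ℤ) + 1 := by simp
    rw [hn] at h
    set n : ℤ := (cs.length : ℤ) with hndef
    have hyp : HypR hL0 (id : Fin L → Fin L) c.1 c.2 (fun j => (n, j, true)) (fun j => (n, j, false)) (Rn R (n + 1))
        (Rn R n) (fun j u => u = (n + 1, j, true)) f d := by
      refine ⟨h.dec, ?_, ?_, ?_, ?_, h.c2, ?_, ?_, ?_, ?_⟩
      · intro j u h1 h2
        subst h2
        refine ⟨k3 j h1, ?_⟩
        rintro m _ ⟨a1, a2, _⟩
        simp only at a1 a2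
        omega
      · intro j h1
        refine ⟨k1 j h1, ?_⟩
        rintro m _ ⟨a1, a2, a3⟩
        simp only [reduceCtorEq, false_and, true_and, false_or] at a3
        omega
      · intro j h1 h2
        exact absurd h2 (h.ne _ h1)
      · refine Ok.mono _ ?_ _ k4
        refine (chain_fin L).imp ?_
        intro p q hpq h1
        refine ⟨h1, ?_⟩
        rintro m _ ⟨a1, a2, a3⟩
        simp only [reduceCtorEq, false_and, true_and, false_or] at a3
        omega
      · intro j
        exact h.fr (n, j, true) (by simp)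
      · intro j
        exact h.fr (n, j, false) (by simp)
      · intro h1
        refine ⟨k2 h1, ?_⟩
        rintro m hm ⟨a1, a2, _⟩
        simp only at a1 a2
        omega
      · rintro ⟨_, h1⟩
        exact h1 n (by omega) ⟨rfl, rfl, Or.inr ⟨rfl, rfl, rfl, rfl⟩⟩
    have hi1 : Function.Injective (fun j : Fin L => (n, j, true)) := by
      intro x y e
      simpa using e
    have hi2 : Function.Injective (fun j : Fin L => (n, j, false)) := by
      intro x y e
      simpa using e
    obtain ⟨r1, r2⟩ := rowL_main hL0 (fun x y e => e) (hRn (n + 1)) (hRn n)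
      (fun u v h => ⟨h.1, fun m hm => h.2 m (by omega)⟩) hi1 hi2 (by simp) hyp
    simp only [run, rowG_eq]
    rcases hrow : rowL id c.1 c.2 f with _ | ⟨g, k⟩
    · refine ⟨?_, by simp⟩
      intro hm _
      rcases r1 hrow with h1 | ⟨g, k, h1, h2⟩
      · obtain ⟨C, c1, c2, c3, c4⟩ := h1
        exact ⟨C, c1, c2, c3.imp (fun u v h => h.1), fun u v hu hv => (c4 u v hu hv).1⟩
      · exact absurd (hm.1 g k h1) h2
    · obtain ⟨d1, D⟩ := r2 g k hrow
      have hRI : RI R n g d1 := by
        refine ⟨?_, D.c2, ?_, ?_⟩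
        · refine D.dec.imp (fun _ _ => id) ?_
          rintro a u _ _ ⟨h1, _⟩
          exact h1 a rfl
        · intro v hv
          refine (D.fr v ?_).trans (h.fr v (by omega))
          · intro j
            constructor
            · rintro rfl
              simp at hv
            · rintro rfl
              simp at hv
        · intro a h1 h2
          exact (D.em a h1 h2).2.2.2 a |>.1 rfl
      obtain ⟨i1, i2⟩ := ih g d1 (k5 _ hrow) hRI
      constructor
      · intro hm h1
        simp only [Option.bind_some, Option.map_eq_none_iff] at h1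
        exact i1 (hm.2 _ hrow) h1
      · intro f' c' h1
        simp only [Option.bind_some, Option.map_eq_some_iff, Prod.mk.injEq, Prod.exists] at h1
        obtain ⟨g', c1, h2, h3, h4⟩ := h1
        subst h3
        obtain ⟨d', e1, e2, e3, e4, e5⟩ := i2 g' c1 h2
        refine ⟨d', e1, ?_, D.per.trans e3, ?_, ?_⟩
        · rw [e2, D.len, ← h4]
          ring
        · intro v hv
          rw [hn] at hv
          refine (e4 v (by omega)).trans (D.fr v ?_)
          intro j
          constructor
          · rintro rfl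
            simp only at hv
            omega
          · rintro rfl
            simp only at hv
            omega
        · intro i e he
          rw [List.reverse_cons] at he
          rcases Nat.lt_or_ge i cs.length with hi | hi
          · rw [List.getElem?_append_left (by simpa using hi)] at he
            exact e5 i e he
          · rw [List.getElem?_append_right (by simpa using hi)] at he
            have hi2 : i = cs.length := by
              by_contra hne
              have : 1 ≤ i - cs.reverse.length := by simp; omega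
              rw [List.getElem?_eq_none (by simpa using this)] at he
              simp at he
            subst hi2
            simp only [List.length_reverse, Nat.sub_self, List.getElem?_cons_zero, Option.some.injEq] at he
            subst he
            constructor
            · intro j hj
              obtain ⟨a, ha⟩ := D.rn j hj
              obtain ⟨a', ha'⟩ := e3 a
              refine ⟨a', ?_⟩
              rcases ha with ha | ha
              · exact Or.inl (ha.trans ha')
              · exact Or.inr (ha.trans ha')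
            · intro hj
              obtain ⟨a, ha⟩ := D.sm hj
              obtain ⟨a', ha'⟩ := e3 a
              refine ⟨a', ?_⟩
              rcases ha with ha | ha
              · exact Or.inl (ha.trans ha')
              · exact Or.inr (ha.trans ha')

end Pool.Agent.QL
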