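import Pool.Agent.QL.HRun
import Pool.Agent.QL.ListC

/-!
# BEX part D: upper bound of the masses of the runs by the masses of the paths
-/

namespace Pool.Agent.QL

open Pool.Agent.Hhelper14.SAW Pool.Agent.HHP Pool.Agent.BEX Pool.Agent.BEX.HistD
open scoped ENNReal

theorem cn_zero {V : Type*} [DecidableEq V] {v : V} {l : List V} (h : cn v l = 0) : v ∉ l :=
  List.count_eq_zero.1 h

theorem pair_of_chain {V : Type*} {R : V → V → Prop} {l : List V} (h : l.IsChain R) {u v : V} (h1 : [u, v] <:+: l) :
    R u v := by
  obtain ⟨s, t, rfl⟩ := h1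
  rw [List.append_assoc, List.isChain_append] at h
  have h2 := h.2.1
  rw [List.cons_append, List.cons_append, List.nil_append, List.isChain_cons_cons] at h2
  exact h2.1

/-- The directed edge `u, v` is allowed by the choices `cs`. -/
def Cmp {L : ℕ} (cs : List (Ch L)) (u v : CV L) : Prop := ∀ (m : ℕ) (e : Ch L), cs.reverse[m]? = some e →
  (∀ p, u = ((m : ℤ), p, true) → v = ((m : ℤ), p, false) → e.2 p = true) ∧
  (∀ p q : Fin L, (p : ℕ) = L - 1 → (q : ℕ) = 0 → u = ((m : ℤ), p, false) → v = ((m : ℤ), q, true) → e.1 = true)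

/-- Adjacency along the choices `cs`. -/
def RR {L : ℕ} (cs : List (Ch L)) (u v : CV L) : Prop := ad u v ∧ Cmp cs u v ∧ Cmp cs v u

theorem RR.symm {L : ℕ} {cs : List (Ch L)} {u v : CV L} (h : RR cs u v) : RR cs v u := ⟨Or.symm h.1, h.2.2, h.2.1⟩

theorem md_one {L : ℕ} (p q : Fin L) (h : (q : ℕ) = p + 1) : md p 1 = q := by
  unfold md
  apply Fin.ext
  simp only
  have hq := q.2
  have h1 : ((p : ℤ) + 1) % (L : ℤ) = (p : ℤ) + 1 := Int.emod_eq_of_lt (by positivity) (by omega)
  rw [h1]
  omega

theorem md_last {L : ℕ} (p q : Fin L) (h : (p : ℕ) = L - 1) (h' : (q : ℕ) = 0) : md p 1 = q := by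
  unfold md
  apply Fin.ext
  simp only
  have hL : 0 < L := p.pos
  have h1 : ((p : ℤ) + 1) = (L : ℤ) := by omega
  rw [h1, Int.emod_self, h']
  rfl

theorem Ok_of_chain {ι Λ V : Type*} [DecidableEq Λ] {b : Λ} {lab : ι → Λ} {r : ι → Bool} {P1 P2 : ι → V}
    {R : V → V → Prop} (l : List ι) (hl : l.IsChain (fun p q => R (P1 q) (P2 p))) (f : Λ → Λ) :
    Ok b lab r P1 P2 R l f := by
  induction l generalizing f with
  | nil => trivial
  | cons p l ih =>
    simp only [Ok]
    intro g hg
    rw [List.isChain_cons] at hl
    exact ⟨fun h3 q hq => hl.1 q hq, ih hl.2 g.1⟩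

theorem okRun_RR {L : ℕ} (hL : 2 ≤ L) (cs : List (Ch L)) (pre suf : List (Ch L)) (h : pre ++ suf = cs)
    (f : Fin L → Fin L) : OkRun (by omega) (RR cs) suf f := by
  induction suf generalizing pre f with
  | nil => trivial
  | cons c suf ih =>
    have key : ∀ (m : ℕ) (e : Ch L), (m : ℤ) = (suf.length : ℤ) → cs.reverse[m]? = some e → e = c := by
      intro m e hm he
      have hm' : m = suf.length := by exact_mod_cast hm
      rw [← h, List.reverse_append, List.reverse_cons, List.append_assoc, hm',
        List.getElem?_append_right (by simp)] at he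
      simpa using he.symm
    refine ⟨?_, ?_, ?_, ?_, ?_⟩
    · intro j hj
      refine ⟨Or.inl ⟨rfl, rfl, Or.inl ⟨rfl, rfl⟩⟩, ?_, ?_⟩
      · intro m e he
        constructor
        · intro p h1 _
          simp only [Prod.mk.injEq, and_true] at h1
          rw [key m e h1.1.symm he, ← h1.2]
          exact hj
        · intro p q _ _ h1
          simp at h1
      · intro m e he
        constructor
        · intro p h1
          simp at h1
        · intro p q hp hq h1 h2
          simp only [Prod.mk.injEq, and_true] at h1 h2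
          exfalso
          have h3 : p = q := h1.2.symm.trans h2.2
          rw [h3] at hp
          omega
    · intro hj
      refine ⟨Or.inr ⟨rfl, rfl, Or.inr (Or.inl ⟨rfl, md_last _ _ rfl rfl⟩)⟩, ?_, ?_⟩
      · intro m e he
        constructor
        · intro p h1
          simp at h1
        · intro p q _ _ h1 _
          simp only [Prod.mk.injEq, and_true] at h1
          rw [key m e h1.1.symm he]
          exact hj
      · intro m e he
        constructor
        · intro p h1 h2
          simp only [Prod.mk.injEq, and_true] at h1 h2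
          exfalso
          have h3 := h1.2.trans h2.2.symm
          have := congrArg Fin.val h3
          simp only at this
          omega
        · intro p q _ _ h1
          simp at h1
    · intro j _
      refine ⟨Or.inr ⟨rfl, rfl, Or.inr (Or.inr ⟨by simp, rfl⟩)⟩, ?_, ?_⟩
      · intro m e he
        constructor
        · intro p h1
          simp at h1
        · intro p q _ _ h1 h2
          simp only [Prod.mk.injEq, and_true] at h1 h2
          omega
      · intro m e he
        constructor
        · intro p h1 h2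
          simp only [Prod.mk.injEq, and_true] at h1 h2
          omega
        · intro p q _ _ h1
          simp at h1
    · apply Ok_of_chain
      refine (chain_fin L).imp ?_
      intro p q hpq
      refine ⟨Or.inl ⟨rfl, rfl, Or.inr (Or.inl ⟨rfl, md_one _ _ hpq⟩)⟩, ?_, ?_⟩
      · intro m e he
        constructor
        · intro x h1 h2
          simp only [Prod.mk.injEq, and_true] at h1 h2
          exfalso
          have h3 := congrArg Fin.val (h1.2.trans h2.2.symm)
          omega
        · intro x y _ _ h1
          simp at h1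
      · intro m e he
        constructor
        · intro x h1
          simp at h1
        · intro x y hx hy h1 h2
          simp only [Prod.mk.injEq, and_true] at h1 h2
          exfalso
          have h3 := congrArg Fin.val h2.2
          omega
    · intro g _
      exact ih (pre ++ [c]) (by simp [h]) g.1

/-- The choices `cs` are read off from the path. -/
def Rd {L : ℕ} (cs : List (Ch L)) (γ : List (CV L)) : Prop := ∀ (m : ℕ) (e : Ch L), cs.reverse[m]? = some e →
  (∀ p, e.2 p = true ↔ Nb γ ((m : ℤ), p, true) ((m : ℤ), p, false)) ∧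
  (∀ p q : Fin L, (p : ℕ) = L - 1 → (q : ℕ) = 0 → (e.1 = true ↔ Nb γ ((m : ℤ), p, false) ((m : ℤ), q, true)))

theorem Rd_inj {L : ℕ} (hL : 2 ≤ L) {cs cs' : List (Ch L)} (h : cs.length = cs'.length) {γ : List (CV L)}
    (h1 : Rd cs γ) (h2 : Rd cs' γ) : cs = cs' := by
  rw [← List.reverse_inj]
  apply List.ext_getElem?
  intro m
  rcases e1 : cs.reverse[m]? with _ | e
  · rw [List.getElem?_eq_none_iff, List.length_reverse] at e1
    symm
    rw [List.getElem?_eq_none_iff, List.length_reverse, ← h]
    exact e1
  · rcases e2 : cs'.reverse[m]? with _ | e'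
    · rw [List.getElem?_eq_none_iff, List.length_reverse, ← h, ← List.length_reverse, ← List.getElem?_eq_none_iff] at e2
      rw [e2] at e1
      simp at e1
    · obtain ⟨a1, a2⟩ := h1 m e e1
      obtain ⟨b1, b2⟩ := h2 m e' e2
      congr 1
      have hA := a2 ⟨L - 1, by omega⟩ ⟨0, by omega⟩ rfl rfl
      have hB := b2 ⟨L - 1, by omega⟩ ⟨0, by omega⟩ rfl rfl
      refine Prod.ext ?_ ?_
      · rw [Bool.eq_iff_iff, hA, hB]
      · funext p
        rw [Bool.eq_iff_iff, a1 p, b1 p]

theorem good {L : ℕ} (hL : 2 ≤ L) (M : ℕ) (i j : Fin L) (h : i ≠ j) (cs : List (Ch L)) (hcs : cs.length = M) (c : ℕ)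
    (hr : run id cs id = some (ar i j id, c)) :
    ∃ γ : List (CV L), CP M (0, i, true) (0, j, true) γ ∧ γ.length = c ∧ Rd cs γ := by
  have hRs : ∀ u v, RR cs u v → RR cs v u := fun u v h => h.symm
  have hstart : RI (RR cs) (cs.length : ℤ) (id : Fin L → Fin L) (fun _ => []) := by
    refine ⟨⟨fun _ => rfl, fun _ => rfl, fun _ _ => rfl, fun _ => by simp, fun a u hu => by simp at hu⟩, ?_, ?_, ?_⟩
    · intro v; simp [W, cn]
    · intro v _; simp [W, cn]
    · intro a ha; simp at ha
  obtain ⟨_, hm⟩ := run_main hL hRs cs id (fun _ => []) (okRun_RR hL cs [] cs rfl id) hstart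
  obtain ⟨d, e1, e2, _, e4, e5⟩ := hm _ _ hr
  have fi : ar i j id i = j := by simp [ar]
  have fj : ar i j id j = i := by simp [ar, h.symm]
  have hout : ∀ a, a ≠ i → a ≠ j → d a = [] := by
    intro a h1 h2
    apply e1.dec.emp
    simp [ar, h1, h2]
  have hdj : d j = (d i).reverse := by rw [← e1.dec.rev, fi]
  have hni : d i ≠ [] := e1.ne i (by rw [fi]; exact h.symm)
  have hchain := e1.dec.chn i
  have hchain' : (d i).IsChain (RR cs) := hchain.imp (fun u v h => h.1)
  have hnb : ∀ u v, Nb (d i) u v → RR cs u v := by
    rintro u v (h1 | h1)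
    · exact pair_of_chain hchain' h1
    · exact RR.symm (pair_of_chain hchain' h1)
  have hex : ∀ u v, (∃ a, [u, v] <:+: d a ∨ [v, u] <:+: d a) → Nb (d i) u v := by
    rintro u v ⟨a, ha⟩
    by_cases h1 : a = i
    · subst h1; exact ha
    · by_cases h2 : a = j
      · subst h2
        rw [hdj] at ha
        rcases ha with ha | ha
        · right
          rw [← List.reverse_infix] at ha
          simpa using ha
        · left
          rw [← List.reverse_infix] at ha
          simpa using ha
      · rw [hout a h1 h2] at ha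
        simp at ha
  refine ⟨d i, ⟨?_, ?_, ?_, ?_, ?_⟩, ?_, ?_⟩
  · exact nodup_of e1.dec e1.c2 i
  · exact hchain'.imp (fun u v h => h.1)
  · intro z hz
    by_contra hcon
    have h1 : z.1 < 0 ∨ (cs.length : ℤ) ≤ z.1 := by
      rw [hcs]
      by_contra h2
      exact hcon ⟨by omega, by omega⟩
    have h2 := e4 z h1
    have h3 : W (cn z) (fun _ : Fin L => ([] : List (CV L))) = 0 := by simp [W, cn]
    rw [h3] at h2
    exact cn_zero (W_zero h2 i) hz
  · obtain ⟨x, t, hx⟩ := List.exists_cons_of_ne_nil hni
    have := e1.dec.hd i x (by rw [hx]; rfl)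
    rw [hx, this]
    rfl
  · have h1 : d j ≠ [] := by rw [hdj]; simpa using hni
    obtain ⟨x, t, hx⟩ := List.exists_cons_of_ne_nil h1
    have h2 := e1.dec.hd j x (by rw [hx]; rfl)
    have h3 : d i = (d j).reverse := by rw [hdj, List.reverse_reverse]
    rw [h3, List.getLast?_reverse, hx, h2]
    rfl
  · have h1 : W (fun l : List (CV L) => l.length) (fun _ : Fin L => ([] : List (CV L))) = 0 := by simp [W]
    rw [h1, zero_add] at e2
    have h2 : W (fun l : List (CV L) => l.length) d = (d i).length + (d j).length := by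
      unfold W
      rw [← Finset.sum_pair (f := fun a => (d a).length) h]
      symm
      apply Finset.sum_subset (Finset.subset_univ _)
      intro a _ ha
      simp only [Finset.mem_insert, Finset.mem_singleton, not_or] at ha
      rw [hout a ha.1 ha.2]
      rfl
    rw [h2, hdj, List.length_reverse] at e2
    omega
  · intro m e he
    obtain ⟨g1, g2⟩ := e5 m e he
    constructor
    · intro p
      constructor
      · intro h1
        exact hex _ _ (g1 p h1)
      · intro h1
        exact ((hnb _ _ h1).2.1 m e he).1 p rfl rfl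
    · intro p q hp hq
      have ep : p = ⟨L - 1, by omega⟩ := Fin.ext hp
      have eq' : q = ⟨0, by omega⟩ := Fin.ext hq
      constructor
      · intro h1
        rw [ep, eq']
        exact hex _ _ (g2 h1)
      · intro h1
        exact ((hnb _ _ h1).2.1 m e he).2 p q hp hq rfl rfl

/-- Upper bound, arcs from the empty state. -/
theorem rm_le_cm {L : ℕ} (hL : 2 ≤ L) (M : ℕ) (i j : Fin L) (h : i ≠ j) :
    rm (id : Fin L → Fin L) M id (ar i j id) ≤ cm M (0, i, true) (0, j, true) := by
  classical
  set S : Set {cs : List (Ch L) // cs.length = M} := {cs | ∃ c, run id cs.1 id = some (ar i j id, c)} with hS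
  have hsub : Function.support (fun cs : {cs : List (Ch L) // cs.length = M} => wr (ar i j id) (run id cs.1 id)) ⊆ S := by
    intro cs hc
    rw [Function.mem_support] at hc
    unfold wr at hc
    rcases hr : run id cs.1 id with _ | g
    · rw [hr] at hc
      simp at hc
    · rw [hr] at hc
      by_cases hg : g.1 = ar i j id
      · exact ⟨g.2, by rw [hr, ← hg]⟩
      · simp [hg] at hc
  choose! c hc using fun (cs : {cs : List (Ch L) // cs.length = M}) (hcs : cs ∈ S) => hcs
  have hg : ∀ cs : S, ∃ γ : List (CV L), CP M (0, i, true) (0, j, true) γ ∧ γ.length = c cs.1 ∧ Rd cs.1.1 γ :=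
    fun cs => good hL M i j h cs.1.1 cs.1.2 _ (hc cs.1 cs.2)
  choose γ g1 g2 g3 using hg
  unfold rm
  rw [← tsum_subtype_eq_of_support_subset hsub]
  have e : ∀ cs : S, wr (ar i j id) (run id cs.1.1 id) = xE ^ (γ cs).length := by
    intro cs
    rw [hc cs.1 cs.2]
    simp [wr, g2]
  calc (∑' cs : S, wr (ar i j id) (run id cs.1.1 id)) = ∑' cs : S, xE ^ (γ cs).length := tsum_congr e
    _ = ∑' cs : S, (fun l : {l : List (CV L) // CP M (0, i, true) (0, j, true) l} => xE ^ l.1.length)
          (⟨γ cs, g1 cs⟩ : {l : List (CV L) // CP M (0, i, true) (0, j, true) l}) := rfl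
    _ ≤ ∑' l : {l : List (CV L) // CP M (0, i, true) (0, j, true) l}, xE ^ l.1.length :=
        ENNReal.tsum_comp_le_tsum_of_injective (f := fun cs : S =>
          (⟨γ cs, g1 cs⟩ : {l : List (CV L) // CP M (0, i, true) (0, j, true) l})) (by
            intro x y hxy
            have h1 : γ x = γ y := congrArg Subtype.val hxy
            apply Subtype.ext
            apply Subtype.ext
            exact Rd_inj hL (x.1.2.trans y.1.2.symm) (g3 x) (h1 ▸ g3 y)) _

end Pool.Agent.QL
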